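import Mathlib

set_option autoImplicit false

/-!
Real-algebraic inequalities behind the contact arguments.
-/

namespace Pool.Agent.H21R3

/-- inequality for `g` -/
theorem k2_real {β k x y ρ : ℝ} (hβ : 1 < β) (hk : 0 ≤ k) (hρ : ρ = (β - 1) / β)
    (hxy : x ^ 2 + y ^ 2 = ρ ^ 2) :
    ρ ^ 2 * ((β * (1 - x) + k) ^ 2 + (β * y) ^ 2) ≤
      (1 + x + k * x - β * (1 - x)) ^ 2 + (y + k * y + β * y) ^ 2 := by
  have hβ0 : (0:ℝ) < β := by linarith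
  have h1 : β * ρ = β - 1 := by rw [hρ]; field_simp
  have hρ0 : 0 < ρ := by rw [hρ]; apply div_pos <;> linarith
  have hx : x ≤ ρ := by
    have : x ^ 2 ≤ ρ ^ 2 := by nlinarith [sq_nonneg y]
    exact le_of_sq_le_sq this hρ0.le |>.trans le_rfl
  have hy : y ^ 2 = ρ ^ 2 - x ^ 2 := by linarith
  have key : (1 + x + k * x - β * (1 - x)) ^ 2 + (y + k * y + β * y) ^ 2 -
      ρ ^ 2 * ((β * (1 - x) + k) ^ 2 + (β * y) ^ 2) = 2 * ρ * (2 * β + k) * (ρ - x) := by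
    have hb : β = 1 + β * ρ := by linarith
    have e1 : (y + k * y + β * y) ^ 2 = (1 + k + β) ^ 2 * y ^ 2 := by ring
    have e2 : (β * y) ^ 2 = β ^ 2 * y ^ 2 := by ring
    rw [e1, e2, hy]
    linear_combination (-(β * ρ + β - 1) * (1 + ρ ^ 2) +
      2 * x * ((1 + k + β) + (β + k) * ρ)) * h1
  have : 0 ≤ 2 * ρ * (2 * β + k) * (ρ - x) := by
    apply mul_nonneg
    · positivity
    · linarith
  linarith

/-- inequality for the logarithmic derivative of `g` -/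
theorem k3_real {m X Y κ Q R : ℝ} (hm : 1 < m) (hdisc : m * (X ^ 2 + Y ^ 2) + m < (m ^ 2 + 1) * X)
    (hX : 1 < m * X)
    (hQ : ((m * X - 1) ^ 2 + m ^ 2 * Y ^ 2) * Q =
      2 * κ * (m + 1) * Y - (m + 1) * (X ^ 2 * (m * X - 1) + Y ^ 2 * (m * X + 1)))
    (hR : ((m * X - 1) ^ 2 + m ^ 2 * Y ^ 2) * R =
      2 * κ * ((1 + X) * (m * X - 1) + m * Y ^ 2) - (m + 1) * Y * (m * (X ^ 2 + Y ^ 2) - 2 * X))
    (hQpos : 0 < Q) :
    0 < m * (1 - 4 * κ ^ 2 + (m + 1) * X) + (m + 1) ^ 2 * (X ^ 2 - Y ^ 2) +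
      2 * (m + 1) * κ * Y * (2 * m + 1) + (m ^ 2 - 1) * Q + 2 * m * (m - 1) * κ * R := by
  have hm0 : 0 < m := by linarith
  set E : ℝ := (m * X - 1) ^ 2 + m ^ 2 * Y ^ 2 with hE
  have hEpos : 0 < E := by
    have : 0 < (m * X - 1) ^ 2 := by apply pow_pos; linarith
    have : 0 ≤ m ^ 2 * Y ^ 2 := by positivity
    rw [hE]; linarith
  have hXpos : 0 < X := by
    by_contra h
    push Not at h
    nlinarith
  -- disc inequality
  have hd : E ≤ (m - 1) * ((1 + X) * (m * X - 1) + m * Y ^ 2) := by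
    rw [hE]; nlinarith
  have hd2 : 4 * κ ^ 2 * E ≤ 4 * κ ^ 2 * ((m - 1) * ((1 + X) * (m * X - 1) + m * Y ^ 2)) :=
    mul_le_mul_of_nonneg_left hd (by positivity)
  -- kappa Y
  have hEQ : 0 < E * Q := mul_pos hEpos hQpos
  have hkY : X ^ 2 * (m * X - 1) + Y ^ 2 * (m * X + 1) < 2 * (κ * Y) := by
    rw [hQ] at hEQ
    have : 0 < (m + 1) * (2 * (κ * Y) - (X ^ 2 * (m * X - 1) + Y ^ 2 * (m * X + 1))) := by
      linarith
    have h2 := (mul_pos_iff_of_pos_left (by linarith : (0:ℝ) < m + 1)).mp this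
    linarith
  have hkY2 : Y ^ 2 * (m * X + 1) ≤ 2 * (κ * Y) := by
    have : 0 ≤ X ^ 2 * (m * X - 1) := mul_nonneg (sq_nonneg _) (by linarith)
    linarith
  have hkY3 : Y ^ 2 * 2 ≤ 2 * (κ * Y) := by
    have : 0 ≤ Y ^ 2 * (m * X - 1) := mul_nonneg (sq_nonneg _) (by linarith)
    nlinarith
  -- w
  set w : ℝ := m * (X ^ 2 + Y ^ 2) - 2 * X with hw
  have hwge : -1 ≤ m * w := by
    rw [hw]; nlinarith [sq_nonneg (m * X - 1), mul_nonneg (mul_nonneg hm0.le hm0.le) (sq_nonneg Y)]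
  have hEw : E = m * w + 1 := by rw [hE, hw]; ring
  -- C coefficient of kappa Y, times m
  have hC : 0 < m * (m + 2) * w + 2 * m + 1 := by nlinarith
  have hfin : 0 ≤ (m + 3) * (m * w) + 3 * m + 1 := by nlinarith
  -- E * S
  have hES : 0 < E * (m * (1 - 4 * κ ^ 2 + (m + 1) * X) + (m + 1) ^ 2 * (X ^ 2 - Y ^ 2) +
      2 * (m + 1) * κ * Y * (2 * m + 1) + (m ^ 2 - 1) * Q + 2 * m * (m - 1) * κ * R) := by
    have e : E * (m * (1 - 4 * κ ^ 2 + (m + 1) * X) + (m + 1) ^ 2 * (X ^ 2 - Y ^ 2) +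
      2 * (m + 1) * κ * Y * (2 * m + 1) + (m ^ 2 - 1) * Q + 2 * m * (m - 1) * κ * R) =
      E * m + E * (m * (m + 1) * X) + E * (m + 1) ^ 2 * X ^ 2 + (m ^ 2 - 1) * (E * Q)
      + m * (4 * κ ^ 2 * ((m - 1) * ((1 + X) * (m * X - 1) + m * Y ^ 2)) - 4 * κ ^ 2 * E)
      + 2 * (m + 1) * (κ * Y) * ((2 * m + 1) * E - m * (m - 1) * w) - E * (m + 1) ^ 2 * Y ^ 2 := by
      have h1 : E * (2 * m * (m - 1) * κ * R) = 2 * m * (m - 1) * κ * (E * R) := by ring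
      have h2 : E * (2 * m * (m - 1) * κ * R) = 2 * m * (m - 1) * κ *
        (2 * κ * ((1 + X) * (m * X - 1) + m * Y ^ 2) - (m + 1) * Y * w) := by
        rw [h1, hR]
      linear_combination h2
    rw [e]
    have t1 : 0 < E * m := mul_pos hEpos hm0
    have t2 : 0 ≤ E * (m * (m + 1) * X) := by positivity
    have t3 : 0 ≤ E * (m + 1) ^ 2 * X ^ 2 := by positivity
    have t4 : 0 ≤ (m ^ 2 - 1) * (E * Q) := mul_nonneg (by nlinarith) hEQ.le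
    have t5 : 0 ≤ m * (4 * κ ^ 2 * ((m - 1) * ((1 + X) * (m * X - 1) + m * Y ^ 2)) - 4 * κ ^ 2 * E) :=
      mul_nonneg hm0.le (by linarith)
    have hCE : (2 * m + 1) * E - m * (m - 1) * w = m * (m + 2) * w + 2 * m + 1 := by
      rw [hEw]; ring
    have t6 : E * (m + 1) ^ 2 * Y ^ 2 ≤
        2 * (m + 1) * (κ * Y) * ((2 * m + 1) * E - m * (m - 1) * w) := by
      rw [hCE]
      have h1 : (m + 1) * (Y ^ 2 * 2) * (m * (m + 2) * w + 2 * m + 1) ≤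
          (m + 1) * (2 * (κ * Y)) * (m * (m + 2) * w + 2 * m + 1) :=
        mul_le_mul_of_nonneg_right (mul_le_mul_of_nonneg_left hkY3 (by linarith)) hC.le
      have h2 : 0 ≤ (m + 1) * Y ^ 2 * ((m + 3) * (m * w) + 3 * m + 1) :=
        mul_nonneg (mul_nonneg (by linarith) (sq_nonneg _)) hfin
      rw [hEw]
      linarith
    linarith
  exact (mul_pos_iff_of_pos_left hEpos).mp hES

theorem k4_A1 {β x σ : ℝ} (hβ : 1 < β) (hx : 1 < x) (hq : σ ≤ x ^ 2 - β) :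
    0 < 2 * β * (3 * x ^ 2 - x - σ) - (x + β) ^ 2 := by
  have hβ0 : 0 < β := by linarith
  have h1 : β * σ ≤ β * (x ^ 2 - β) := mul_le_mul_of_nonneg_left hq hβ0.le
  have h2 : 2 * β * (3 * x ^ 2 - x - (x ^ 2 - β)) - (x + β) ^ 2 =
    (x - 1) * (3 * x - 1) + (β - 1) * (2 * (x - 1) ^ 2 + (β - 1) + 2 * (x ^ 2 - 1) + 2) := by ring
  have h3 : 0 < (x - 1) * (3 * x - 1) := mul_pos (by linarith) (by linarith)
  have h4 : 0 ≤ (β - 1) * (2 * (x - 1) ^ 2 + (β - 1) + 2 * (x ^ 2 - 1) + 2) := by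
    apply mul_nonneg (by linarith)
    nlinarith [sq_nonneg (x - 1)]
  linarith

theorem k4_A2 {β x σ : ℝ} (hβ : 1 < β) (hx : 1 < x) (hq : σ ≤ x ^ 2 - β) :
    0 < 2 * β * (3 * x ^ 2 - 3 * x + 1) - 2 * x ^ 2 - σ * (2 * β - 1) := by
  have h1 : σ * (2 * β - 1) ≤ (x ^ 2 - β) * (2 * β - 1) :=
    mul_le_mul_of_nonneg_right hq (by linarith)
  have h2 : 2 * β * (3 * x ^ 2 - 3 * x + 1) - 2 * x ^ 2 - (x ^ 2 - β) * (2 * β - 1) =
    3 * (x - 1) ^ 2 + (β - 1) * (4 * x ^ 2 - 6 * x + 3 + 2 * β) := by ring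
  have h3 : 0 < 3 * (x - 1) ^ 2 := by
    have : 0 < (x - 1) ^ 2 := pow_pos (by linarith) 2
    linarith
  have h4 : 0 ≤ (β - 1) * (4 * x ^ 2 - 6 * x + 3 + 2 * β) := by
    apply mul_nonneg (by linarith)
    nlinarith [sq_nonneg (2 * x - 3 / 2)]
  linarith

theorem k4_21 {β x ρ : ℝ} (hβ : 1 < β) (hx : 1 < x) (hρ : 0 ≤ ρ) (hq : β - x ^ 2 ≤ ρ) :
    0 ≤ 2 * (2 * β * (3 * x ^ 2 - x + ρ) - (x + β) ^ 2) -
      (2 * β * (3 * x ^ 2 - 3 * x + 1) - 2 * x ^ 2 + ρ * (2 * β - 1)) := by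
  have hβ0 : 0 < β := by linarith
  have h1 : 2 * (2 * β * (3 * x ^ 2 - x + ρ) - (x + β) ^ 2) -
      (2 * β * (3 * x ^ 2 - 3 * x + 1) - 2 * x ^ 2 + ρ * (2 * β - 1)) =
      2 * β * (2 * x ^ 2 - x - 1) + 2 * β * (x ^ 2 - β + ρ) + ρ := by ring
  rw [h1]
  have h2 : 0 ≤ 2 * β * (2 * x ^ 2 - x - 1) := by
    apply mul_nonneg (by linarith)
    nlinarith
  have h3 : 0 ≤ 2 * β * (x ^ 2 - β + ρ) := mul_nonneg (by linarith) (by linarith)
  linarith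

theorem k4_32 {β x ρ : ℝ} (hβ : 1 < β) (hx : 1 < x) (hρ : 0 ≤ ρ) :
    0 ≤ 3 * (2 * β * (3 * x ^ 2 - 3 * x + 1) - 2 * x ^ 2 + ρ * (2 * β - 1)) -
      (2 * β * (3 * x ^ 2 - x + ρ) - (x + β) ^ 2) := by
  have h1 : 3 * (2 * β * (3 * x ^ 2 - 3 * x + 1) - 2 * x ^ 2 + ρ * (2 * β - 1)) -
      (2 * β * (3 * x ^ 2 - x + ρ) - (x + β) ^ 2) =
      7 * (x - 1) ^ 2 + (β - 1) * (12 * x ^ 2 - 14 * x + 7 + β) + ρ * (4 * β - 3) := by ring
  rw [h1]
  have h2 : 0 ≤ 7 * (x - 1) ^ 2 := by positivity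
  have h3 : 0 ≤ (β - 1) * (12 * x ^ 2 - 14 * x + 7 + β) := by
    apply mul_nonneg (by linarith)
    nlinarith [sq_nonneg (x - 1)]
  have h4 : 0 ≤ ρ * (4 * β - 3) := mul_nonneg hρ (by linarith)
  linarith

theorem k4_quad {β x A1 A2 : ℝ} (hβ : 1 < β) (hx : 1 < x) (hA1 : 0 < A1)
    (h21 : 0 ≤ 2 * A1 - A2) (h32 : 0 ≤ 3 * A2 - A1) :
    0 ≤ A1 ^ 2 * (2 * β - x * (2 * β - 1)) - (2 * x - 1) * β * A2 ^ 2 +
      A1 * A2 * (2 * β * (4 * x - 1) - 2 * x - 2 * β * (2 / 3 * x + 1 / 2)) := by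
  have hβ0 : 0 < β := by linarith
  have hβx : 0 < β * x := mul_pos hβ0 (by linarith)
  have hβx1 : 0 < (β - 1) * (x - 1) := mul_pos (by linarith) (by linarith)
  have hid : A1 ^ 2 * (2 * β - x * (2 * β - 1)) - (2 * x - 1) * β * A2 ^ 2 +
      A1 * A2 * (2 * β * (4 * x - 1) - 2 * x - 2 * β * (2 / 3 * x + 1 / 2)) =
      ((2 * x - 1) * β / 3) * ((2 * A1 - A2) * (3 * A2 - A1)) +
      A1 * (A1 * (2 * β - x * (2 * β - 1) + 2 * (2 * x - 1) * β / 3) +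
        A2 * (2 * β * (4 * x - 1) - 2 * x - 2 * β * (2 / 3 * x + 1 / 2) -
          7 * (2 * x - 1) * β / 3)) := by
    ring
  rw [hid]
  have hxx : 0 ≤ (2 * x - 1) * β / 3 :=
    div_nonneg (mul_nonneg (by linarith) hβ0.le) (by norm_num)
  have e : A1 * (2 * β - x * (2 * β - 1) + 2 * (2 * x - 1) * β / 3) +
        A2 * (2 * β * (4 * x - 1) - 2 * x - 2 * β * (2 / 3 * x + 1 / 2) -
          7 * (2 * x - 1) * β / 3) =
        (3 * A2 - A1) * ((2 * β - x * (2 * β - 1) + 2 * (2 * x - 1) * β / 3) / 5 +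
          2 * (2 * β * (4 * x - 1) - 2 * x - 2 * β * (2 / 3 * x + 1 / 2) -
            7 * (2 * x - 1) * β / 3) / 5) +
        (2 * A1 - A2) * (3 * (2 * β - x * (2 * β - 1) + 2 * (2 * x - 1) * β / 3) / 5 +
          (2 * β * (4 * x - 1) - 2 * x - 2 * β * (2 / 3 * x + 1 / 2) -
            7 * (2 * x - 1) * β / 3) / 5) := by
    ring
  rw [e]
  have f1 : 0 ≤ (2 * β - x * (2 * β - 1) + 2 * (2 * x - 1) * β / 3) / 5 +
          2 * (2 * β * (4 * x - 1) - 2 * x - 2 * β * (2 / 3 * x + 1 / 2) -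
            7 * (2 * x - 1) * β / 3) / 5 := by
    nlinarith
  have f2 : 0 ≤ 3 * (2 * β - x * (2 * β - 1) + 2 * (2 * x - 1) * β / 3) / 5 +
          (2 * β * (4 * x - 1) - 2 * x - 2 * β * (2 / 3 * x + 1 / 2) -
            7 * (2 * x - 1) * β / 3) / 5 := by
    nlinarith
  have g1 := mul_nonneg hxx (mul_nonneg h21 h32)
  have g2 := mul_nonneg hA1.le (add_nonneg (mul_nonneg h32 f1) (mul_nonneg h21 f2))
  linarith

theorem k4_const {β x ρ : ℝ} (hβ : 1 < β) (hx : 1 < x) (hρ : 0 ≤ ρ) (hq : β - x ^ 2 ≤ ρ) :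
    0 < x * (β - 1) * (x ^ 2 - β) + β * ((x - 1) ^ 2 * (3 * x + 1)) +
      ρ * (2 * β * (2 / 3 * x + 1 / 2)) := by
  have hβ0 : 0 < β := by linarith
  have hx0 : 0 < x := by linarith
  have hsq : 0 < β * ((x - 1) ^ 2 * (3 * x + 1)) := by
    apply mul_pos hβ0
    apply mul_pos
    · apply pow_pos; linarith
    · linarith
  rcases le_total β (x ^ 2) with h | h
  · have h1 : 0 ≤ x * (β - 1) * (x ^ 2 - β) :=
      mul_nonneg (mul_nonneg hx0.le (by linarith)) (by linarith)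
    have h2 : 0 ≤ ρ * (2 * β * (2 / 3 * x + 1 / 2)) := mul_nonneg hρ (by positivity)
    linarith
  · have h4 : (β - x ^ 2) * (2 * β * (2 / 3 * x + 1 / 2)) ≤
        ρ * (2 * β * (2 / 3 * x + 1 / 2)) :=
      mul_le_mul_of_nonneg_right hq (by positivity)
    have h5 : 0 ≤ (β - x ^ 2) * (2 * β * (2 / 3 * x + 1 / 2) - x * (β - 1)) := by
      apply mul_nonneg (by linarith)
      nlinarith [mul_pos hβ0 hx0]
    linarith

/-- inequality for the main auxiliary function -/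
theorem k4_real {β x η δ : ℝ} (hβ : 1 < β) (hx : 1 < x) (hq : 0 ≤ x ^ 2 - β - δ * η)
    (him : η * (2 * β * (3 * x ^ 2 - x - δ * η) - (x + β) ^ 2) +
      δ * (2 * β * (3 * x ^ 2 - 3 * x + 1) - 2 * x ^ 2 - δ * η * (2 * β - 1)) = 0) :
    0 < (4 * β - 1) * x ^ 3 - 5 * β * x ^ 2 + (2 * β - β ^ 2) * x + β +
      δ ^ 2 * (2 * β - x * (2 * β - 1)) - (2 * x - 1) * β * η ^ 2 -
      (δ * η) * (2 * β * (4 * x - 1) - 2 * x) := by
  obtain ⟨A1, hA1⟩ : ∃ A1, A1 = 2 * β * (3 * x ^ 2 - x - δ * η) - (x + β) ^ 2 := ⟨_, rfl⟩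
  obtain ⟨A2, hA2⟩ : ∃ A2, A2 = 2 * β * (3 * x ^ 2 - 3 * x + 1) - 2 * x ^ 2 -
    δ * η * (2 * β - 1) := ⟨_, rfl⟩
  rw [← hA1, ← hA2] at him
  have hA1pos : 0 < A1 := by rw [hA1]; exact k4_A1 hβ hx (by linarith)
  have hA2pos : 0 < A2 := by rw [hA2]; exact k4_A2 hβ hx (by linarith)
  have hσ0 : δ * η ≤ 0 := by
    have h1 : (δ * η) * A1 = -(δ ^ 2 * A2) := by
      linear_combination δ * him
    have h2 : (δ * η) * A1 ≤ 0 := by
      rw [h1]; have : 0 ≤ δ ^ 2 * A2 := by positivity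
      linarith
    by_contra h
    push Not at h
    have := mul_pos h hA1pos
    linarith
  have h21 : 0 ≤ 2 * A1 - A2 := by
    have := k4_21 hβ hx (by linarith : 0 ≤ -(δ * η)) (by linarith)
    rw [hA1, hA2]
    linarith
  have h32 : 0 ≤ 3 * A2 - A1 := by
    have := k4_32 hβ hx (by linarith : 0 ≤ -(δ * η))
    rw [hA1, hA2]
    linarith
  obtain ⟨t, ht⟩ : ∃ t : ℝ, δ = A1 * t := ⟨δ / A1, by field_simp⟩
  have hη : η = -(A2 * t) := by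
    have h1 : A1 * (η + A2 * t) = 0 := by
      have : A1 * η + δ * A2 = 0 := by linarith
      rw [ht] at this
      linear_combination this
    rcases mul_eq_zero.mp h1 with h | h
    · linarith
    · linarith
  have hρ : δ * η = -(A1 * A2 * t ^ 2) := by rw [ht, hη]; ring
  have hquad := mul_nonneg (k4_quad hβ hx hA1pos h21 h32) (sq_nonneg t)
  have hC := k4_const hβ hx (by linarith : 0 ≤ -(δ * η)) (by linarith)
  have hδ2 : δ ^ 2 = A1 ^ 2 * t ^ 2 := by rw [ht]; ring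
  have hη2 : η ^ 2 = A2 ^ 2 * t ^ 2 := by rw [hη]; ring
  rw [hρ] at hC ⊢
  rw [hδ2, hη2]
  linarith

end Pool.Agent.H21R3
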