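import Mathlib

set_option autoImplicit false

/-!
The parametric integrals `J s c v = ∫ t^s (t + (1-t) v)^c dt` and the functions `U`, `Ep`.
-/

namespace Pool.Agent.H21R3

open Complex Metric Set Filter Topology MeasureTheory Function

noncomputable def Wl (v : ℂ) (t : ℝ) : ℂ := (t : ℂ) + (1 - (t : ℂ)) * v

noncomputable def J (s c : ℝ) (v : ℂ) : ℂ :=
  ∫ t in (0:ℝ)..1, ((t ^ s : ℝ) : ℂ) * (Wl v t) ^ (c : ℂ)

theorem Wl_re (v : ℂ) (t : ℝ) : (Wl v t).re = t + (1 - t) * v.re := by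
  simp [Wl]

theorem Wl_re_pos {v : ℂ} (hv : 0 < v.re) {t : ℝ} (ht : t ∈ Icc (0:ℝ) 1) : 0 < (Wl v t).re := by
  rw [Wl_re]
  rcases eq_or_lt_of_le ht.1 with h | h
  · rw [← h]; simpa using hv
  · have := ht.2
    have : 0 ≤ (1 - t) * v.re := mul_nonneg (by linarith) hv.le
    linarith

theorem Wl_slit {v : ℂ} (hv : 0 < v.re) {t : ℝ} (ht : t ∈ Icc (0:ℝ) 1) :
    Wl v t ∈ slitPlane := Or.inl (Wl_re_pos hv ht)

theorem Wl_ne {v : ℂ} (hv : 0 < v.re) {t : ℝ} (ht : t ∈ Icc (0:ℝ) 1) :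
    Wl v t ≠ 0 := slitPlane_ne_zero (Wl_slit hv ht)

theorem Wl_cont : Continuous (fun p : ℂ × ℝ => Wl p.1 p.2) := by
  unfold Wl; fun_prop

theorem rpow_cont {s : ℝ} (hs : 0 ≤ s) : Continuous (fun t : ℝ => ((t ^ s : ℝ) : ℂ)) := by
  have : Continuous (fun t : ℝ => t ^ s) := by
    apply continuous_id.rpow_const
    intro x; right; exact hs
  exact Complex.continuous_ofReal.comp this

/-- joint continuity of integrand -/
theorem integrand_cont {s : ℝ} (hs : 0 ≤ s) (c : ℝ) :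
    ContinuousOn (fun p : ℂ × ℝ => ((p.2 ^ s : ℝ) : ℂ) * (Wl p.1 p.2) ^ (c : ℂ))
      ({v : ℂ | 0 < v.re} ×ˢ Icc (0:ℝ) 1) := by
  apply ContinuousOn.mul
  · exact ((rpow_cont hs).comp continuous_snd).continuousOn
  · intro p hp
    have h1 : Wl p.1 p.2 ∈ slitPlane := Wl_slit hp.1 hp.2
    exact (Wl_cont.continuousAt.cpow continuousAt_const h1).continuousWithinAt

theorem integrand_cont_t {s : ℝ} (hs : 0 ≤ s) (c : ℝ) {v : ℂ} (hv : 0 < v.re) :
    ContinuousOn (fun t : ℝ => ((t ^ s : ℝ) : ℂ) * (Wl v t) ^ (c : ℂ)) (Icc (0:ℝ) 1) := by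
  have := (integrand_cont hs c).comp (f := fun t : ℝ => (v, t)) (s := Icc (0:ℝ) 1)
    (by fun_prop) (fun t ht => ⟨hv, ht⟩)
  exact this

theorem integrand_int {s : ℝ} (hs : 0 ≤ s) (c : ℝ) {v : ℂ} (hv : 0 < v.re) :
    IntervalIntegrable (fun t : ℝ => ((t ^ s : ℝ) : ℂ) * (Wl v t) ^ (c : ℂ)) volume 0 1 := by
  apply ContinuousOn.intervalIntegrable
  rw [uIcc_of_le zero_le_one]
  exact integrand_cont_t hs c hv

theorem J_hasDeriv_aux {s : ℝ} (hs : 0 ≤ s) (c : ℝ) {v : ℂ} (hv : 0 < v.re) :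
    HasDerivAt (J s c) (∫ t in (0:ℝ)..1, ((t ^ s : ℝ) : ℂ) * (c * (Wl v t) ^ ((c:ℂ) - 1) *
      (1 - (t:ℂ)))) v := by
  set F' : ℂ → ℝ → ℂ := fun v t => ((t ^ s : ℝ) : ℂ) * (c * (Wl v t) ^ ((c:ℂ) - 1) *
      (1 - (t:ℂ))) with hF'
  have hcontF' : ContinuousOn (fun p : ℂ × ℝ => F' p.1 p.2) ({v : ℂ | 0 < v.re} ×ˢ Icc (0:ℝ) 1) := by
    apply ContinuousOn.mul
    · exact ((rpow_cont hs).comp continuous_snd).continuousOn
    · apply ContinuousOn.mul
      · apply ContinuousOn.mul continuousOn_const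
        intro p hp
        have h1 : Wl p.1 p.2 ∈ slitPlane := Wl_slit hp.1 hp.2
        exact (Wl_cont.continuousAt.cpow continuousAt_const h1).continuousWithinAt
      · fun_prop
  set r : ℝ := v.re / 2 with hr
  have hrpos : 0 < r := by rw [hr]; linarith
  have hball : closedBall v r ⊆ {v : ℂ | 0 < v.re} := by
    intro w hw
    have h1 : |(w - v).re| ≤ ‖w - v‖ := Complex.abs_re_le_norm _
    have h2 : ‖w - v‖ ≤ r := by rwa [mem_closedBall, dist_eq_norm] at hw
    have h3 := abs_le.mp (h1.trans h2)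
    show 0 < w.re
    rw [Complex.sub_re] at h3
    linarith [h3.1]
  have hcomp : IsCompact (closedBall v r ×ˢ Icc (0:ℝ) 1) :=
    (isCompact_closedBall v r).prod isCompact_Icc
  obtain ⟨C, hC⟩ := hcomp.exists_bound_of_continuousOn
    (hcontF'.mono (prod_mono hball subset_rfl))
  have hIoc : Set.uIoc (0:ℝ) 1 ⊆ Icc 0 1 := by
    rw [uIoc_of_le zero_le_one]; exact Ioc_subset_Icc_self
  have key := intervalIntegral.hasDerivAt_integral_of_dominated_loc_of_deriv_le
    (μ := volume) (a := 0) (b := 1) (bound := fun _ => C)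
    (F := fun v t => ((t ^ s : ℝ) : ℂ) * (Wl v t) ^ (c : ℂ)) (F' := F') (x₀ := v)
    (s := ball v r) (ball_mem_nhds v hrpos) ?_ ?_ ?_ ?_ ?_ ?_
  · exact key.2
  · have : ∀ᶠ w in 𝓝 v, w ∈ ball v r := ball_mem_nhds v hrpos
    filter_upwards [this] with w hw
    have hw' : 0 < w.re := hball (ball_subset_closedBall hw)
    exact ((integrand_cont_t hs c hw').mono hIoc).aestronglyMeasurable measurableSet_uIoc
  · exact integrand_int hs c hv
  · have h1 : ContinuousOn (F' v) (Icc (0:ℝ) 1) :=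
      hcontF'.comp (f := fun t : ℝ => (v, t)) (by fun_prop) (fun t ht => ⟨hv, ht⟩)
    exact (h1.mono hIoc).aestronglyMeasurable measurableSet_uIoc
  · refine Eventually.of_forall (fun t ht w hw => ?_)
    exact hC (w, t) ⟨ball_subset_closedBall hw, hIoc ht⟩
  · exact intervalIntegrable_const
  · refine Eventually.of_forall (fun t ht w hw => ?_)
    have hw' : 0 < w.re := hball (ball_subset_closedBall hw)
    have h1 : Wl w t ∈ slitPlane := Wl_slit hw' (hIoc ht)
    have h2 : HasDerivAt (fun w => Wl w t) (1 - (t:ℂ)) w := by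
      unfold Wl
      simpa using ((hasDerivAt_id w).const_mul (1 - (t:ℂ))).const_add (t:ℂ)
    exact (h2.cpow_const h1).const_mul _

theorem cpow_sub_one_mul {w : ℂ} (hw : w ≠ 0) (c : ℝ) :
    w * w ^ (((c - 1 : ℝ)) : ℂ) = w ^ (c : ℂ) := by
  push_cast
  rw [Complex.cpow_sub _ _ hw, Complex.cpow_one]
  field_simp

theorem rpow_succ_c {t : ℝ} (ht : 0 ≤ t) {s : ℝ} (hs : 0 ≤ s) :
    ((t ^ (s + 1) : ℝ) : ℂ) = ((t ^ s : ℝ) : ℂ) * (t : ℂ) := by
  rw [Real.rpow_add_one' ht (by linarith)]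
  push_cast
  rfl

theorem J_hasDeriv {s : ℝ} (hs : 0 ≤ s) (c : ℝ) {v : ℂ} (hv : 0 < v.re) :
    HasDerivAt (J s c) (c * (J s (c - 1) v - J (s + 1) (c - 1) v)) v := by
  have h := J_hasDeriv_aux hs c hv
  convert h using 1
  unfold J
  rw [← intervalIntegral.integral_sub (integrand_int hs (c - 1) hv)
    (integrand_int (by linarith : (0:ℝ) ≤ s + 1) (c - 1) hv), ← intervalIntegral.integral_const_mul]
  apply intervalIntegral.integral_congr
  intro t ht
  rw [uIcc_of_le zero_le_one] at ht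
  simp only
  rw [rpow_succ_c ht.1 hs]
  push_cast
  ring

/-- the relation `w * w^(c-1) = w^c` integrated -/
theorem J_rel {s : ℝ} (hs : 0 ≤ s) (c : ℝ) {v : ℂ} (hv : 0 < v.re) :
    J s c v = J (s + 1) (c - 1) v + v * (J s (c - 1) v - J (s + 1) (c - 1) v) := by
  unfold J
  rw [← intervalIntegral.integral_sub (integrand_int hs (c - 1) hv)
    (integrand_int (by linarith : (0:ℝ) ≤ s + 1) (c - 1) hv), ← intervalIntegral.integral_const_mul,
    ← intervalIntegral.integral_add (integrand_int (by linarith : (0:ℝ) ≤ s + 1) (c - 1) hv)]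
  · apply intervalIntegral.integral_congr
    intro t ht
    rw [uIcc_of_le zero_le_one] at ht
    simp only
    rw [rpow_succ_c ht.1 hs, ← cpow_sub_one_mul (Wl_ne hv ht) c]
    unfold Wl
    ring
  · apply IntervalIntegrable.const_mul
    exact (integrand_int hs (c - 1) hv).sub (integrand_int (by linarith : (0:ℝ) ≤ s + 1) (c - 1) hv)

/-- fundamental theorem of calculus for `t^s w^c` -/
theorem J_ftc {s : ℝ} (hs : 1 ≤ s) (c : ℝ) {v : ℂ} (hv : 0 < v.re) :
    1 = s * J (s - 1) c v + c * (1 - v) * J s (c - 1) v := by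
  have hder : ∀ t ∈ uIcc (0:ℝ) 1, HasDerivAt (fun t : ℝ => ((t ^ s : ℝ) : ℂ) * (Wl v t) ^ (c : ℂ))
      (((s * t ^ (s - 1) : ℝ) : ℂ) * (Wl v t) ^ (c : ℂ) +
        ((t ^ s : ℝ) : ℂ) * (c * (Wl v t) ^ ((c : ℂ) - 1) * (1 - v))) t := by
    intro t ht
    rw [uIcc_of_le zero_le_one] at ht
    have h1 : HasDerivAt (fun t : ℝ => ((t ^ s : ℝ) : ℂ)) ((s * t ^ (s - 1) : ℝ) : ℂ) t :=
      (Real.hasDerivAt_rpow_const (Or.inr hs)).ofReal_comp
    have h2 : HasDerivAt (fun t : ℝ => Wl v t) (1 - v) t := by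
      unfold Wl
      have h3 : HasDerivAt (fun t : ℂ => t + (1 - t) * v) (1 + (-1) * v) (t:ℂ) :=
        (hasDerivAt_id _).add (((hasDerivAt_id (t:ℂ)).const_sub 1).mul_const v)
      have h4 := h3.comp_ofReal
      convert h4 using 1
      ring
    have h5 : HasDerivAt (fun t : ℝ => (Wl v t) ^ (c : ℂ))
        (c * (Wl v t) ^ ((c : ℂ) - 1) * (1 - v)) t := by
      have h6 : HasDerivAt (fun w : ℂ => w ^ (c:ℂ)) (c * (Wl v t) ^ ((c : ℂ) - 1)) (Wl v t) := by
        have := (hasDerivAt_id (Wl v t)).cpow_const (c := (c:ℂ)) (Wl_slit hv ht)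
        simpa using this
      exact h6.comp t h2
    exact h1.mul h5
  have hint1 : IntervalIntegrable (fun t : ℝ => ((s * t ^ (s - 1) : ℝ) : ℂ) * (Wl v t) ^ (c : ℂ))
      volume 0 1 := by
    have := (integrand_int (by linarith : (0:ℝ) ≤ s - 1) c hv).const_mul (s:ℂ)
    refine this.congr ?_
    intro t _
    simp only
    push_cast; ring
  have hint2 : IntervalIntegrable (fun t : ℝ => ((t ^ s : ℝ) : ℂ) * (c * (Wl v t) ^ ((c : ℂ) - 1)
      * (1 - v))) volume 0 1 := by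
    have := (integrand_int (by linarith : (0:ℝ) ≤ s) (c - 1) hv).const_mul ((c:ℂ) * (1 - v))
    refine this.congr ?_
    intro t _
    simp only
    push_cast; ring
  have hft := intervalIntegral.integral_eq_sub_of_hasDerivAt hder (hint1.add hint2)
  rw [intervalIntegral.integral_add hint1 hint2] at hft
  have e1 : (∫ t in (0:ℝ)..1, ((s * t ^ (s - 1) : ℝ) : ℂ) * (Wl v t) ^ (c : ℂ)) =
      s * J (s - 1) c v := by
    unfold J
    rw [← intervalIntegral.integral_const_mul]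
    apply intervalIntegral.integral_congr
    intro t _
    simp only
    push_cast; ring
  have e2 : (∫ t in (0:ℝ)..1, ((t ^ s : ℝ) : ℂ) * (c * (Wl v t) ^ ((c : ℂ) - 1) * (1 - v))) =
      c * (1 - v) * J s (c - 1) v := by
    unfold J
    rw [← intervalIntegral.integral_const_mul]
    apply intervalIntegral.integral_congr
    intro t _
    simp only
    push_cast; ring
  rw [e1, e2] at hft
  rw [hft]
  have hW1 : Wl v 1 = 1 := by simp [Wl]
  simp [hW1, Real.zero_rpow (by linarith : s ≠ 0)]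

noncomputable def U (β : ℝ) (v : ℂ) : ℂ := β * J (β - 1) (-2 * β) v
noncomputable def Ep (β : ℝ) (v : ℂ) : ℂ := β * J β (-2 * β - 1) v

variable {β : ℝ}

theorem one_eq (hβ : 1 < β) {v : ℂ} (hv : 0 < v.re) :
    1 = U β v + 2 * (v - 1) * Ep β v := by
  have h := J_ftc hβ.le (-2 * β) hv
  refine h.trans ?_
  unfold U Ep
  push_cast
  ring

theorem U_hasDeriv (hβ : 1 < β) {v : ℂ} (hv : 0 < v.re) :
    HasDerivAt (U β) (2 * β * (Ep β v - U β v) / v) v := by
  have hv0 : v ≠ 0 := by rintro rfl; simp at hv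
  have h := (J_hasDeriv (by linarith : (0:ℝ) ≤ β - 1) (-2 * β) hv).const_mul (β : ℂ)
  have hr := J_rel (by linarith : (0:ℝ) ≤ β - 1) (-2 * β) hv
  have e : β - 1 + 1 = β := by ring
  rw [e] at hr h
  have h' : HasDerivAt (U β) ((β:ℂ) * (((-2 * β : ℝ) : ℂ) *
    (J (β - 1) (-2 * β - 1) v - J β (-2 * β - 1) v))) v := h
  refine h'.congr_deriv ?_
  unfold U Ep
  rw [hr]
  push_cast
  field_simp
  ring

theorem Ep_diff (hβ : 1 < β) {v : ℂ} (hv : 0 < v.re) : DifferentiableAt ℂ (Ep β) v := by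
  have h := (J_hasDeriv (by linarith : (0:ℝ) ≤ β) (-2 * β - 1) hv).const_mul (β : ℂ)
  exact h.differentiableAt

theorem Ep_deriv (hβ : 1 < β) {v : ℂ} (hv : 0 < v.re) :
    v * (v - 1) * deriv (Ep β) v = β * (U β v - Ep β v) - v * Ep β v := by
  have hv0 : v ≠ 0 := by rintro rfl; simp at hv
  have h1 := U_hasDeriv hβ hv
  have h2 := (Ep_diff hβ hv).hasDerivAt
  have h3 : HasDerivAt (fun v => U β v + 2 * (v - 1) * Ep β v)
      (2 * β * (Ep β v - U β v) / v + ((2 * 1) * Ep β v + 2 * (v - 1) * deriv (Ep β) v)) v := by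
    refine h1.add (HasDerivAt.mul ?_ h2)
    exact ((hasDerivAt_id v).sub_const 1).const_mul 2
  have h4 : HasDerivAt (fun v => U β v + 2 * (v - 1) * Ep β v) 0 v := by
    have h5 : (fun v => U β v + 2 * (v - 1) * Ep β v) =ᶠ[𝓝 v] fun _ => (1:ℂ) := by
      have : {v : ℂ | 0 < v.re} ∈ 𝓝 v :=
        (isOpen_lt continuous_const Complex.continuous_re).mem_nhds hv
      filter_upwards [this] with w hw
      exact (one_eq hβ hw).symm
    exact (hasDerivAt_const v (1:ℂ)).congr_of_eventuallyEq h5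
  have h6 := h3.unique h4
  field_simp at h6
  linear_combination (1/2 : ℂ) * h6

theorem U_one (hβ : 1 < β) : U β 1 = 1 := by
  have := one_eq hβ (v := 1) (by simp)
  linear_combination (-1 : ℂ) * this

theorem Ep_one (hβ : 1 < β) : Ep β 1 = β / (β + 1) := by
  have h := Ep_deriv hβ (v := 1) (by simp)
  rw [U_one hβ] at h
  have h1 : (β:ℂ) + 1 ≠ 0 := by
    have : (β + 1 : ℝ) ≠ 0 := by linarith
    exact_mod_cast this
  rw [eq_div_iff h1]
  linear_combination h

theorem U_ode (hβ : 1 < β) {v : ℂ} (hv : 0 < v.re) :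
    v * (v - 1) * (2 * β * (Ep β v - U β v) / v) = β * (1 - (2 * v - 1) * U β v) := by
  have hv0 : v ≠ 0 := by rintro rfl; simp at hv
  have h := one_eq hβ hv
  have : v * (v - 1) * (2 * β * (Ep β v - U β v) / v) = (v - 1) * (2 * β * (Ep β v - U β v)) := by
    field_simp
  rw [this]
  linear_combination (-(β:ℂ)) * h

end Pool.Agent.H21R3
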