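import Mathlib
import Pool.Agent.H21R3.UEps

set_option autoImplicit false

/-!
Behaviour of `U`, `Ep` at infinity in the half plane `Re v ≥ 1/2`, and at `v = 1/2`.
-/

namespace Pool.Agent.H21R3

open Complex Metric Set Filter Topology MeasureTheory Function

noncomputable def Linf : Filter ℂ := Bornology.cobounded ℂ ⊓ 𝓟 {v : ℂ | 1 / 2 ≤ v.re}

instance : Linf.IsCountablyGenerated := by
  unfold Linf
  rw [← comap_norm_atTop]
  infer_instance

theorem Linf_re : ∀ᶠ v in Linf, 1 / 2 ≤ v.re := by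
  unfold Linf
  exact eventually_inf_principal.mpr (Eventually.of_forall (fun v hv => hv))

theorem Linf_norm : Tendsto (fun v : ℂ => ‖v‖) Linf atTop :=
  tendsto_norm_cobounded_atTop.mono_left inf_le_left

theorem Wl_norm_ge {v : ℂ} (hv : 1 / 2 ≤ v.re) {t : ℝ} (ht : t ∈ Icc (0:ℝ) 1) :
    1 / 2 ≤ ‖Wl v t‖ := by
  have h1 : (Wl v t).re ≤ ‖Wl v t‖ := Complex.re_le_norm _
  rw [Wl_re] at h1
  have h2 := ht.2
  have h3 := ht.1
  nlinarith

theorem Wl_norm_ge2 {v : ℂ} {t : ℝ} (ht : t ∈ Icc (0:ℝ) 1) :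
    (1 - t) * ‖v‖ - 1 ≤ ‖Wl v t‖ := by
  unfold Wl
  have h1 : ‖(1 - (t:ℂ)) * v‖ = (1 - t) * ‖v‖ := by
    rw [norm_mul]
    congr 1
    have : (1 - (t:ℂ)) = ((1 - t : ℝ) : ℂ) := by push_cast; rfl
    rw [this, Complex.norm_real, Real.norm_of_nonneg (by linarith [ht.2])]
  have h2 : ‖(t:ℂ)‖ ≤ 1 := by
    rw [Complex.norm_real, Real.norm_of_nonneg ht.1]; exact ht.2
  have h3 := norm_sub_norm_le ((1 - (t:ℂ)) * v) (-(t:ℂ))
  rw [norm_neg, sub_neg_eq_add, add_comm ((1 - (t:ℂ)) * v)] at h3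
  linarith

theorem J_tendsto_zero {s : ℝ} (hs : 0 ≤ s) {c : ℝ} (hc : c < 0) :
    Tendsto (J s c) Linf (𝓝 0) := by
  have hz : (0:ℂ) = ∫ t in (0:ℝ)..1, (0:ℂ) := by simp
  rw [hz]
  unfold J
  have hIoc : Set.uIoc (0:ℝ) 1 ⊆ Icc 0 1 := by
    rw [uIoc_of_le zero_le_one]; exact Ioc_subset_Icc_self
  apply intervalIntegral.tendsto_integral_filter_of_dominated_convergence
    (bound := fun _ => (1 / 2 : ℝ) ^ c)
  · filter_upwards [Linf_re] with v hv
    have hv' : 0 < v.re := by linarith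
    exact ((integrand_cont_t hs c hv').mono hIoc).aestronglyMeasurable measurableSet_uIoc
  · filter_upwards [Linf_re] with v hv
    refine Eventually.of_forall (fun t ht => ?_)
    have ht' := hIoc ht
    have hv' : 0 < v.re := by linarith
    rw [norm_mul, Complex.norm_real, Complex.norm_cpow_real]
    have h1 : ‖t ^ s‖ ≤ 1 := by
      rw [Real.norm_of_nonneg (Real.rpow_nonneg ht'.1 s)]
      exact Real.rpow_le_one ht'.1 ht'.2 hs
    have h2 : ‖Wl v t‖ ^ c ≤ (1 / 2 : ℝ) ^ c :=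
      Real.rpow_le_rpow_of_nonpos (by norm_num) (Wl_norm_ge hv ht') hc.le
    have h3 : 0 ≤ ‖Wl v t‖ ^ c := Real.rpow_nonneg (norm_nonneg _) _
    calc ‖t ^ s‖ * ‖Wl v t‖ ^ c ≤ 1 * ‖Wl v t‖ ^ c := mul_le_mul_of_nonneg_right h1 h3
      _ = ‖Wl v t‖ ^ c := one_mul _
      _ ≤ _ := h2
  · exact intervalIntegrable_const
  · have hne : ∀ᵐ t : ℝ, t ≠ 1 := by
      simp [ae_iff]
    filter_upwards [hne] with t ht1 ht
    have ht' := hIoc ht
    have ht2 : 0 < 1 - t := by
      have := lt_of_le_of_ne ht'.2 ht1; linarith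
    have h1 : Tendsto (fun v => ‖Wl v t‖) Linf atTop := by
      apply tendsto_atTop_mono (fun v => Wl_norm_ge2 (v := v) ht')
      apply tendsto_atTop_add_const_right
      exact Linf_norm.const_mul_atTop ht2
    have h2 : Tendsto (fun v => ‖Wl v t‖ ^ c) Linf (𝓝 0) := by
      have h3 := (tendsto_rpow_neg_atTop (y := -c) (by linarith)).comp h1
      rw [neg_neg] at h3
      exact h3
    rw [tendsto_zero_iff_norm_tendsto_zero]
    have h4 := h2.const_mul ‖((t ^ s : ℝ) : ℂ)‖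
    rw [mul_zero] at h4
    refine h4.congr (fun v => ?_)
    rw [norm_mul, Complex.norm_cpow_real]

variable {β : ℝ}

theorem U_tendsto (hβ : 1 < β) : Tendsto (U β) Linf (𝓝 0) := by
  have := (J_tendsto_zero (by linarith : (0:ℝ) ≤ β - 1) (by linarith : -2 * β < 0)).const_mul (β:ℂ)
  rw [mul_zero] at this
  exact this

theorem U_mul_eq (hβ : 1 < β) {v : ℂ} (hv : 0 < v.re) :
    v * U β v = (β / (2 * β - 1)) * (1 + (β - 1) * J (β - 1) (1 - 2 * β) v) := by
  have h1 := J_ftc hβ.le (1 - 2 * β) hv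
  have h2 := J_rel (by linarith : (0:ℝ) ≤ β - 1) (1 - 2 * β) hv
  have e : β - 1 + 1 = β := by ring
  have e2 : (1 - 2 * β - 1) = -2 * β := by ring
  rw [e, e2] at h2
  rw [e2] at h1
  unfold U
  have hne : (2 * (β:ℂ) - 1) ≠ 0 := by
    have : (2 * β - 1 : ℝ) ≠ 0 := by linarith
    exact_mod_cast this
  rw [div_mul_eq_mul_div, eq_div_iff hne]
  push_cast at h1
  generalize J (β - 1) (1 - 2 * β) v = A at *
  generalize J (β - 1) (-2 * β) v = B at *
  generalize J β (-2 * β) v = C at *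
  linear_combination (-(β:ℂ)) * h1 - (β:ℂ) * (2 * (β:ℂ) - 1) * h2

theorem U_mul_tendsto (hβ : 1 < β) :
    Tendsto (fun v => v * U β v) Linf (𝓝 ((β:ℂ) / (2 * β - 1))) := by
  have h1 := (J_tendsto_zero (by linarith : (0:ℝ) ≤ β - 1) (by linarith : 1 - 2 * β < 0))
  have h2 := ((h1.const_mul ((β:ℂ) - 1)).const_add 1).const_mul ((β:ℂ) / (2 * β - 1))
  rw [mul_zero, add_zero, mul_one] at h2
  refine h2.congr' ?_
  filter_upwards [Linf_re] with v hv
  exact (U_mul_eq hβ (by linarith)).symm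

theorem J_ofReal (s c : ℝ) {x : ℝ} (hx : 0 < x) :
    J s c (x:ℂ) = ((∫ t in (0:ℝ)..1, t ^ s * (t + (1 - t) * x) ^ c : ℝ) : ℂ) := by
  unfold J
  rw [← intervalIntegral.integral_ofReal]
  apply intervalIntegral.integral_congr
  intro t ht
  rw [uIcc_of_le zero_le_one] at ht
  simp only
  have h1 : Wl (x:ℂ) t = ((t + (1 - t) * x : ℝ) : ℂ) := by unfold Wl; push_cast; ring
  have h2 : 0 ≤ t + (1 - t) * x := by
    have : 0 ≤ (1 - t) * x := mul_nonneg (by linarith [ht.2]) hx.le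
    linarith [ht.1]
  rw [h1, Complex.ofReal_mul, Complex.ofReal_cpow h2]

theorem J_real_pos {s c : ℝ} (hs : 0 ≤ s) {x : ℝ} (hx : 0 < x) :
    0 < ∫ t in (0:ℝ)..1, t ^ s * (t + (1 - t) * x) ^ c := by
  apply intervalIntegral.intervalIntegral_pos_of_pos_on
  · apply ContinuousOn.intervalIntegrable
    rw [uIcc_of_le zero_le_one]
    apply ContinuousOn.mul
    · exact (continuous_id.rpow_const (fun x => Or.inr hs)).continuousOn
    · apply ContinuousOn.rpow_const
      · fun_prop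
      · intro t ht
        left
        rcases eq_or_lt_of_le ht.1 with h | h
        · rw [← h]; simp; exact hx.ne'
        · have : 0 ≤ (1 - t) * x := mul_nonneg (by linarith [ht.2]) hx.le
          linarith
  · intro t ht
    have h1 : 0 < t := ht.1
    have h2 : 0 < t + (1 - t) * x := by
      have : 0 ≤ (1 - t) * x := mul_nonneg (by linarith [ht.2]) hx.le
      linarith
    exact mul_pos (Real.rpow_pos_of_pos h1 _) (Real.rpow_pos_of_pos h2 _)
  · norm_num

theorem U_half_pos (hβ : 1 < β) : 0 < (U β (1 / 2)).re := by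
  have e : (1 / 2 : ℂ) = (((1 / 2 : ℝ)) : ℂ) := by push_cast; rfl
  unfold U
  rw [e, J_ofReal _ _ (by norm_num : (0:ℝ) < 1 / 2), ← Complex.ofReal_mul, Complex.ofReal_re]
  exact mul_pos (by linarith) (J_real_pos (by linarith) (by norm_num))

end Pool.Agent.H21R3
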