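import Mathlib

set_option autoImplicit false

/-!
Taylor coefficients at the origin.
-/

namespace Pool.Agent.H21R3

open Complex Metric Set Filter Topology MeasureTheory

/-- Taylor coefficient at the origin -/
noncomputable def cf (n : ℕ) (F : ℂ → ℂ) : ℂ := iteratedDeriv n F 0 / (n.factorial : ℂ)

theorem circleMap_ne {r : ℝ} (hr : 0 < r) (θ : ℝ) : circleMap 0 r θ ≠ 0 := by
  intro h
  have : ‖circleMap 0 r θ‖ = |r| := by simp
  rw [h, norm_zero, abs_of_pos hr] at this
  exact hr.ne this

theorem cf_circle {F : ℂ → ℂ} (hF : DifferentiableOn ℂ F (ball 0 1)) (n : ℕ) {r : ℝ}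
    (hr : 0 < r) (hr1 : r < 1) :
    ∫ θ in (0:ℝ)..(2 * Real.pi), F (circleMap 0 r θ) * ((circleMap 0 r θ) ^ n)⁻¹ =
      2 * Real.pi * cf n F := by
  have h := (hF.mono (closedBall_subset_ball hr1)).circleIntegral_one_div_sub_center_pow_smul hr n
  unfold circleIntegral at h
  have e : ∀ θ : ℝ, deriv (circleMap 0 r) θ • ((1 / (circleMap 0 r θ - 0) ^ (n + 1)) •
      F (circleMap 0 r θ)) = I * (F (circleMap 0 r θ) * ((circleMap 0 r θ) ^ n)⁻¹) := by
    intro θ
    have := circleMap_ne hr θ
    rw [deriv_circleMap, sub_zero, smul_eq_mul, smul_eq_mul, pow_succ]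
    field_simp
  simp_rw [e] at h
  rw [intervalIntegral.integral_const_mul] at h
  apply mul_left_cancel₀ Complex.I_ne_zero
  rw [h]
  unfold cf
  rw [smul_eq_mul]
  ring

theorem cf_zero_eq (F : ℂ → ℂ) : cf 0 F = F 0 := by
  unfold cf; simp

theorem cf_one_eq (F : ℂ → ℂ) : cf 1 F = deriv F 0 := by
  unfold cf; simp

theorem cf_circle_pos {F : ℂ → ℂ} (hF : DifferentiableOn ℂ F (ball 0 1)) {k : ℕ} (hk : k ≠ 0)
    {r : ℝ} (hr : 0 < r) (hr1 : r < 1) :
    ∫ θ in (0:ℝ)..(2 * Real.pi), F (circleMap 0 r θ) * (circleMap 0 r θ) ^ k = 0 := by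
  have h1 : DifferentiableOn ℂ (fun z => F z * z ^ k) (ball 0 1) :=
    hF.mul (differentiableOn_id.pow k)
  have h := cf_circle h1 0 hr hr1
  rw [cf_zero_eq] at h
  simp [hk] at h
  exact h

theorem diffOn_analyticAt {F : ℂ → ℂ} (hF : DifferentiableOn ℂ F (ball 0 1)) : AnalyticAt ℂ F 0 :=
  hF.analyticAt (ball_mem_nhds 0 one_pos)

theorem cf_add {F G : ℂ → ℂ} (hF : DifferentiableOn ℂ F (ball 0 1))
    (hG : DifferentiableOn ℂ G (ball 0 1)) (n : ℕ) :
    cf n (fun z => F z + G z) = cf n F + cf n G := by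
  have hr : (0:ℝ) < 1 / 2 := by norm_num
  have hr1 : (1:ℝ) / 2 < 1 := by norm_num
  have h1 := cf_circle hF n hr hr1
  have h2 := cf_circle hG n hr hr1
  have h3 := cf_circle (hF.add hG) n hr hr1
  have hint : ∀ H : ℂ → ℂ, DifferentiableOn ℂ H (ball 0 1) →
      IntervalIntegrable (fun θ : ℝ => H (circleMap 0 (1 / 2) θ) *
        ((circleMap 0 (1 / 2) θ) ^ n)⁻¹) volume 0 (2 * Real.pi) := by
    intro H hH
    apply Continuous.intervalIntegrable
    apply Continuous.mul
    · have h4 : ContinuousOn H (ball 0 1) := hH.continuousOn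
      apply h4.comp_continuous (continuous_circleMap 0 (1 / 2))
      intro θ
      rw [mem_ball_zero_iff, norm_circleMap_zero]
      rw [abs_of_pos hr]; exact hr1
    · apply Continuous.inv₀
      · exact (continuous_circleMap 0 (1 / 2)).pow n
      · intro θ; exact pow_ne_zero n (circleMap_ne hr θ)
  have h5 : (2 * Real.pi : ℂ) ≠ 0 := by
    have : (2 * Real.pi : ℝ) ≠ 0 := by positivity
    exact_mod_cast this
  apply mul_left_cancel₀ h5
  have h6 : (2 * (Real.pi:ℂ)) * cf n (fun z => F z + G z) = 2 * Real.pi * cf n (F + G) := rfl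
  rw [h6, ← h3, mul_add, ← h1, ← h2, ← intervalIntegral.integral_add (hint F hF) (hint G hG)]
  apply intervalIntegral.integral_congr
  intro θ _
  simp only [Pi.add_apply]
  ring

theorem cf_const_mul (c : ℂ) (F : ℂ → ℂ) (n : ℕ) :
    cf n (fun z => c * F z) = c * cf n F := by
  unfold cf
  rw [iteratedDeriv_const_mul_field]
  ring

/-- two analytic functions agreeing to order `n` -/
theorem cf_eq_of_isBigO {F G : ℂ → ℂ} (hF : DifferentiableOn ℂ F (ball 0 1))
    (hG : DifferentiableOn ℂ G (ball 0 1)) (n : ℕ)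
    (h : (fun z => F z - G z) =O[𝓝 0] fun z => z ^ (n + 1)) : cf n F = cf n G := by
  have hFG : DifferentiableOn ℂ (fun z => F z - G z) (ball 0 1) := hF.sub hG
  have key : cf n (fun z => F z - G z) = 0 := by
    obtain ⟨C, hC⟩ := h.bound
    obtain ⟨ε, hε, hball⟩ := Metric.eventually_nhds_iff.mp hC
    have hest : ∀ r : ℝ, 0 < r → r < min ε 1 →
        ‖iteratedDeriv n (fun z => F z - G z) 0‖ ≤ n.factorial * (C * r ^ (n + 1)) / r ^ n := by
      intro r hr0 hr
      have hr1 : r < 1 := hr.trans_le (min_le_right _ _)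
      have hrε : r < ε := hr.trans_le (min_le_left _ _)
      apply Complex.norm_iteratedDeriv_le_of_forall_mem_sphere_norm_le n hr0
      · exact (hFG.mono ((closedBall_subset_ball hr1))).diffContOnCl_ball subset_rfl
      · intro z hz
        rw [mem_sphere_zero_iff_norm] at hz
        have := hball (y := z) (by rw [dist_zero_right, hz]; exact hrε)
        rw [norm_pow, hz] at this
        exact this
    have hzero : ‖iteratedDeriv n (fun z => F z - G z) 0‖ ≤ 0 := by
      have hlim : Tendsto (fun r : ℝ => (n.factorial : ℝ) * C * r) (𝓝[>] 0) (𝓝 0) := by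
        have : Continuous (fun r : ℝ => (n.factorial : ℝ) * C * r) := by fun_prop
        have h1 := (this.tendsto 0).mono_left (nhdsWithin_le_nhds (s := Ioi 0))
        simpa using h1
      refine ge_of_tendsto hlim ?_
      have hmin : 0 < min ε 1 := lt_min hε one_pos
      filter_upwards [Ioo_mem_nhdsGT hmin] with r hr
      have h1 := hest r hr.1 hr.2
      have hrne : r ≠ 0 := hr.1.ne'
      have e : n.factorial * (C * r ^ (n + 1)) / r ^ n = (n.factorial : ℝ) * C * r := by
        rw [pow_succ]; field_simp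
      rwa [e] at h1
    have h0 : iteratedDeriv n (fun z => F z - G z) 0 = 0 := norm_le_zero_iff.mp hzero
    unfold cf
    rw [h0, zero_div]
  have h2 := cf_add hG hFG n
  have h3 : (fun z => G z + (F z - G z)) = F := by funext z; ring
  rw [h3, key, add_zero] at h2
  exact h2

/-- equality of coefficients implies agreement to order `n` -/
theorem isBigO_of_cf_eq {F G : ℂ → ℂ} (hF : DifferentiableOn ℂ F (ball 0 1))
    (hG : DifferentiableOn ℂ G (ball 0 1)) (n : ℕ) (h : ∀ k ≤ n, cf k F = cf k G) :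
    (fun z => F z - G z) =O[𝓝 0] fun z => z ^ (n + 1) := by
  have hFG : DifferentiableOn ℂ (fun z => F z - G z) (ball 0 1) := hF.sub hG
  have han : AnalyticAt ℂ (fun z => F z - G z) 0 := diffOn_analyticAt hFG
  have hzero : ∀ i < n + 1, iteratedDeriv i (fun z => F z - G z) 0 = 0 := by
    intro i hi
    have h1 := cf_add hF (hG.const_mul (-1)) i
    have h2 := cf_const_mul (-1) G i
    rw [h2, h i (by omega)] at h1
    have h3 : (fun z => F z + -1 * G z) = fun z => F z - G z := by funext z; ring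
    rw [h3] at h1
    have h4 : cf i (fun z => F z - G z) = 0 := by rw [h1]; ring
    unfold cf at h4
    rcases div_eq_zero_iff.mp h4 with h5 | h5
    · exact h5
    · exact absurd h5 (by exact_mod_cast Nat.factorial_ne_zero i)
  have hord := (natCast_le_analyticOrderAt_iff_iteratedDeriv_eq_zero (n := n + 1) han).mpr hzero
  obtain ⟨g, hg, hge⟩ := (natCast_le_analyticOrderAt han).mp hord
  have h6 : (fun z => F z - G z) =ᶠ[𝓝 0] fun z => z ^ (n + 1) * g z := by
    filter_upwards [hge] with z hz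
    rw [hz]; simp
  refine h6.trans_isBigO ?_
  have h7 : g =O[𝓝 0] fun _ => (1:ℂ) := hg.continuousAt.tendsto.isBigO_one ℂ
  have h8 := (Asymptotics.isBigO_refl (fun z : ℂ => z ^ (n + 1)) (𝓝 0)).mul h7
  simpa using h8

end Pool.Agent.H21R3
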