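import Mathlib
import Pool.Agent.H21R3.Cf

set_option autoImplicit false

/-!
The coefficient body of analytic functions with real part larger than `1/2`.
-/

namespace Pool.Agent.H21R3

open Complex Metric Set Filter Topology MeasureTheory

/-- the moment curve -/
noncomputable def crv (n : ℕ) (x : ℂ) : Fin n → ℂ := fun k => x ^ (k.val + 1)

/-- parameters: weights and points of the unit circle -/
def Par (N : ℕ) : Set ((Fin N → ℝ) × (Fin N → ℂ)) :=
  stdSimplex ℝ (Fin N) ×ˢ (Set.pi univ fun _ => sphere (0:ℂ) 1)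

theorem Par_compact (N : ℕ) : IsCompact (Par N) :=
  (isCompact_stdSimplex ℝ (Fin N)).prod (isCompact_univ_pi fun _ => isCompact_sphere _ _)

noncomputable def mom (n N : ℕ) (q : (Fin N → ℝ) × (Fin N → ℂ)) : Fin n → ℂ :=
  fun k => ∑ j, (q.1 j : ℂ) * (q.2 j) ^ (k.val + 1)

theorem mom_cont (n N : ℕ) : Continuous (mom n N) := by
  unfold mom
  fun_prop

theorem hull_subset (n : ℕ) :
    convexHull ℝ (crv n '' sphere (0:ℂ) 1) ⊆ mom n (2 * n + 1) '' Par (2 * n + 1) := by
  intro y hy
  obtain ⟨ι, hι, z, w, hz, haff, hw, hsum, hyw⟩ := eq_pos_convex_span_of_mem_convexHull hy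
  have hcard : Fintype.card ι ≤ 2 * n + 1 := by
    have h1 := haff.card_le_finrank_succ
    have h2 : Module.finrank ℝ (vectorSpan ℝ (Set.range z)) ≤ Module.finrank ℝ (Fin n → ℂ) :=
      Submodule.finrank_le _
    have h3 : Module.finrank ℝ (Fin n → ℂ) = 2 * n := by
      rw [Module.finrank_pi_fintype]
      simp [Complex.finrank_real_complex]
      ring
    omega
  have hcard' : Fintype.card ι ≤ Fintype.card (Fin (2 * n + 1)) := by simpa using hcard
  obtain ⟨emb⟩ := Function.Embedding.nonempty_of_card_le hcard'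
  have hx : ∀ i, ∃ x ∈ sphere (0:ℂ) 1, crv n x = z i := fun i => hz ⟨i, rfl⟩
  choose x hx1 hx2 using hx
  classical
  set X : Fin (2 * n + 1) → ℂ := Function.extend emb x (fun _ => 1) with hX
  set L : Fin (2 * n + 1) → ℝ := fun j => ∑ i, if emb i = j then w i else 0 with hL
  refine ⟨(L, X), ⟨⟨?_, ?_⟩, ?_⟩, ?_⟩
  · intro j
    apply Finset.sum_nonneg
    intro i _
    split_ifs
    · exact (hw i).le
    · exact le_rfl
  · rw [hL]
    simp only
    rw [Finset.sum_comm]
    simp [hsum]
  · intro j _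
    show X j ∈ sphere (0:ℂ) 1
    by_cases hj : ∃ i, emb i = j
    · obtain ⟨i, rfl⟩ := hj
      rw [hX, emb.injective.extend_apply]
      exact hx1 i
    · rw [hX, Function.extend_apply' _ _ _ hj]
      simp
  · funext k
    show ∑ j, (L j : ℂ) * (X j) ^ (k.val + 1) = y k
    have h1 : ∀ j, (L j : ℂ) * (X j) ^ (k.val + 1) =
        ∑ i, if emb i = j then (w i : ℂ) * (X j) ^ (k.val + 1) else 0 := by
      intro j
      rw [hL]
      push_cast
      rw [Finset.sum_mul]
      apply Finset.sum_congr rfl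
      intro i _
      split_ifs <;> simp
    simp_rw [h1]
    rw [Finset.sum_comm]
    have h2 : ∀ i, (∑ j, if emb i = j then (w i : ℂ) * (X j) ^ (k.val + 1) else 0) =
        (w i : ℂ) * z i k := by
      intro i
      rw [Finset.sum_ite_eq]
      simp only [Finset.mem_univ, if_true]
      rw [hX, emb.injective.extend_apply, ← hx2 i]
      rfl
    simp_rw [h2]
    rw [← hyw, Finset.sum_apply]
    apply Finset.sum_congr rfl
    intro i _
    simp [Pi.smul_apply, Complex.real_smul]

theorem mom_subset (n N : ℕ) :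
    mom n N '' Par N ⊆ convexHull ℝ (crv n '' sphere (0:ℂ) 1) := by
  rintro _ ⟨⟨L, X⟩, ⟨hL, hX⟩, rfl⟩
  have h1 : mom n N (L, X) = ∑ j, L j • crv n (X j) := by
    funext k
    unfold mom crv
    rw [Finset.sum_apply]
    apply Finset.sum_congr rfl
    intro i _
    simp [Pi.smul_apply, Complex.real_smul]
  rw [h1]
  apply (convex_convexHull ℝ _).sum_mem
  · intro j _; exact hL.1 j
  · exact hL.2
  · intro j _
    apply subset_convexHull
    exact ⟨X j, hX j (mem_univ j), rfl⟩

theorem hull_eq (n : ℕ) :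
    mom n (2 * n + 1) '' Par (2 * n + 1) = convexHull ℝ (crv n '' sphere (0:ℂ) 1) :=
  Subset.antisymm (mom_subset n _) (hull_subset n)

theorem hull_convex (n : ℕ) : Convex ℝ (mom n (2 * n + 1) '' Par (2 * n + 1)) := by
  rw [hull_eq]; exact convex_convexHull ℝ _

theorem hull_closed (n : ℕ) : IsClosed (mom n (2 * n + 1) '' Par (2 * n + 1)) :=
  ((Par_compact _).image (mom_cont _ _)).isClosed

theorem crv_mem (n : ℕ) {x : ℂ} (hx : ‖x‖ = 1) : crv n x ∈ mom n (2 * n + 1) '' Par (2 * n + 1) := by
  rw [hull_eq]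
  apply subset_convexHull
  exact ⟨x, by simpa using hx, rfl⟩

theorem crv_cont (n : ℕ) : Continuous (crv n) := by
  unfold crv; fun_prop

/-- weighted averages stay in closed convex sets -/
theorem average_mem {E : Type*} [NormedAddCommGroup E] [NormedSpace ℝ E] [CompleteSpace E]
    {M : Set E} (hM : Convex ℝ M) (hMc : IsClosed M) {d : ℝ → ℝ} (hd : Continuous d)
    (hd0 : ∀ θ, 0 ≤ d θ) (hd1 : ∫ θ in (0:ℝ)..(2 * Real.pi), d θ = 2 * Real.pi) {c : ℝ → E}
    (hc : Continuous c) (hcM : ∀ θ, c θ ∈ M) :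
    (1 / (2 * Real.pi)) • (∫ θ in (0:ℝ)..(2 * Real.pi), d θ • c θ) ∈ M := by
  by_contra hnot
  obtain ⟨f, u, hfu, huf⟩ := geometric_hahn_banach_closed_point hM hMc hnot
  have hpi := Real.pi_pos
  have hint : IntervalIntegrable (fun θ => d θ • c θ) volume 0 (2 * Real.pi) :=
    (hd.smul hc).intervalIntegrable _ _
  rw [map_smul, ← f.intervalIntegral_comp_comm hint] at huf
  have h1 : ∫ θ in (0:ℝ)..(2 * Real.pi), f (d θ • c θ) ≤ ∫ θ in (0:ℝ)..(2 * Real.pi), d θ * u := by
    apply intervalIntegral.integral_mono_on (by positivity)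
    · exact (f.continuous.comp (hd.smul hc)).intervalIntegrable _ _
    · exact (hd.mul continuous_const).intervalIntegrable _ _
    · intro θ _
      rw [map_smul, smul_eq_mul]
      exact mul_le_mul_of_nonneg_left (hfu _ (hcM θ)).le (hd0 θ)
  rw [intervalIntegral.integral_mul_const, hd1] at h1
  rw [smul_eq_mul] at huf
  have h2 : 1 / (2 * Real.pi) * (∫ θ in (0:ℝ)..(2 * Real.pi), f (d θ • c θ)) ≤
      1 / (2 * Real.pi) * (2 * Real.pi * u) :=
    mul_le_mul_of_nonneg_left h1 (by positivity)
  have h3 : 1 / (2 * Real.pi) * (2 * Real.pi * u) = u := by field_simp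
  linarith

/-- **Coefficient body.** -/
theorem cf_mem (n : ℕ) {V : ℂ → ℂ} (hV : DifferentiableOn ℂ V (ball 0 1))
    (hre : ∀ z ∈ ball (0:ℂ) 1, 1 / 2 < (V z).re) (h0 : V 0 = 1) :
    ∃ q ∈ Par (2 * n + 1), ∀ k < n, cf (k + 1) V = ∑ j, (q.1 j : ℂ) * (q.2 j) ^ (k + 1) := by
  suffices h : (fun k : Fin n => cf (k.val + 1) V) ∈ mom n (2 * n + 1) '' Par (2 * n + 1) by
    obtain ⟨q, hq, hqe⟩ := h
    refine ⟨q, hq, fun k hk => ?_⟩
    have := congrFun hqe ⟨k, hk⟩
    exact this.symm
  have hr : ∀ r : ℝ, r ∈ Ioo (0:ℝ) 1 →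
      (fun k : Fin n => (r:ℂ) ^ (k.val + 1) * cf (k.val + 1) V) ∈
        mom n (2 * n + 1) '' Par (2 * n + 1) := by
    rintro r ⟨hr0, hr1⟩
    have hcm : ∀ θ, circleMap 0 r θ ∈ ball (0:ℂ) 1 := by
      intro θ
      rw [mem_ball_zero_iff, norm_circleMap_zero, abs_of_pos hr0]
      exact hr1
    have hVc : Continuous (fun θ => V (circleMap 0 r θ)) :=
      hV.continuousOn.comp_continuous (continuous_circleMap 0 r) hcm
    have hinv : Continuous (fun θ => (circleMap 0 r θ)⁻¹) :=
      (continuous_circleMap 0 r).inv₀ (fun θ => circleMap_ne hr0 θ)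
    set d : ℝ → ℝ := fun θ => 2 * (V (circleMap 0 r θ)).re - 1 with hd
    set c : ℝ → (Fin n → ℂ) := fun θ => crv n (r * (circleMap 0 r θ)⁻¹) with hc
    have hdc : Continuous d := by
      rw [hd]; exact (continuous_const.mul (Complex.continuous_re.comp hVc)).sub continuous_const
    have hcc : Continuous c := (crv_cont n).comp (continuous_const.mul hinv)
    have hd0 : ∀ θ, 0 ≤ d θ := by
      intro θ
      have := hre _ (hcm θ)
      rw [hd]; simp only; linarith
    have hintV : ∫ θ in (0:ℝ)..(2 * Real.pi), V (circleMap 0 r θ) = 2 * Real.pi := by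
      have := cf_circle hV 0 hr0 hr1
      rw [cf_zero_eq, h0] at this
      simpa using this
    have hd1 : ∫ θ in (0:ℝ)..(2 * Real.pi), d θ = 2 * Real.pi := by
      have h1 : ∫ θ in (0:ℝ)..(2 * Real.pi), (V (circleMap 0 r θ)).re = 2 * Real.pi := by
        have h2 := Complex.reCLM.intervalIntegral_comp_comm
          (hVc.intervalIntegrable 0 (2 * Real.pi) (μ := volume))
        rw [hintV] at h2
        simpa using h2
      rw [hd]
      rw [intervalIntegral.integral_sub, intervalIntegral.integral_const_mul, h1]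
      · simp; ring
      · exact (continuous_const.mul (Complex.continuous_re.comp hVc)).intervalIntegrable _ _
      · exact continuous_const.intervalIntegrable _ _
    have hcM : ∀ θ, c θ ∈ mom n (2 * n + 1) '' Par (2 * n + 1) := by
      intro θ
      apply crv_mem
      rw [norm_mul, norm_inv, norm_circleMap_zero, Complex.norm_real, Real.norm_eq_abs]
      have : |r| ≠ 0 := abs_ne_zero.mpr hr0.ne'
      field_simp
    have key := average_mem (hull_convex n) (hull_closed n) hdc hd0 hd1 hcc hcM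
    have hfin : (1 / (2 * Real.pi)) • (∫ θ in (0:ℝ)..(2 * Real.pi), d θ • c θ) =
        fun k : Fin n => (r:ℂ) ^ (k.val + 1) * cf (k.val + 1) V := by
      funext k
      have hint : IntervalIntegrable (fun θ => d θ • c θ) volume 0 (2 * Real.pi) :=
        (hdc.smul hcc).intervalIntegrable _ _
      have h1 := (ContinuousLinearMap.proj (R := ℝ) (φ := fun _ : Fin n => ℂ)
        k).intervalIntegral_comp_comm hint
      have h2 : (∫ θ in (0:ℝ)..(2 * Real.pi), d θ • c θ) k =
          ∫ θ in (0:ℝ)..(2 * Real.pi), (d θ • c θ) k := h1.symm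
      rw [Pi.smul_apply, h2]
      have h3 : ∀ θ, (d θ • c θ) k = (r:ℂ) ^ (k.val + 1) *
          (V (circleMap 0 r θ) * ((circleMap 0 r θ) ^ (k.val + 1))⁻¹ +
          ((r:ℂ) ^ (2 * (k.val + 1)))⁻¹ * (starRingEnd ℂ)
            ((V (circleMap 0 r θ) - 1) * (circleMap 0 r θ) ^ (k.val + 1))) := by
        intro θ
        have hne := circleMap_ne hr0 θ
        have hrc : (r:ℂ) ≠ 0 := by exact_mod_cast hr0.ne'
        have h4 : (circleMap 0 r θ) * (starRingEnd ℂ) (circleMap 0 r θ) = (r:ℂ) ^ 2 := by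
          rw [Complex.mul_conj, Complex.normSq_eq_norm_sq, norm_circleMap_zero, sq_abs]
          push_cast; rfl
        have h5 : ((circleMap 0 r θ) ^ (k.val + 1))⁻¹ =
            ((r:ℂ) ^ (2 * (k.val + 1)))⁻¹ * ((starRingEnd ℂ) (circleMap 0 r θ)) ^ (k.val + 1) := by
          rw [pow_mul, ← h4, mul_pow]
          have h6 : (starRingEnd ℂ) (circleMap 0 r θ) ≠ 0 := (map_ne_zero _).mpr hne
          field_simp
        have h6 : (d θ : ℂ) = V (circleMap 0 r θ) + (starRingEnd ℂ) (V (circleMap 0 r θ) - 1) := by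
          rw [hd]
          apply Complex.ext
          · simp; ring
          · simp
        have h7 : (d θ • c θ) k = (d θ : ℂ) * ((r:ℂ) * (circleMap 0 r θ)⁻¹) ^ (k.val + 1) := by
          rw [Pi.smul_apply, hc]
          simp [crv, Complex.real_smul]
        rw [h7, h6, mul_pow, inv_pow, map_mul, map_pow, add_mul, mul_add]
        congr 1
        · ring
        · rw [h5]; ring
      simp_rw [h3]
      rw [intervalIntegral.integral_const_mul, intervalIntegral.integral_add,
        intervalIntegral.integral_const_mul, cf_circle hV (k.val + 1) hr0 hr1]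
      · have h8 : ∫ θ in (0:ℝ)..(2 * Real.pi), (starRingEnd ℂ)
            ((V (circleMap 0 r θ) - 1) * (circleMap 0 r θ) ^ (k.val + 1)) = 0 := by
          have h9 := cf_circle_pos (hV.sub_const 1) (Nat.succ_ne_zero k.val) hr0 hr1
          have hcont : Continuous (fun θ => (V (circleMap 0 r θ) - 1) *
              (circleMap 0 r θ) ^ (k.val + 1)) :=
            (hVc.sub continuous_const).mul ((continuous_circleMap 0 r).pow _)
          have h10 := (Complex.conjCLE : ℂ →L[ℝ] ℂ).intervalIntegral_comp_comm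
            (hcont.intervalIntegrable 0 (2 * Real.pi) (μ := volume))
          have h11 : ∫ θ in (0:ℝ)..(2 * Real.pi), (starRingEnd ℂ)
            ((V (circleMap 0 r θ) - 1) * (circleMap 0 r θ) ^ (k.val + 1)) =
            (starRingEnd ℂ) (∫ θ in (0:ℝ)..(2 * Real.pi),
              ((V (circleMap 0 r θ) - 1) * (circleMap 0 r θ) ^ (k.val + 1))) := h10
          rw [h11]
          have h12 : ∫ θ in (0:ℝ)..(2 * Real.pi),
              ((V (circleMap 0 r θ) - 1) * (circleMap 0 r θ) ^ (k.val + 1)) = 0 := h9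
          rw [h12, map_zero]
        rw [h8, mul_zero, add_zero, Complex.real_smul]
        have : (Real.pi : ℂ) ≠ 0 := by exact_mod_cast Real.pi_pos.ne'
        push_cast
        field_simp
      · apply Continuous.intervalIntegrable
        exact hVc.mul (((continuous_circleMap 0 r).pow _).inv₀
          (fun θ => pow_ne_zero _ (circleMap_ne hr0 θ)))
      · apply Continuous.intervalIntegrable
        apply continuous_const.mul
        exact Complex.continuous_conj.comp
          ((hVc.sub continuous_const).mul ((continuous_circleMap 0 r).pow _))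
    rw [hfin] at key
    exact key
  have hlim : Tendsto (fun r : ℝ => (fun k : Fin n => (r:ℂ) ^ (k.val + 1) * cf (k.val + 1) V))
      (𝓝[<] 1) (𝓝 (fun k : Fin n => cf (k.val + 1) V)) := by
    have h1 : Continuous (fun r : ℝ => (fun k : Fin n => (r:ℂ) ^ (k.val + 1) * cf (k.val + 1) V)) := by
      fun_prop
    have h2 := (h1.tendsto 1).mono_left (nhdsWithin_le_nhds (s := Iio 1))
    simpa using h2
  refine (hull_closed n).mem_of_tendsto hlim ?_
  have h4 : ∀ᶠ s in 𝓝[<] (1:ℝ), s ∈ Ioo (0:ℝ) 1 := Ioo_mem_nhdsLT zero_lt_one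
  filter_upwards [h4] with r hr'
  exact hr r hr'

end Pool.Agent.H21R3
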