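import Mathlib

set_option autoImplicit false

/-!
Boundary contact lemmas of Jack type, for functions analytic in the unit disc.
-/

namespace Pool.Agent.H21R3

open Complex Metric Set Filter Topology

theorem deriv_nonneg_of_left {φ : ℝ → ℝ} {d x a : ℝ} (hax : a < x) (h : HasDerivAt φ d x)
    (hle : ∀ s ∈ Ioo a x, φ s ≤ φ x) : 0 ≤ d := by
  by_contra hneg
  push Not at hneg
  have h1 := (hasDerivAt_iff_tendsto_slope.mp h).eventually_lt_const hneg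
  have h2 : ∀ᶠ s in 𝓝[<] x, slope φ x s < 0 :=
    h1.filter_mono (nhdsWithin_mono _ (fun s hs => ne_of_lt hs))
  have h3 : ∀ᶠ s in 𝓝[<] x, s ∈ Ioo a x := Ioo_mem_nhdsLT hax
  obtain ⟨s, hs1, hs2⟩ := (h2.and h3).exists
  rw [slope_def_field] at hs1
  have h4 : φ s - φ x ≤ 0 := sub_nonpos.mpr (hle s hs2)
  have h5 : s - x < 0 := sub_neg.mpr hs2.2
  have : 0 ≤ (φ s - φ x) / (s - x) := div_nonneg_of_nonpos h4 h5.le
  linarith

/-- tangential derivative at a maximum of the modulus over a circle -/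
theorem tangential_zero {ω : ℂ → ℂ} {z₀ w' : ℂ}
    (hle : ∀ z, ‖z‖ = ‖z₀‖ → ‖ω z‖ ≤ ‖ω z₀‖) (hder : HasDerivAt ω w' z₀) :
    (z₀ * w' * (starRingEnd ℂ) (ω z₀)).im = 0 := by
  have hcurve : HasDerivAt (fun θ : ℝ => z₀ * Complex.exp ((θ : ℂ) * I)) (z₀ * I) 0 := by
    have h1 : HasDerivAt (fun θ : ℂ => z₀ * Complex.exp (θ * I))
        (z₀ * (Complex.exp ((0:ℝ) * I) * (1 * I))) ((0:ℝ):ℂ) := by
      exact (((hasDerivAt_id _).mul_const I).cexp).const_mul z₀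
    have h2 := h1.comp_ofReal
    simpa using h2
  have hz : z₀ * Complex.exp (((0:ℝ) : ℂ) * I) = z₀ := by simp
  have hcomp : HasDerivAt (fun θ : ℝ => ω (z₀ * Complex.exp ((θ : ℂ) * I))) (w' * (z₀ * I)) 0 := by
    have h3 : HasDerivAt ω w' (z₀ * Complex.exp (((0:ℝ) : ℂ) * I)) := by rw [hz]; exact hder
    exact h3.comp (0:ℝ) hcurve
  have hn := hcomp.norm_sq
  have hmax : IsLocalMax (fun θ : ℝ => ‖ω (z₀ * Complex.exp ((θ : ℂ) * I))‖ ^ 2) 0 := by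
    refine Eventually.of_forall (fun θ => ?_)
    simp only
    rw [hz]
    have : ‖z₀ * Complex.exp ((θ : ℂ) * I)‖ = ‖z₀‖ := by
      rw [norm_mul, Complex.norm_exp_ofReal_mul_I, mul_one]
    exact pow_le_pow_left₀ (norm_nonneg _) (hle _ this) 2
  have h0 := hmax.hasDerivAt_eq_zero hn
  rw [hz, Complex.inner] at h0
  have h4 : (w' * (z₀ * I) * (starRingEnd ℂ) (ω z₀)).re
      = -(z₀ * w' * (starRingEnd ℂ) (ω z₀)).im := by
    have : w' * (z₀ * I) * (starRingEnd ℂ) (ω z₀) = (z₀ * w' * (starRingEnd ℂ) (ω z₀)) * I := by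
      ring
    rw [this, Complex.mul_I_re]
  rw [h4] at h0
  linarith

theorem radial_hasDeriv {ω : ℂ → ℂ} {z₀ w' : ℂ} (hder : HasDerivAt ω w' z₀) :
    HasDerivAt (fun s : ℝ => ‖ω ((s : ℂ) * z₀)‖ ^ 2)
      (2 * (z₀ * w' * (starRingEnd ℂ) (ω z₀)).re) 1 := by
  have hcurve : HasDerivAt (fun s : ℝ => (s : ℂ) * z₀) z₀ 1 := by
    have h1 : HasDerivAt (fun s : ℂ => s * z₀) (1 * z₀) ((1:ℝ):ℂ) :=
      (hasDerivAt_id _).mul_const z₀
    have h2 := h1.comp_ofReal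
    simpa using h2
  have hz : (((1:ℝ) : ℂ) * z₀) = z₀ := by simp
  have hcomp : HasDerivAt (fun s : ℝ => ω ((s : ℂ) * z₀)) (w' * z₀) 1 := by
    have h3 : HasDerivAt ω w' (((1:ℝ) : ℂ) * z₀) := by rw [hz]; exact hder
    exact h3.comp (1:ℝ) hcurve
  have hn := hcomp.norm_sq
  rw [hz, Complex.inner] at hn
  rw [mul_comm z₀ w']
  exact hn

theorem mul_conj_real_conclude {A w : ℂ} (hw : w ≠ 0) (him : (A * (starRingEnd ℂ) w).im = 0) :
    A = (((A * (starRingEnd ℂ) w).re / ‖w‖ ^ 2 : ℝ) : ℂ) * w := by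
  have hn : (‖w‖:ℂ) ≠ 0 := by exact_mod_cast (norm_pos_iff.mpr hw).ne'
  have hc : (starRingEnd ℂ) w ≠ 0 := (map_ne_zero _).mpr hw
  apply mul_right_cancel₀ hc
  have h1 : w * (starRingEnd ℂ) w = ((‖w‖:ℂ)) ^ 2 := by
    rw [Complex.mul_conj, Complex.normSq_eq_norm_sq]; push_cast; rfl
  rw [mul_assoc, h1]
  push_cast
  rw [div_mul_cancel₀ _ (pow_ne_zero 2 hn)]
  apply Complex.ext
  · simp
  · simpa using him

/-- **Jack's lemma.** -/
theorem jack {ω : ℂ → ℂ} {z₀ w' : ℂ} (hz₀ : z₀ ≠ 0)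
    (hd : DifferentiableOn ℂ ω (ball 0 ‖z₀‖)) (h0 : ω 0 = 0)
    (hle : ∀ z, ‖z‖ ≤ ‖z₀‖ → ‖ω z‖ ≤ ‖ω z₀‖) (hder : HasDerivAt ω w' z₀) (hne : ω z₀ ≠ 0) :
    ∃ k : ℝ, 1 ≤ k ∧ z₀ * w' = (k : ℂ) * ω z₀ := by
  have him := tangential_zero (fun z hz => hle z hz.le) hder
  have hr := radial_hasDeriv hder
  have hzpos : 0 < ‖z₀‖ := norm_pos_iff.mpr hz₀
  have hschwarz : ∀ s ∈ Ioo (0:ℝ) 1, ‖ω ((s:ℂ) * z₀)‖ ≤ s * ‖ω z₀‖ := by
    intro s hs
    have hmaps : MapsTo ω (ball 0 ‖z₀‖) (closedBall (ω 0) ‖ω z₀‖) := by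
      intro z hz
      rw [h0, mem_closedBall_zero_iff]
      exact hle z (mem_ball_zero_iff.mp hz).le
    have hsz : ‖(s:ℂ) * z₀‖ = s * ‖z₀‖ := by
      rw [norm_mul, Complex.norm_real, Real.norm_of_nonneg hs.1.le]
    have hmem : (s:ℂ) * z₀ ∈ ball (0:ℂ) ‖z₀‖ := by
      rw [mem_ball_zero_iff, hsz]
      nlinarith [hs.2]
    have := Complex.dist_le_div_mul_dist_of_mapsTo_ball hd hmaps hmem
    rw [h0, dist_zero_right, dist_zero_right, hsz] at this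
    refine this.trans (le_of_eq ?_)
    field_simp
  have h2 : HasDerivAt (fun s : ℝ => ‖ω ((s : ℂ) * z₀)‖ ^ 2 - s ^ 2 * ‖ω z₀‖ ^ 2)
      (2 * (z₀ * w' * (starRingEnd ℂ) (ω z₀)).re - (2 * 1 ^ 1) * ‖ω z₀‖ ^ 2) 1 := by
    refine hr.sub ?_
    have := (hasDerivAt_pow 2 (1:ℝ)).mul_const (‖ω z₀‖ ^ 2)
    simpa using this
  have h3 := deriv_nonneg_of_left (zero_lt_one) h2 (by
    intro s hs
    have := hschwarz s hs
    have h4 : ‖ω ((s:ℂ) * z₀)‖ ^ 2 ≤ (s * ‖ω z₀‖) ^ 2 := pow_le_pow_left₀ (norm_nonneg _) this 2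
    simp only [Complex.ofReal_one, one_mul]
    nlinarith)
  refine ⟨(z₀ * w' * (starRingEnd ℂ) (ω z₀)).re / ‖ω z₀‖ ^ 2, ?_, mul_conj_real_conclude hne him⟩
  have hpos : 0 < ‖ω z₀‖ ^ 2 := by have := norm_pos_iff.mpr hne; positivity
  rw [le_div_iff₀ hpos]
  linarith

/-- Radial version without normalisation at the origin. -/
theorem jack_nonneg {ω : ℂ → ℂ} {z₀ w' : ℂ}
    (hle : ∀ z, ‖z‖ ≤ ‖z₀‖ → ‖ω z‖ ≤ ‖ω z₀‖) (hder : HasDerivAt ω w' z₀) (hne : ω z₀ ≠ 0) :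
    ∃ k : ℝ, 0 ≤ k ∧ z₀ * w' = (k : ℂ) * ω z₀ := by
  have him := tangential_zero (fun z hz => hle z hz.le) hder
  have hr := radial_hasDeriv hder
  have h3 := deriv_nonneg_of_left (zero_lt_one) hr (by
    intro s hs
    have hsz : ‖(s:ℂ) * z₀‖ ≤ ‖z₀‖ := by
      rw [norm_mul, Complex.norm_real, Real.norm_of_nonneg hs.1.le]
      have := norm_nonneg z₀
      nlinarith [hs.2]
    have := hle _ hsz
    simp only [Complex.ofReal_one, one_mul]
    exact pow_le_pow_left₀ (norm_nonneg _) this 2)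
  refine ⟨(z₀ * w' * (starRingEnd ℂ) (ω z₀)).re / ‖ω z₀‖ ^ 2, ?_, mul_conj_real_conclude hne him⟩
  have hpos : 0 < ‖ω z₀‖ ^ 2 := by have := norm_pos_iff.mpr hne; positivity
  apply div_nonneg _ hpos.le
  linarith

/-- first point where a closed condition holds -/
theorem first_point {E : Set ℂ} (hE : ∀ r < (1:ℝ), IsClosed (E ∩ closedBall 0 r))
    {z₁ : ℂ} (h1 : z₁ ∈ E) (hz1 : ‖z₁‖ < 1) :
    ∃ z₀ ∈ E, ‖z₀‖ ≤ ‖z₁‖ ∧ ∀ z, ‖z‖ < ‖z₀‖ → z ∉ E := by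
  have hcomp : IsCompact (E ∩ closedBall 0 ‖z₁‖) :=
    (isCompact_closedBall (0:ℂ) ‖z₁‖).of_isClosed_subset (hE _ hz1) inter_subset_right
  obtain ⟨z₀, hz₀, hmin⟩ := hcomp.exists_isMinOn ⟨z₁, h1, by simp⟩ continuous_norm.continuousOn
  refine ⟨z₀, hz₀.1, by simpa using hz₀.2, ?_⟩
  intro z hz hzE
  have hz2 : ‖z₀‖ ≤ ‖z₁‖ := by simpa using hz₀.2
  have := hmin (show z ∈ E ∩ closedBall 0 ‖z₁‖ from ⟨hzE, by simp; linarith⟩)
  simp only [mem_setOf_eq] at this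
  linarith

theorem smul_tendsto (z₀ : ℂ) : Tendsto (fun s : ℝ => (s:ℂ) * z₀) (𝓝[<] 1) (𝓝 z₀) := by
  have h : Continuous (fun s : ℝ => (s:ℂ) * z₀) := by fun_prop
  have h2 := (h.tendsto 1).mono_left (nhdsWithin_le_nhds (s := Iio 1))
  simpa using h2

theorem smul_norm_lt {z₀ : ℂ} (hz₀ : z₀ ≠ 0) :
    ∀ᶠ s : ℝ in 𝓝[<] 1, ‖(s:ℂ) * z₀‖ < ‖z₀‖ := by
  have h3 : ∀ᶠ s in 𝓝[<] (1:ℝ), s ∈ Ioo (0:ℝ) 1 := Ioo_mem_nhdsLT zero_lt_one
  filter_upwards [h3] with s hs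
  rw [norm_mul, Complex.norm_real, Real.norm_of_nonneg hs.1.le]
  have := norm_pos_iff.mpr hz₀
  nlinarith [hs.2]

/-- **Contact lemma**, half-plane version. -/
theorem contact_re {F : ℂ → ℂ} (hF : DifferentiableOn ℂ F (ball 0 1)) {c : ℝ} (hc : 0 < c)
    (h0 : F 0 = (c : ℂ))
    (hcon : ∀ (z₀ : ℂ) (κ k : ℝ), z₀ ∈ ball (0:ℂ) 1 → 1 ≤ k → F z₀ = (κ : ℂ) * I →
      z₀ * deriv F z₀ = ((-k * (c ^ 2 + κ ^ 2) / (2 * c) : ℝ) : ℂ) → False) :
    ∀ z ∈ ball (0:ℂ) 1, 0 < (F z).re := by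
  by_contra hneg
  push Not at hneg
  obtain ⟨z₁, hz₁, hre⟩ := hneg
  have hz1 : ‖z₁‖ < 1 := mem_ball_zero_iff.mp hz₁
  have hclosed : ∀ r < (1:ℝ), IsClosed ({z : ℂ | (F z).re ≤ 0} ∩ closedBall 0 r) := by
    intro r hr
    have hc1 : ContinuousOn (fun z => (F z).re) (closedBall 0 r) :=
      Complex.continuous_re.comp_continuousOn
        (hF.continuousOn.mono (closedBall_subset_ball hr))
    have := hc1.preimage_isClosed_of_isClosed isClosed_closedBall (isClosed_Iic (a := (0:ℝ)))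
    rw [inter_comm]
    exact this
  obtain ⟨z₀, hz₀E, hz₀1, hfirst⟩ := first_point hclosed hre hz1
  have hz₀D : z₀ ∈ ball (0:ℂ) 1 := by rw [mem_ball_zero_iff]; linarith
  have hz₀ : z₀ ≠ 0 := by
    rintro rfl
    simp only [mem_setOf_eq, h0, Complex.ofReal_re] at hz₀E
    linarith
  have hcontF : ∀ z ∈ ball (0:ℂ) 1, ContinuousAt F z := fun z hz =>
    hF.continuousOn.continuousAt (isOpen_ball.mem_nhds hz)
  -- nonnegativity on the closed disc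
  have hnonneg : ∀ z, ‖z‖ ≤ ‖z₀‖ → 0 ≤ (F z).re := by
    intro z hz
    rcases lt_or_eq_of_le hz with hlt | heq
    · have := hfirst z hlt
      simp only [mem_setOf_eq, not_le] at this
      exact this.le
    · have hzne : z ≠ 0 := by rintro rfl; rw [norm_zero] at heq; exact hz₀ (norm_eq_zero.mp heq.symm)
      have hzD : z ∈ ball (0:ℂ) 1 := by
        rw [mem_ball_zero_iff, heq]; exact mem_ball_zero_iff.mp hz₀D
      have ht : Tendsto (fun s : ℝ => (F ((s:ℂ) * z)).re) (𝓝[<] 1) (𝓝 (F z).re) :=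
        (Complex.continuous_re.tendsto _).comp ((hcontF z hzD).tendsto.comp (smul_tendsto z))
      refine ge_of_tendsto ht ?_
      filter_upwards [smul_norm_lt hzne] with s hs
      rw [heq] at hs
      have := hfirst _ hs
      simp only [mem_setOf_eq, not_le] at this
      exact this.le
  have hre0 : (F z₀).re = 0 := le_antisymm hz₀E (hnonneg z₀ le_rfl)
  have hFz₀ : F z₀ = ((F z₀).im : ℂ) * I := by
    apply Complex.ext
    · simp [hre0]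
    · simp
  set κ : ℝ := (F z₀).im with hκ
  -- the auxiliary function
  set ω : ℂ → ℂ := fun z => ((c:ℂ) - F z) / ((c:ℂ) + F z) with hω
  have hden : ∀ z, 0 ≤ (F z).re → (c:ℂ) + F z ≠ 0 := by
    intro z hz h
    have := congrArg Complex.re h
    simp at this
    linarith
  have hnormle : ∀ z, 0 ≤ (F z).re → ‖ω z‖ ≤ 1 := by
    intro z hz
    simp only [hω]
    rw [norm_div, div_le_one (norm_pos_iff.mpr (hden z hz))]
    rw [← sq_le_sq₀ (norm_nonneg _) (norm_nonneg _), ← Complex.normSq_eq_norm_sq,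
      ← Complex.normSq_eq_norm_sq, Complex.normSq_apply, Complex.normSq_apply]
    simp
    nlinarith
  have hnorm1 : ‖ω z₀‖ = 1 := by
    simp only [hω]
    rw [norm_div, div_eq_one_iff_eq (norm_pos_iff.mpr (hden z₀ hre0.ge)).ne']
    rw [← sq_eq_sq₀ (norm_nonneg _) (norm_nonneg _), ← Complex.normSq_eq_norm_sq,
      ← Complex.normSq_eq_norm_sq, Complex.normSq_apply, Complex.normSq_apply]
    simp [hre0]
  have hFd : HasDerivAt F (deriv F z₀) z₀ :=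
    (hF.differentiableAt (isOpen_ball.mem_nhds hz₀D)).hasDerivAt
  have hωd : HasDerivAt ω ((-(deriv F z₀) * ((c:ℂ) + F z₀) - ((c:ℂ) - F z₀) * (deriv F z₀)) /
      ((c:ℂ) + F z₀) ^ 2) z₀ :=
    (hFd.const_sub (c:ℂ)).div (hFd.const_add (c:ℂ)) (hden z₀ hre0.ge)
  have hωD : DifferentiableOn ℂ ω (ball 0 ‖z₀‖) := by
    intro z hz
    have hz' : ‖z‖ < ‖z₀‖ := mem_ball_zero_iff.mp hz
    have hzD : z ∈ ball (0:ℂ) 1 := by
      rw [mem_ball_zero_iff]; have := mem_ball_zero_iff.mp hz₀D; linarith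
    have h1 := hF.differentiableAt (isOpen_ball.mem_nhds hzD)
    exact ((h1.const_sub (c:ℂ)).div (h1.const_add (c:ℂ)) (hden z (hnonneg z hz'.le))).differentiableWithinAt
  have hω0 : ω 0 = 0 := by simp [hω, h0]
  obtain ⟨k, hk, hke⟩ := jack hz₀ hωD hω0
    (fun z hz => by rw [hnorm1]; exact hnormle z (hnonneg z hz)) hωd
    (by intro h; rw [h, norm_zero] at hnorm1; exact zero_ne_one hnorm1)
  refine hcon z₀ κ k hz₀D hk hFz₀ ?_
  have hcne : (c:ℂ) ≠ 0 := by exact_mod_cast hc.ne'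
  have hden0 : (c:ℂ) + F z₀ ≠ 0 := hden z₀ hre0.ge
  have hI : F z₀ ^ 2 = -((κ:ℂ) ^ 2) := by
    rw [hFz₀, mul_pow, Complex.I_sq]; ring
  simp only [hω] at hke
  have hke2 : z₀ * (deriv F z₀) * (-2 * c) = k * ((c:ℂ) ^ 2 - F z₀ ^ 2) := by
    field_simp at hke
    have h5 : z₀ * (-(deriv F z₀) * ((c:ℂ) + F z₀) - ((c:ℂ) - F z₀) * (deriv F z₀))
      = z₀ * (deriv F z₀) * (-2 * c) := by ring
    linear_combination hke
  rw [hI] at hke2
  push_cast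
  field_simp
  linear_combination (-1 : ℂ) * hke2

/-- **Contact lemma**, disc version. -/
theorem contact_norm {F : ℂ → ℂ} (hF : DifferentiableOn ℂ F (ball 0 1)) {ρ : ℝ} (hρ : 0 < ρ)
    (h0 : ‖F 0‖ < ρ)
    (hcon : ∀ (z₀ : ℂ) (k : ℝ), z₀ ∈ ball (0:ℂ) 1 → 0 ≤ k → ‖F z₀‖ = ρ →
      z₀ * deriv F z₀ = (k : ℂ) * F z₀ → False) :
    ∀ z ∈ ball (0:ℂ) 1, ‖F z‖ < ρ := by
  by_contra hneg
  push Not at hneg
  obtain ⟨z₁, hz₁, hre⟩ := hneg
  have hz1 : ‖z₁‖ < 1 := mem_ball_zero_iff.mp hz₁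
  have hclosed : ∀ r < (1:ℝ), IsClosed ({z : ℂ | ρ ≤ ‖F z‖} ∩ closedBall 0 r) := by
    intro r hr
    have hc1 : ContinuousOn (fun z => ‖F z‖) (closedBall 0 r) :=
      (hF.continuousOn.mono (closedBall_subset_ball hr)).norm
    have := hc1.preimage_isClosed_of_isClosed isClosed_closedBall (isClosed_Ici (a := ρ))
    rw [inter_comm]
    exact this
  obtain ⟨z₀, hz₀E, hz₀1, hfirst⟩ := first_point hclosed hre hz1
  have hz₀D : z₀ ∈ ball (0:ℂ) 1 := by rw [mem_ball_zero_iff]; linarith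
  have hz₀ : z₀ ≠ 0 := by
    rintro rfl
    simp only [mem_setOf_eq] at hz₀E
    linarith
  have hcontF : ∀ z ∈ ball (0:ℂ) 1, ContinuousAt F z := fun z hz =>
    hF.continuousOn.continuousAt (isOpen_ball.mem_nhds hz)
  have hle : ∀ z, ‖z‖ ≤ ‖z₀‖ → ‖F z‖ ≤ ρ := by
    intro z hz
    rcases lt_or_eq_of_le hz with hlt | heq
    · have := hfirst z hlt
      simp only [mem_setOf_eq, not_le] at this
      exact this.le
    · have hzne : z ≠ 0 := by rintro rfl; rw [norm_zero] at heq; exact hz₀ (norm_eq_zero.mp heq.symm)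
      have hzD : z ∈ ball (0:ℂ) 1 := by
        rw [mem_ball_zero_iff, heq]; exact mem_ball_zero_iff.mp hz₀D
      have ht : Tendsto (fun s : ℝ => ‖F ((s:ℂ) * z)‖) (𝓝[<] 1) (𝓝 ‖F z‖) :=
        (continuous_norm.tendsto _).comp ((hcontF z hzD).tendsto.comp (smul_tendsto z))
      refine le_of_tendsto ht ?_
      filter_upwards [smul_norm_lt hzne] with s hs
      rw [heq] at hs
      have := hfirst _ hs
      simp only [mem_setOf_eq, not_le] at this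
      exact this.le
  have heq : ‖F z₀‖ = ρ := le_antisymm (hle z₀ le_rfl) hz₀E
  have hFd : HasDerivAt F (deriv F z₀) z₀ :=
    (hF.differentiableAt (isOpen_ball.mem_nhds hz₀D)).hasDerivAt
  obtain ⟨k, hk, hke⟩ := jack_nonneg (fun z hz => by rw [heq]; exact hle z hz) hFd
    (by intro h; rw [h, norm_zero] at heq; exact hρ.ne heq)
  exact hcon z₀ k hz₀D hk heq hke

end Pool.Agent.H21R3
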