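import Mathlib
import Pool.Agent.H21R3.Contact

set_option autoImplicit false

/-!
Lifting through an injective analytic map, and the contact lemma for subordination.
-/

namespace Pool.Agent.H21R3

open Complex Metric Set Filter Topology Function

theorem inv_hasDerivAt {U : Set ℂ} (hU : IsOpen U) {G : ℂ → ℂ} (hG : DifferentiableOn ℂ G U)
    (hinj : InjOn G U) {ζ : ℂ} (hζ : ζ ∈ U) (hG' : deriv G ζ ≠ 0) :
    HasDerivAt (invFunOn G U) (deriv G ζ)⁻¹ (G ζ) := by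
  have han : AnalyticAt ℂ G ζ := hG.analyticAt (hU.mem_nhds hζ)
  have hstrict : HasStrictDerivAt G (deriv G ζ) ζ := han.hasStrictDerivAt
  set L := hstrict.localInverse G _ ζ hG' with hL
  have hLd : HasStrictDerivAt L (deriv G ζ)⁻¹ (G ζ) := hstrict.to_localInverse hG'
  have hLr : ∀ᶠ v in nhds (G ζ), G (L v) = v := hstrict.eventually_right_inverse hG'
  have hLz : L (G ζ) = ζ := (hstrict.hasStrictFDerivAt_equiv hG').localInverse_apply_image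
  have hLU : ∀ᶠ v in nhds (G ζ), L v ∈ U := by
    have hc : Tendsto L (nhds (G ζ)) (nhds ζ) := by
      have := hLd.hasDerivAt.continuousAt
      unfold ContinuousAt at this
      rwa [hLz] at this
    exact hc (hU.mem_nhds hζ)
  refine hLd.hasDerivAt.congr_of_eventuallyEq ?_
  filter_upwards [hLr, hLU] with v hv1 hv2
  have hmem : v ∈ G '' U := ⟨L v, hv2, hv1⟩
  have h1 : G (invFunOn G U v) = v := invFunOn_eq hmem
  have h2 : invFunOn G U v ∈ U := invFunOn_mem hmem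
  exact hinj h2 hv2 (h1.trans hv1.symm)

/-- lift of an analytic map through an injective analytic map -/
theorem lift_of_range {U : Set ℂ} (hU : IsOpen U) {G : ℂ → ℂ} (hG : DifferentiableOn ℂ G U)
    (hinj : InjOn G U) (hG' : ∀ ζ ∈ U, deriv G ζ ≠ 0) {g : ℂ → ℂ}
    (hg : DifferentiableOn ℂ g (ball 0 1)) (hr : ∀ z ∈ ball (0:ℂ) 1, g z ∈ G '' U) :
    ∃ ω : ℂ → ℂ, DifferentiableOn ℂ ω (ball 0 1) ∧ (∀ z ∈ ball (0:ℂ) 1, ω z ∈ U) ∧
      ∀ z ∈ ball (0:ℂ) 1, G (ω z) = g z := by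
  refine ⟨fun z => invFunOn G U (g z), ?_, fun z hz => invFunOn_mem (hr z hz),
    fun z hz => invFunOn_eq (hr z hz)⟩
  intro z hz
  obtain ⟨ζ, hζ, hζe⟩ := hr z hz
  have h1 : HasDerivAt (invFunOn G U) (deriv G ζ)⁻¹ (g z) := by
    rw [← hζe]; exact inv_hasDerivAt hU hG hinj hζ (hG' ζ hζ)
  have h2 := (hg.differentiableAt (isOpen_ball.mem_nhds hz)).hasDerivAt
  exact (h1.comp z h2).differentiableAt.differentiableWithinAt

theorem image_isOpen {U : Set ℂ} (hU : IsOpen U) {G : ℂ → ℂ} (hG : DifferentiableOn ℂ G U)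
    (hG' : ∀ ζ ∈ U, deriv G ζ ≠ 0) : IsOpen (G '' U) := by
  rw [isOpen_iff_mem_nhds]
  rintro _ ⟨ζ, hζ, rfl⟩
  have han : AnalyticAt ℂ G ζ := hG.analyticAt (hU.mem_nhds hζ)
  have hstrict : HasStrictDerivAt G (deriv G ζ) ζ := han.hasStrictDerivAt
  have := hstrict.map_nhds_eq (hG' ζ hζ)
  rw [← this]
  exact image_mem_map (hU.mem_nhds hζ)

/-- subordination with Schwarz -/
theorem subord_of_range {G : ℂ → ℂ} (hG : DifferentiableOn ℂ G (ball 0 1))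
    (hinj : InjOn G (ball 0 1)) (hG' : ∀ ζ ∈ ball (0:ℂ) 1, deriv G ζ ≠ 0) {g : ℂ → ℂ}
    (hg : DifferentiableOn ℂ g (ball 0 1)) (h0 : g 0 = G 0)
    (hr : ∀ z ∈ ball (0:ℂ) 1, g z ∈ G '' (ball 0 1)) :
    ∀ z ∈ ball (0:ℂ) 1, ∃ ζ : ℂ, ‖ζ‖ ≤ ‖z‖ ∧ G ζ = g z := by
  obtain ⟨ω, hω, hωU, hωe⟩ := lift_of_range isOpen_ball hG hinj hG' hg hr
  have hω0 : ω 0 = 0 := by
    apply hinj (hωU 0 (by simp)) (by simp)
    rw [hωe 0 (by simp), h0]
  intro z hz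
  refine ⟨ω z, ?_, hωe z hz⟩
  exact Complex.norm_le_norm_of_mapsTo_ball hω
    (fun x hx => ball_subset_closedBall (hωU x hx)) hω0 (mem_ball_zero_iff.mp hz)

/-- **Contact lemma for subordination.** -/
theorem contact_subord {G : ℂ → ℂ} (hG : DifferentiableOn ℂ G (ball 0 1))
    (hinj : InjOn G (ball 0 1)) (hG' : ∀ ζ ∈ ball (0:ℂ) 1, deriv G ζ ≠ 0) {g : ℂ → ℂ}
    (hg : DifferentiableOn ℂ g (ball 0 1)) (h0 : g 0 = G 0) {z₁ : ℂ} (hz₁ : z₁ ∈ ball (0:ℂ) 1)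
    (hnot : g z₁ ∉ G '' (ball 0 1)) {s : ℝ} (hs0 : 0 < s) (hs1 : s < 1) :
    ∃ z₀ ζ₀ : ℂ, ∃ k : ℝ, 1 ≤ k ∧ z₀ ≠ 0 ∧ ‖z₀‖ ≤ ‖z₁‖ ∧ ‖ζ₀‖ = s ∧ g z₀ = G ζ₀ ∧
      z₀ * deriv g z₀ = k * (ζ₀ * deriv G ζ₀) := by
  have hsub : ball (0:ℂ) s ⊆ ball 0 1 := ball_subset_ball hs1.le
  have hcsub : closedBall (0:ℂ) s ⊆ ball 0 1 := closedBall_subset_ball hs1
  have hopen : IsOpen (G '' ball 0 s) :=
    image_isOpen isOpen_ball (hG.mono hsub) (fun ζ hζ => hG' ζ (hsub hζ))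
  have hz1 : ‖z₁‖ < 1 := mem_ball_zero_iff.mp hz₁
  have hclosed : ∀ r < (1:ℝ), IsClosed ({z : ℂ | g z ∉ G '' ball 0 s} ∩ closedBall 0 r) := by
    intro r hr
    have hc1 : ContinuousOn g (closedBall 0 r) := hg.continuousOn.mono (closedBall_subset_ball hr)
    have := hc1.preimage_isClosed_of_isClosed isClosed_closedBall hopen.isClosed_compl
    rw [inter_comm]
    exact this
  have hz1E : z₁ ∈ {z : ℂ | g z ∉ G '' ball 0 s} := fun h => hnot (image_mono hsub h)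
  obtain ⟨z₀, hz₀E, hz₀1, hfirst⟩ := first_point hclosed hz1E hz1
  have hz₀D : z₀ ∈ ball (0:ℂ) 1 := by rw [mem_ball_zero_iff]; linarith
  have hz₀ : z₀ ≠ 0 := by
    rintro rfl
    exact hz₀E ⟨0, by simp [hs0], h0.symm⟩
  have hcompact : IsCompact (G '' closedBall 0 s) :=
    (isCompact_closedBall (0:ℂ) s).image_of_continuousOn (hG.continuousOn.mono hcsub)
  have hin : ∀ z, ‖z‖ ≤ ‖z₀‖ → g z ∈ G '' closedBall 0 s := by
    intro z hz
    rcases lt_or_eq_of_le hz with hlt | heq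
    · have := hfirst z hlt
      have h3 : g z ∈ G '' ball 0 s := by
        by_contra h4; exact this h4
      exact image_mono ball_subset_closedBall h3
    · have hzne : z ≠ 0 := by rintro rfl; rw [norm_zero] at heq; exact hz₀ (norm_eq_zero.mp heq.symm)
      have hzD : z ∈ ball (0:ℂ) 1 := by
        rw [mem_ball_zero_iff, heq]; exact mem_ball_zero_iff.mp hz₀D
      have hcg : ContinuousAt g z := hg.continuousOn.continuousAt (isOpen_ball.mem_nhds hzD)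
      have ht : Tendsto (fun s : ℝ => g ((s:ℂ) * z)) (𝓝[<] 1) (𝓝 (g z)) :=
        hcg.tendsto.comp (smul_tendsto z)
      refine hcompact.isClosed.mem_of_tendsto ht ?_
      filter_upwards [smul_norm_lt hzne] with s' hs'
      rw [heq] at hs'
      have := hfirst _ hs'
      have h3 : g ((s':ℂ) * z) ∈ G '' ball 0 s := by
        by_contra h4; exact this h4
      exact image_mono ball_subset_closedBall h3
  set ω : ℂ → ℂ := fun z => invFunOn G (ball 0 1) (g z) with hω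
  have hωval : ∀ ζ ∈ ball (0:ℂ) 1, ∀ z, g z = G ζ → ω z = ζ := by
    intro ζ hζ z hz
    have hmem : g z ∈ G '' ball 0 1 := ⟨ζ, hζ, hz.symm⟩
    exact hinj (invFunOn_mem hmem) hζ ((invFunOn_eq hmem).trans hz)
  have hωnorm : ∀ z, ‖z‖ ≤ ‖z₀‖ → ‖ω z‖ ≤ s := by
    intro z hz
    obtain ⟨ζ, hζ, hζe⟩ := hin z hz
    rw [hωval ζ (hcsub hζ) z hζe.symm]
    exact mem_closedBall_zero_iff.mp hζ
  obtain ⟨ζ₀, hζ₀, hζ₀e⟩ := hin z₀ le_rfl
  have hζ₀D := hcsub hζ₀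
  have hζ₀n : ‖ζ₀‖ = s := by
    apply le_antisymm (mem_closedBall_zero_iff.mp hζ₀)
    by_contra hlt
    push Not at hlt
    exact hz₀E ⟨ζ₀, mem_ball_zero_iff.mpr hlt, hζ₀e⟩
  have hωz₀ : ω z₀ = ζ₀ := hωval ζ₀ hζ₀D z₀ hζ₀e.symm
  have hωder : ∀ z, ‖z‖ ≤ ‖z₀‖ → ∀ ζ ∈ ball (0:ℂ) 1, g z = G ζ →
      HasDerivAt ω ((deriv G ζ)⁻¹ * deriv g z) z := by
    intro z hz ζ hζ hze
    have hzD : z ∈ ball (0:ℂ) 1 := by rw [mem_ball_zero_iff]; linarith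
    have h1 : HasDerivAt (invFunOn G (ball 0 1)) (deriv G ζ)⁻¹ (g z) := by
      rw [hze]; exact inv_hasDerivAt isOpen_ball hG hinj hζ (hG' ζ hζ)
    have h2 := (hg.differentiableAt (isOpen_ball.mem_nhds hzD)).hasDerivAt
    exact h1.comp z h2
  have hωD : DifferentiableOn ℂ ω (ball 0 ‖z₀‖) := by
    intro z hz
    have hz' : ‖z‖ ≤ ‖z₀‖ := (mem_ball_zero_iff.mp hz).le
    obtain ⟨ζ, hζ, hζe⟩ := hin z hz'
    exact (hωder z hz' ζ (hcsub hζ) hζe.symm).differentiableAt.differentiableWithinAt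
  have hω0 : ω 0 = 0 := hωval 0 (by simp) 0 h0
  obtain ⟨k, hk, hke⟩ := jack hz₀ hωD hω0
    (fun z hz => by rw [hωz₀, hζ₀n]; exact hωnorm z hz)
    (hωder z₀ le_rfl ζ₀ hζ₀D hζ₀e.symm)
    (by rw [hωz₀]; intro h; rw [h, norm_zero] at hζ₀n; exact hs0.ne hζ₀n)
  refine ⟨z₀, ζ₀, k, hk, hz₀, hz₀1, hζ₀n, hζ₀e.symm, ?_⟩
  rw [hωz₀] at hke
  have hne := hG' ζ₀ hζ₀D
  have h5 : z₀ * deriv g z₀ = (z₀ * ((deriv G ζ₀)⁻¹ * deriv g z₀)) * deriv G ζ₀ := by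
    field_simp
  rw [h5, hke]
  ring

end Pool.Agent.H21R3
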