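import Mathlib
import Pool.Agent.H21R3.Contact

set_option autoImplicit false

/-!
Contact lemmas transported to the half plane `Re v > 1/2` by `v = 1/(1-ζ)`.
-/

namespace Pool.Agent.H21R3

open Complex Metric Set Filter Topology

theorem disc_to_H {ζ : ℂ} (hζ : ζ ∈ ball (0:ℂ) 1) : 1 / 2 < ((1 - ζ)⁻¹).re := by
  rw [mem_ball_zero_iff] at hζ
  have h1 : Complex.normSq ζ < 1 := by
    rw [Complex.normSq_eq_norm_sq]
    have := norm_nonneg ζ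
    nlinarith
  rw [Complex.normSq_apply] at h1
  rw [Complex.inv_re, Complex.normSq_apply]
  simp only [Complex.sub_re, Complex.one_re, Complex.sub_im, Complex.one_im, zero_sub]
  have h2 : ζ.re < 1 := by nlinarith [sq_nonneg ζ.im, sq_nonneg (ζ.re - 1)]
  have hpos : 0 < (1 - ζ.re) * (1 - ζ.re) + -ζ.im * -ζ.im := by nlinarith [sq_nonneg ζ.im]
  rw [lt_div_iff₀ hpos]
  nlinarith

theorem H_to_disc {v : ℂ} (hv : 1 / 2 < v.re) : 1 - v⁻¹ ∈ ball (0:ℂ) 1 := by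
  have hv0 : v ≠ 0 := by rintro rfl; simp at hv; linarith
  rw [mem_ball_zero_iff]
  have h1 : 1 - v⁻¹ = (v - 1) / v := by field_simp
  rw [h1, norm_div, div_lt_one (norm_pos_iff.mpr hv0)]
  rw [← sq_lt_sq₀ (norm_nonneg _) (norm_nonneg _), ← Complex.normSq_eq_norm_sq,
      ← Complex.normSq_eq_norm_sq, Complex.normSq_apply, Complex.normSq_apply]
  simp only [Complex.sub_re, Complex.one_re, Complex.sub_im, Complex.one_im, sub_zero]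
  nlinarith

theorem one_sub_ne {ζ : ℂ} (hζ : ζ ∈ ball (0:ℂ) 1) : (1 - ζ) ≠ 0 := by
  intro h
  have h1 : ζ = 1 := (sub_eq_zero.mp h).symm
  rw [mem_ball_zero_iff, h1] at hζ
  simp at hζ

theorem hasDeriv_v {ζ : ℂ} (hζ : ζ ∈ ball (0:ℂ) 1) :
    HasDerivAt (fun ζ : ℂ => (1 - ζ)⁻¹) (((1 - ζ)⁻¹) ^ 2) ζ := by
  have h : HasDerivAt (fun ζ : ℂ => (1 - ζ)⁻¹) (-(-1) / (1 - ζ) ^ 2) ζ :=
    ((hasDerivAt_id ζ).const_sub 1).inv (one_sub_ne hζ)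
  refine h.congr_deriv ?_
  rw [neg_neg, inv_pow, one_div]

theorem comp_v_hasDeriv {F F' : ℂ → ℂ} (hF : ∀ v : ℂ, 1 / 2 < v.re → HasDerivAt F (F' v) v)
    {ζ : ℂ} (hζ : ζ ∈ ball (0:ℂ) 1) :
    HasDerivAt (fun ζ : ℂ => F ((1 - ζ)⁻¹)) (F' ((1 - ζ)⁻¹) * ((1 - ζ)⁻¹) ^ 2) ζ :=
  (hF _ (disc_to_H hζ)).comp ζ (hasDeriv_v hζ)

theorem zeta_v {ζ : ℂ} (hζ : ζ ∈ ball (0:ℂ) 1) :
    ζ * ((1 - ζ)⁻¹) ^ 2 = (1 - ζ)⁻¹ * ((1 - ζ)⁻¹ - 1) := by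
  have := one_sub_ne hζ
  field_simp
  ring

theorem contact_re_H {F F' : ℂ → ℂ} (hF : ∀ v : ℂ, 1 / 2 < v.re → HasDerivAt F (F' v) v)
    {c : ℝ} (hc : 0 < c) (h0 : F 1 = (c : ℂ))
    (hcon : ∀ (v : ℂ) (κ k : ℝ), 1 / 2 < v.re → 1 ≤ k → F v = (κ : ℂ) * I →
      v * (v - 1) * F' v = ((-k * (c ^ 2 + κ ^ 2) / (2 * c) : ℝ) : ℂ) → False) :
    ∀ v : ℂ, 1 / 2 < v.re → 0 < (F v).re := by
  have hd : DifferentiableOn ℂ (fun ζ : ℂ => F ((1 - ζ)⁻¹)) (ball 0 1) := fun ζ hζ =>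
    (comp_v_hasDeriv hF hζ).differentiableAt.differentiableWithinAt
  have key := contact_re hd hc (by simpa using h0) (fun ζ κ k hζ hk hFκ hder => by
    refine hcon ((1 - ζ)⁻¹) κ k (disc_to_H hζ) hk hFκ ?_
    rw [(comp_v_hasDeriv hF hζ).deriv] at hder
    rw [← hder, ← zeta_v hζ]
    ring)
  intro v hv
  have hv0 : v ≠ 0 := by rintro rfl; simp at hv; linarith
  have := key (1 - v⁻¹) (H_to_disc hv)
  simpa using this

theorem contact_norm_H {F F' : ℂ → ℂ} (hF : ∀ v : ℂ, 1 / 2 < v.re → HasDerivAt F (F' v) v)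
    {ρ : ℝ} (hρ : 0 < ρ) (h0 : ‖F 1‖ < ρ)
    (hcon : ∀ (v : ℂ) (k : ℝ), 1 / 2 < v.re → 0 ≤ k → ‖F v‖ = ρ →
      v * (v - 1) * F' v = (k : ℂ) * F v → False) :
    ∀ v : ℂ, 1 / 2 < v.re → ‖F v‖ < ρ := by
  have hd : DifferentiableOn ℂ (fun ζ : ℂ => F ((1 - ζ)⁻¹)) (ball 0 1) := fun ζ hζ =>
    (comp_v_hasDeriv hF hζ).differentiableAt.differentiableWithinAt
  have key := contact_norm hd hρ (by simpa using h0) (fun ζ k hζ hk hFκ hder => by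
    refine hcon ((1 - ζ)⁻¹) k (disc_to_H hζ) hk hFκ ?_
    rw [(comp_v_hasDeriv hF hζ).deriv] at hder
    rw [← hder, ← zeta_v hζ]
    ring)
  intro v hv
  have hv0 : v ≠ 0 := by rintro rfl; simp at hv; linarith
  have := key (1 - v⁻¹) (H_to_disc hv)
  simpa using this

end Pool.Agent.H21R3
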