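import Mathlib
import Pool.Agent.H21R3.UEps
import Pool.Agent.H21R3.Alg
import Pool.Agent.H21R3.ContactH

set_option autoImplicit false

/-!
The four positivity statements K1 - K4 for the functions built from `U` and `Ep`.
-/

namespace Pool.Agent.H21R3

open Complex Metric Set Filter Topology

variable {β : ℝ}

theorem half_pos_re {v : ℂ} (hv : 1 / 2 < v.re) : 0 < v.re := by linarith

/-- K1 -/
theorem U_re_pos (hβ : 1 < β) : ∀ v : ℂ, 1 / 2 < v.re → 0 < (U β v).re := by
  refine contact_re_H (c := 1) (fun v hv => U_hasDeriv hβ (half_pos_re hv)) one_pos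
    (by rw [U_one hβ]; simp) ?_
  intro v κ k hv hk hF hder
  rw [U_ode hβ (half_pos_re hv), hF] at hder
  have hre := congrArg Complex.re hder
  have him := congrArg Complex.im hder
  rw [Complex.ofReal_re] at hre
  rw [Complex.ofReal_im] at him
  simp at hre him
  have hκ : κ = 0 := by
    rcases him with h | h
    · linarith
    · rcases h with h | h
      · linarith
      · exact h
  rw [hκ] at hre
  have : -k / 2 < 0 := by linarith
  nlinarith

noncomputable def gg (β : ℝ) (v : ℂ) : ℂ := 2 * Ep β v / U β v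

noncomputable def gg' (β : ℝ) (v : ℂ) : ℂ :=
  (2 * deriv (Ep β) v * U β v - 2 * Ep β v * (2 * β * (Ep β v - U β v) / v)) / (U β v) ^ 2

theorem gg_hasDeriv (hβ : 1 < β) {v : ℂ} (hv : 0 < v.re) (hU : U β v ≠ 0) :
    HasDerivAt (gg β) (gg' β v) v :=
  ((Ep_diff hβ hv).hasDerivAt.const_mul 2).div (U_hasDeriv hβ hv) hU

theorem gg_ode (hβ : 1 < β) {v : ℂ} (hv : 0 < v.re) (hU : U β v ≠ 0) :
    v * (v - 1) * gg' β v = 2 * β - β * gg β v - v * gg β v + 2 * β * (v - 1) * gg β v -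
      β * (v - 1) * (gg β v) ^ 2 := by
  have h1 := Ep_deriv hβ hv
  have h2 := U_ode hβ hv
  have h3 := one_eq hβ hv
  unfold gg gg'
  generalize (2 * β * (Ep β v - U β v) / v) = U' at *
  generalize deriv (Ep β) v = E' at *
  generalize U β v = u at *
  generalize Ep β v = e at *
  field_simp
  linear_combination u * h1 - e * h2 - e * β * h3

theorem gg_one (hβ : 1 < β) : gg β 1 = 2 * β / (β + 1) := by
  unfold gg
  rw [U_one hβ, Ep_one hβ]
  ring

/-- K2 -/
theorem gg_near (hβ : 1 < β) : ∀ v : ℂ, 1 / 2 < v.re → ‖gg β v - 1‖ < (β - 1) / β := by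
  have hβ0 : 0 < β := by linarith
  have hUne : ∀ v : ℂ, 1 / 2 < v.re → U β v ≠ 0 := by
    intro v hv h
    have := U_re_pos hβ v hv
    rw [h] at this; simp at this
  have hρ : 0 < (β - 1) / β := div_pos (by linarith) hβ0
  refine contact_norm_H (fun v hv => (gg_hasDeriv hβ (half_pos_re hv) (hUne v hv)).sub_const 1)
    hρ ?_ ?_
  · rw [gg_one hβ]
    have h1 : (2 * (β:ℂ) / (β + 1) - 1) = (((β - 1) / (β + 1) : ℝ) : ℂ) := by
      have : (β:ℂ) + 1 ≠ 0 := by
        have : (β + 1 : ℝ) ≠ 0 := by linarith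
        exact_mod_cast this
      push_cast
      field_simp
      ring
    rw [h1, Complex.norm_real, Real.norm_of_nonneg (div_nonneg (by linarith) (by linarith))]
    exact div_lt_div_of_pos_left (by linarith) hβ0 (by linarith)
  · intro v k hv hk hn hder
    rw [gg_ode hβ (half_pos_re hv) (hUne v hv)] at hder
    have hv0 : v ≠ 0 := by rintro rfl; simp at hv; linarith
    have hζ := H_to_disc hv
    rw [mem_ball_zero_iff] at hζ
    set γ : ℂ := gg β v - 1 with hγ
    have hg : gg β v = 1 + γ := by rw [hγ]; ring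
    rw [hg] at hder
    have h1 : (1 - v⁻¹) * γ * (β * (1 - γ) + k) = 1 + γ + k * γ - β * (1 - γ) := by
      field_simp
      linear_combination (1 : ℂ) * hder
    have h2 := congrArg Complex.normSq h1
    rw [map_mul, map_mul] at h2
    have hxy : γ.re ^ 2 + γ.im ^ 2 = ((β - 1) / β) ^ 2 := by
      rw [← hn, ← Complex.normSq_eq_norm_sq, Complex.normSq_apply]; ring
    have h3 := k2_real hβ hk rfl hxy
    have h4 : Complex.normSq γ = ((β - 1) / β) ^ 2 := by
      rw [Complex.normSq_apply, ← hxy]; ring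
    have h5 : Complex.normSq (β * (1 - γ) + k) = (β * (1 - γ.re) + k) ^ 2 + (β * γ.im) ^ 2 := by
      rw [Complex.normSq_apply]; simp; ring
    have h6 : Complex.normSq (1 + γ + k * γ - β * (1 - γ)) =
        (1 + γ.re + k * γ.re - β * (1 - γ.re)) ^ 2 + (γ.im + k * γ.im + β * γ.im) ^ 2 := by
      rw [Complex.normSq_apply]; simp; ring
    have h7 : Complex.normSq (1 - v⁻¹) < 1 := by
      rw [Complex.normSq_eq_norm_sq]
      have := norm_nonneg (1 - v⁻¹)
      nlinarith
    rw [h4, h5, h6] at h2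
    have hx : γ.re ≤ (β - 1) / β := by
      rw [← hn]; exact Complex.re_le_norm γ
    have h8 : β * γ.re ≤ β - 1 := by
      rw [le_div_iff₀ hβ0] at hx; linarith
    have h9 : 0 < (β * (1 - γ.re) + k) ^ 2 := by
      apply pow_pos; linarith
    have h10 : 0 < ((β - 1) / β) ^ 2 * ((β * (1 - γ.re) + k) ^ 2 + (β * γ.im) ^ 2) := by
      apply mul_pos (pow_pos hρ 2)
      have := sq_nonneg (β * γ.im)
      linarith
    nlinarith

/-- `B` -/
noncomputable def Bf (β : ℝ) (v : ℂ) : ℂ := U β v / Ep β v - 1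

noncomputable def Bf' (β : ℝ) (v : ℂ) : ℂ :=
  ((2 * β * (Ep β v - U β v) / v) * Ep β v - U β v * deriv (Ep β) v) / (Ep β v) ^ 2

theorem gg_ne (hβ : 1 < β) {v : ℂ} (hv : 1 / 2 < v.re) : gg β v ≠ 0 := by
  intro h
  have h1 := gg_near hβ v hv
  rw [h] at h1
  simp at h1
  have : (β - 1) / β < 1 := by rw [div_lt_one (by linarith)]; linarith
  linarith

theorem U_ne (hβ : 1 < β) {v : ℂ} (hv : 1 / 2 < v.re) : U β v ≠ 0 := by
  intro h
  have := U_re_pos hβ v hv
  rw [h] at this; simp at this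

theorem Ep_ne (hβ : 1 < β) {v : ℂ} (hv : 1 / 2 < v.re) : Ep β v ≠ 0 := by
  intro h
  apply gg_ne hβ hv
  unfold gg
  rw [h]; simp

theorem Bf_hasDeriv (hβ : 1 < β) {v : ℂ} (hv : 0 < v.re) (hE : Ep β v ≠ 0) :
    HasDerivAt (Bf β) (Bf' β v) v :=
  ((U_hasDeriv hβ hv).div (Ep_diff hβ hv).hasDerivAt hE).sub_const 1

theorem Bf_ode (hβ : 1 < β) {v : ℂ} (hv : 0 < v.re) (hE : Ep β v ≠ 0) :
    v * (v - 1) * Bf' β v = β * Bf β v * (1 - Bf β v) - v * ((2 * β - 1) * Bf β v - 1) := by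
  have h1 := Ep_deriv hβ hv
  have h2 := U_ode hβ hv
  have h3 := one_eq hβ hv
  unfold Bf Bf'
  generalize (2 * β * (Ep β v - U β v) / v) = U' at *
  generalize deriv (Ep β) v = E' at *
  generalize U β v = u at *
  generalize Ep β v = e at *
  field_simp
  linear_combination (e : ℂ) * h2 - (u : ℂ) * h1 + e * β * h3

theorem Bf_one (hβ : 1 < β) : Bf β 1 = 1 / β := by
  unfold Bf
  rw [U_one hβ, Ep_one hβ]
  have h1 : (β:ℂ) ≠ 0 := by
    have : (β : ℝ) ≠ 0 := by linarith
    exact_mod_cast this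
  have h2 : (β:ℂ) + 1 ≠ 0 := by
    have : (β + 1 : ℝ) ≠ 0 := by linarith
    exact_mod_cast this
  field_simp
  ring

theorem Bf_gg (hβ : 1 < β) {v : ℂ} (hv : 1 / 2 < v.re) : (1 + Bf β v) * gg β v = 2 := by
  unfold Bf gg
  have := Ep_ne hβ hv
  have := U_ne hβ hv
  field_simp
  ring

/-- the disc for `B` -/
theorem Bf_disc (hβ : 1 < β) {v : ℂ} (hv : 1 / 2 < v.re) :
    (2 * β - 1) * ((Bf β v).re ^ 2 + (Bf β v).im ^ 2) + (2 * β - 1) <
      ((2 * β - 1) ^ 2 + 1) * (Bf β v).re ∧ 1 < (2 * β - 1) * (Bf β v).re := by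
  have hβ0 : 0 < β := by linarith
  have h1 := gg_near hβ v hv
  have h2 := Bf_gg hβ hv
  set B := Bf β v with hB
  have hgne := gg_ne hβ hv
  have hB1 : 1 + B ≠ 0 := by
    intro h; rw [h] at h2; simp at h2
  have hg : gg β v - 1 = (1 - B) / (1 + B) := by
    field_simp
    linear_combination h2
  rw [hg, norm_div, div_lt_div_iff₀ (norm_pos_iff.mpr hB1) hβ0] at h1
  have h3 : (‖1 - B‖ * β) ^ 2 < ((β - 1) * ‖1 + B‖) ^ 2 :=
    pow_lt_pow_left₀ h1 (by positivity) two_ne_zero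
  rw [mul_pow, mul_pow, ← Complex.normSq_eq_norm_sq, ← Complex.normSq_eq_norm_sq,
    Complex.normSq_apply, Complex.normSq_apply] at h3
  simp only [Complex.sub_re, Complex.one_re, Complex.sub_im, Complex.one_im, Complex.add_re,
    Complex.add_im, zero_sub, zero_add] at h3
  have hd : (2 * β - 1) * (B.re ^ 2 + B.im ^ 2) + (2 * β - 1) <
      ((2 * β - 1) ^ 2 + 1) * B.re := by nlinarith
  refine ⟨hd, ?_⟩
  by_contra hcon
  push Not at hcon
  -- ((2β-1) X - 1) (X - (2β-1)) + m Y^2 < 0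
  have h4 : ((2 * β - 1) * B.re - 1) * (B.re - (2 * β - 1)) + (2 * β - 1) * B.im ^ 2 < 0 := by
    nlinarith
  have h5 : 0 ≤ (2 * β - 1) * B.im ^ 2 := mul_nonneg (by linarith) (sq_nonneg _)
  have h6 : ((2 * β - 1) * B.re - 1) * (B.re - (2 * β - 1)) < 0 := by linarith
  have h7 : B.re ≤ 2 * β - 1 := by
    have : 0 < B.re ∨ B.re ≤ 0 := lt_or_ge _ _
    rcases this with h | h
    · have : (2 * β - 1) * B.re ≥ B.re := by nlinarith
      linarith
    · linarith
  nlinarith [mul_nonneg (by linarith : 0 ≤ 1 - (2 * β - 1) * B.re)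
    (by linarith : 0 ≤ (2 * β - 1) - B.re)]

end Pool.Agent.H21R3
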