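import Mathlib
import Pool.Agent.H21R3.KFun

set_option autoImplicit false

/-!
K3: the logarithmic derivative of `g`.
-/

namespace Pool.Agent.H21R3

open Complex Metric Set Filter Topology

variable {β : ℝ}

noncomputable def etaF (β : ℝ) (v : ℂ) : ℂ :=
  2 * β / gg β v - β - v + 2 * β * (v - 1) - β * (v - 1) * gg β v

noncomputable def etaF' (β : ℝ) (v : ℂ) : ℂ :=
  -(2 * β * gg' β v) / (gg β v) ^ 2 - 1 + 2 * β - (β * gg β v + β * (v - 1) * gg' β v)

theorem etaF_hasDeriv (hβ : 1 < β) {v : ℂ} (hv : 0 < v.re) (hU : U β v ≠ 0) (hg : gg β v ≠ 0) :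
    HasDerivAt (etaF β) (etaF' β v) v := by
  have h1 := gg_hasDeriv hβ hv hU
  have h2 : HasDerivAt (fun v => 2 * (β:ℂ) / gg β v) (-(2 * β * gg' β v) / (gg β v) ^ 2) v := by
    have := (hasDerivAt_const v (2 * (β:ℂ))).div h1 hg
    refine this.congr_deriv ?_
    simp
  have h3 : HasDerivAt (fun v : ℂ => 2 * (β:ℂ) * (v - 1)) (2 * (β:ℂ) * 1) v :=
    ((hasDerivAt_id v).sub_const 1).const_mul _
  have h4 : HasDerivAt (fun v : ℂ => (β:ℂ) * (v - 1)) ((β:ℂ) * 1) v :=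
    ((hasDerivAt_id v).sub_const 1).const_mul _
  have h5 := (((h2.sub_const (β:ℂ)).sub (hasDerivAt_id v)).add h3).sub (h4.mul h1)
  refine h5.congr_deriv ?_
  unfold etaF'
  ring

theorem gg_ode' (hβ : 1 < β) {v : ℂ} (hv : 0 < v.re) (hU : U β v ≠ 0) (hg : gg β v ≠ 0) :
    v * (v - 1) * gg' β v = gg β v * etaF β v := by
  rw [gg_ode hβ hv hU]
  unfold etaF
  field_simp

theorem etaF_ode (hβ : 1 < β) {v : ℂ} (hv : 0 < v.re) (hU : U β v ≠ 0) (hg : gg β v ≠ 0) :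
    v * (v - 1) * etaF' β v = -(2 * β * etaF β v) / gg β v +
      v * (v - 1) * (2 * β - 1 - β * gg β v) - β * (v - 1) * gg β v * etaF β v := by
  have h := gg_ode' hβ hv hU hg
  unfold etaF'
  generalize etaF β v = e at *
  generalize gg' β v = g' at *
  generalize gg β v = g at *
  field_simp
  linear_combination (-(2 * (β:ℂ)) - β * (v - 1) * g ^ 2) * h

theorem k3_complex (m κ : ℝ) (B q Dη : ℂ) (hB : 1 + B ≠ 0)
    (H1 : q * (m * B - 1) = 2 * I * κ * (1 + B) - (m + 1) * B ^ 2)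
    (H2 : 4 * Dη * (1 + B) = (q ^ 2 - 1) * (m * B - 1) + (1 + B) *
      (-2 * m * (q + 1) * (-1 / 2 + I * κ) + 2 * (m + 1) * (1 - 2 * B) * (-1 / 2 + I * κ) +
        4 * (-1 / 2 + I * κ) ^ 2)) :
    4 * m * Dη = q * ((m ^ 2 - 1) - 2 * I * m * (m - 1) * κ) - 2 * I * κ * (m + 1) * (1 + B) +
      (m + 1) ^ 2 * B ^ 2 + m * (2 * I * κ + (m + 1) * B - 2 * I * m * κ +
        2 * (m + 1) * I * κ * (1 - 2 * B) + 1 - 4 * I * κ - 4 * κ ^ 2) := by
  have hI : I ^ 2 = -1 := Complex.I_sq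
  apply mul_right_cancel₀ hB
  linear_combination (m : ℂ) * H2 + (m * q - ((m + 1) * B + 1)) * H1 +
    (4 * m * κ ^ 2 * (1 + B)) * hI

/-- K3 -/
theorem etaF_re (hβ : 1 < β) : ∀ v : ℂ, 1 / 2 < v.re → -(1 / 2) < (etaF β v).re := by
  have hβ0 : 0 < β := by linarith
  have hβc : (β:ℂ) ≠ 0 := by exact_mod_cast hβ0.ne'
  suffices h : ∀ v : ℂ, 1 / 2 < v.re → 0 < (1 + 2 * etaF β v).re by
    intro v hv
    have := h v hv
    simp at this
    linarith
  refine contact_re_H (F := fun v => 1 + 2 * etaF β v) (F' := fun v => 2 * etaF' β v) (c := 1)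
    (fun v hv => ((etaF_hasDeriv hβ (half_pos_re hv) (U_ne hβ hv) (gg_ne hβ hv)).const_mul 2).const_add 1)
    one_pos ?_ ?_
  · have h2 : (β:ℂ) + 1 ≠ 0 := by
      have : (β + 1 : ℝ) ≠ 0 := by linarith
      exact_mod_cast this
    simp only [etaF, gg_one hβ]
    push_cast
    field_simp
    ring
  · intro v κ' k hv hk hF hder
    have hB2 := Bf_gg hβ hv
    obtain ⟨hdisc, hX⟩ := Bf_disc hβ hv
    have hgne := gg_ne hβ hv
    have hUne := U_ne hβ hv
    have hode := etaF_ode hβ (half_pos_re hv) hUne hgne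
    set B : ℂ := Bf β v with hBdef
    have hB1 : 1 + B ≠ 0 := by
      intro h; rw [h] at hB2; simp at hB2
    have hg : gg β v = 2 / (1 + B) := by field_simp; linear_combination hB2
    have heta : etaF β v = -1 / 2 + I * ((κ' / 2 : ℝ) : ℂ) := by
      push_cast
      linear_combination (1 / 2 : ℂ) * hF
    have hetaB : (-1 / 2 + I * ((κ' / 2 : ℝ) : ℂ)) * (1 + B) =
        v * ((2 * β - 1) * B - 1) - β * B * (1 - B) := by
      rw [← heta]
      unfold etaF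
      rw [hg]
      field_simp
      ring
    have hre := congrArg Complex.re hder
    rw [Complex.ofReal_re] at hre
    have hneg : (v * (v - 1) * (2 * etaF' β v)).re < 0 := by
      rw [hre]
      have h1 : 0 < k * (1 ^ 2 + κ' ^ 2) := by
        apply mul_pos (by linarith)
        have := sq_nonneg κ'
        linarith
      have : -k * (1 ^ 2 + κ' ^ 2) / (2 * 1) = -(k * (1 ^ 2 + κ' ^ 2)) / 2 := by ring
      rw [this]
      linarith
    set D : ℂ := v * (v - 1) * etaF' β v with hD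
    rw [heta, hg] at hode
    have hDre : D.re < 0 := by
      have : v * (v - 1) * (2 * etaF' β v) = 2 * D := by rw [hD]; ring
      rw [this] at hneg
      simp at hneg
      linarith
    -- apply complex identity
    have H1 : (2 * v - 1) * ((((2 * β - 1 : ℝ)) : ℂ) * B - 1) =
        2 * I * ((κ' / 2 : ℝ) : ℂ) * (1 + B) - ((((2 * β - 1 : ℝ)) : ℂ) + 1) * B ^ 2 := by
      push_cast at hetaB ⊢
      linear_combination (-2 : ℂ) * hetaB
    have H2 : 4 * D * (1 + B) = ((2 * v - 1) ^ 2 - 1) * ((((2 * β - 1 : ℝ)) : ℂ) * B - 1) +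
      (1 + B) * (-2 * (((2 * β - 1 : ℝ)) : ℂ) * ((2 * v - 1) + 1) * (-1 / 2 + I * ((κ' / 2 : ℝ) : ℂ)) +
        2 * ((((2 * β - 1 : ℝ)) : ℂ) + 1) * (1 - 2 * B) * (-1 / 2 + I * ((κ' / 2 : ℝ) : ℂ)) +
        4 * (-1 / 2 + I * ((κ' / 2 : ℝ) : ℂ)) ^ 2) := by
      generalize (-1 / 2 + I * ((κ' / 2 : ℝ) : ℂ)) = e at *
      have h5 : D * (1 + B) = -(β * e) * (1 + B) ^ 2 + v * (v - 1) * ((2 * β - 1) * (1 + B) - 2 * β)
        - 2 * β * (v - 1) * e := by
        rw [hode]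
        field_simp
      push_cast
      linear_combination (4 : ℂ) * h5 - (4 * e) * hetaB
    have hmain := k3_complex (2 * β - 1) (κ' / 2) B (2 * v - 1) D hB1 H1 H2
    -- real parts
    have hQ1 := congrArg Complex.re H1
    have hQ2 := congrArg Complex.im H1
    have hM := congrArg Complex.re hmain
    obtain ⟨m, hm⟩ : ∃ m : ℝ, m = 2 * β - 1 := ⟨_, rfl⟩
    obtain ⟨κ, hκ⟩ : ∃ κ : ℝ, κ = κ' / 2 := ⟨_, rfl⟩
    obtain ⟨q, hq⟩ : ∃ q : ℂ, q = 2 * v - 1 := ⟨_, rfl⟩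
    have hqre : 0 < q.re := by rw [hq]; simp; linarith
    rw [← hm, ← hκ, ← hq] at hQ1 hQ2 hM
    rw [← hm] at hdisc hX
    have hm1 : 1 < m := by rw [hm]; linarith
    simp [pow_two] at hQ1 hQ2 hM
    have hQ : ((m * B.re - 1) ^ 2 + m ^ 2 * B.im ^ 2) * q.re =
      2 * κ * (m + 1) * B.im - (m + 1) * (B.re ^ 2 * (m * B.re - 1) + B.im ^ 2 * (m * B.re + 1)) := by
      linear_combination (m * B.re - 1) * hQ1 + (m * B.im) * hQ2
    have hR : ((m * B.re - 1) ^ 2 + m ^ 2 * B.im ^ 2) * q.im =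
      2 * κ * ((1 + B.re) * (m * B.re - 1) + m * B.im ^ 2) -
        (m + 1) * B.im * (m * (B.re ^ 2 + B.im ^ 2) - 2 * B.re) := by
      linear_combination (m * B.re - 1) * hQ2 - (m * B.im) * hQ1
    have hfin := k3_real hm1 hdisc hX hQ hR hqre
    have h9 : 4 * m * D.re < 0 := mul_neg_of_pos_of_neg (by linarith) hDre
    linarith

end Pool.Agent.H21R3
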