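import Mathlib
import Pool.Agent.H21R3.KFun

set_option autoImplicit false

/-!
K4: positivity of the main auxiliary function.
-/

namespace Pool.Agent.H21R3

open Complex Metric Set Filter Topology

variable {β : ℝ}

noncomputable def phiF (β : ℝ) (v : ℂ) : ℂ := ((β:ℂ) - 1) / U β v + 1 - β * Bf β v

noncomputable def phiF' (β : ℝ) (v : ℂ) : ℂ :=
  -(((β:ℂ) - 1) * (2 * β * (Ep β v - U β v) / v)) / (U β v) ^ 2 - β * Bf' β v

theorem phiF_hasDeriv (hβ : 1 < β) {v : ℂ} (hv : 0 < v.re) (hU : U β v ≠ 0) (hE : Ep β v ≠ 0) :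
    HasDerivAt (phiF β) (phiF' β v) v := by
  have h1 : HasDerivAt (fun v => ((β:ℂ) - 1) / U β v)
      (-(((β:ℂ) - 1) * (2 * β * (Ep β v - U β v) / v)) / (U β v) ^ 2) v := by
    have := (hasDerivAt_const v ((β:ℂ) - 1)).div (U_hasDeriv hβ hv) hU
    refine this.congr_deriv ?_
    simp
  exact (h1.add_const 1).sub ((Bf_hasDeriv hβ hv hE).const_mul (β:ℂ))

theorem p_rel (hβ : 1 < β) {v : ℂ} (hv : 0 < v.re) (hU : U β v ≠ 0) (hE : Ep β v ≠ 0) :
    (1 / U β v) * (1 + Bf β v) = (2 * v - 1) + Bf β v := by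
  have h := one_eq hβ hv
  unfold Bf
  field_simp
  linear_combination (U β v) * h

theorem phiF_ode (hβ : 1 < β) {v : ℂ} (hv : 0 < v.re) (hU : U β v ≠ 0) (hE : Ep β v ≠ 0) :
    v * (v - 1) * phiF' β v = (β - 1) * (β * (1 / U β v) * ((2 * v - 1) - 1 / U β v)) -
      β * (β * Bf β v * (1 - Bf β v) - v * ((2 * β - 1) * Bf β v - 1)) := by
  have h2 := U_ode hβ hv
  have h3 := Bf_ode hβ hv hE
  unfold phiF'
  generalize (2 * β * (Ep β v - U β v) / v) = U' at *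
  generalize Bf' β v = B' at *
  generalize Bf β v = B at *
  generalize U β v = u at *
  field_simp
  linear_combination (-((β:ℂ) - 1)) * h2 - (β:ℂ) * u ^ 2 * h3

/-- K4 -/
theorem phiF_re (hβ : 1 < β) : ∀ v : ℂ, 1 / 2 < v.re → 0 < (phiF β v).re := by
  have hβ0 : 0 < β := by linarith
  have hβc : (β:ℂ) ≠ 0 := by exact_mod_cast hβ0.ne'
  refine contact_re_H (c := β - 1)
    (fun v hv => phiF_hasDeriv hβ (half_pos_re hv) (U_ne hβ hv) (Ep_ne hβ hv)) (by linarith) ?_ ?_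
  · unfold phiF
    rw [U_one hβ, Bf_one hβ]
    push_cast
    field_simp
    ring
  · intro v κ k hv hk hF hder
    have hUne := U_ne hβ hv
    have hEne := Ep_ne hβ hv
    have hrel := p_rel hβ (half_pos_re hv) hUne hEne
    rw [phiF_ode hβ (half_pos_re hv) hUne hEne] at hder
    have hpre : 0 < (1 / U β v).re := by
      rw [one_div, Complex.inv_re]
      exact div_pos (U_re_pos hβ v hv) (Complex.normSq_pos.mpr hUne)
    unfold phiF at hF
    obtain ⟨p, hp⟩ : ∃ p : ℂ, p = 1 / U β v := ⟨_, rfl⟩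
    obtain ⟨B, hB⟩ : ∃ B : ℂ, B = Bf β v := ⟨_, rfl⟩
    rw [← hp, ← hB] at hrel hder
    rw [← hp] at hpre
    have hF' : ((β:ℂ) - 1) * p + 1 - β * B = κ * I := by
      rw [hp, hB, ← hF]; ring
    obtain ⟨X, hX⟩ : ∃ X : ℂ, X = 1 + ((β:ℂ) - 1) * p := ⟨_, rfl⟩
    obtain ⟨l, hl⟩ : ∃ l : ℂ, l = (β:ℂ) * B := ⟨_, rfl⟩
    have hXl : X - l = κ * I := by rw [hX, hl, ← hF']; ring
    have hXre : 1 < X.re := by
      have : X.re = 1 + (β - 1) * p.re := by rw [hX]; simp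
      rw [this]
      have := mul_pos (by linarith : 0 < β - 1) hpre
      linarith
    -- q relation
    have hq1 : ((β:ℂ) - 1) * β * (2 * v - 1) = (l + β) * X - β * (l + 1) := by
      rw [hX, hl]
      linear_combination (-((β:ℂ) - 1) * β) * hrel
    have hmain : 2 * (β:ℂ) * ((β:ℂ) - 1) * (((-k * ((β - 1) ^ 2 + κ ^ 2) / (2 * (β - 1)) : ℝ) : ℂ)) =
        2 * β * ((X - 1) * l * (X + l)) - (β + l) ^ 2 * (X - β) - 2 * β * ((β:ℂ) - 1) * (β + l) := by
      rw [← hder, hX, hl]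
      linear_combination (-2 * (β:ℂ) ^ 2 * ((β:ℂ) - 1) ^ 2 * p
        - (β:ℂ) ^ 2 * ((β:ℂ) - 1) * ((2 * β - 1) * B - 1)) * hrel
    have hre1 : X.re = l.re := by
      have := congrArg Complex.re hXl
      simp at this
      linarith
    have him1 : κ = X.im - l.im := by
      have := congrArg Complex.im hXl
      simp at this
      linarith
    have hcast : 2 * (β:ℂ) * ((β:ℂ) - 1) * (((-k * ((β - 1) ^ 2 + κ ^ 2) / (2 * (β - 1)) : ℝ) : ℂ)) =
        ((-(k * β * ((β - 1) ^ 2 + κ ^ 2)) : ℝ) : ℂ) := by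
      rw [← Complex.ofReal_one, ← Complex.ofReal_sub]
      have e2 : (2:ℂ) = ((2:ℝ):ℂ) := by push_cast; rfl
      rw [e2, ← Complex.ofReal_mul, ← Complex.ofReal_mul, ← Complex.ofReal_mul]
      congr 1
      have : β - 1 ≠ 0 := by linarith
      field_simp
    rw [hcast] at hmain
    have hRe := congrArg Complex.re hmain
    have hIm := congrArg Complex.im hmain
    have hQ := congrArg Complex.re hq1
    rw [Complex.ofReal_re] at hRe
    rw [Complex.ofReal_im] at hIm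
    simp [pow_two] at hRe hIm hQ
    rw [← hre1] at hRe hIm hQ
    obtain ⟨x, hx⟩ : ∃ x : ℝ, x = X.re := ⟨_, rfl⟩
    obtain ⟨η, hη⟩ : ∃ η : ℝ, η = X.im := ⟨_, rfl⟩
    obtain ⟨δ, hδ⟩ : ∃ δ : ℝ, δ = l.im := ⟨_, rfl⟩
    rw [← hη, ← hδ] at him1
    rw [← hx, ← hη, ← hδ] at hRe hIm hQ
    rw [← hx] at hXre
    have hqpos : 0 ≤ x ^ 2 - β - δ * η := by
      have h1 : 0 < (β - 1) * β * (2 * v.re - 1) :=
        mul_pos (mul_pos (by linarith) hβ0) (by linarith)
      nlinarith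
    have himfin : η * (2 * β * (3 * x ^ 2 - x - δ * η) - (x + β) ^ 2) +
      δ * (2 * β * (3 * x ^ 2 - 3 * x + 1) - 2 * x ^ 2 - δ * η * (2 * β - 1)) = 0 := by
      linear_combination (-1 : ℝ) * hIm
    have hfin := k4_real hβ hXre hqpos himfin
    have hkk : (β * ((β - 1) ^ 2 + κ ^ 2)) ≤ k * β * ((β - 1) ^ 2 + κ ^ 2) := by
      have : 0 ≤ β * ((β - 1) ^ 2 + κ ^ 2) := by positivity
      nlinarith
    rw [him1] at hkk hRe
    nlinarith

end Pool.Agent.H21R3
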