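import Mathlib
import Pool.Agent.H21R3.Asym
import Pool.Agent.H21R3.KFun2
import Pool.Agent.H21R3.KFun3

set_option autoImplicit false

/-!
The closed half plane `Re v ≥ 1/2`, the boundary line, and the argument of the derivative.
-/

namespace Pool.Agent.H21R3

open Complex Metric Set Filter Topology

variable {β : ℝ}

/-- the boundary line -/
noncomputable def ln (T : ℝ) : ℂ := 1 / 2 + I * (T / 2)

theorem ln_re (T : ℝ) : (ln T).re = 1 / 2 := by
  unfold ln; simp

theorem ln_im (T : ℝ) : (ln T).im = T / 2 := by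
  unfold ln; simp

theorem ln_re_pos (T : ℝ) : 0 < (ln T).re := by rw [ln_re]; norm_num

theorem ln_hasDeriv (T : ℝ) : HasDerivAt ln (I / 2) T := by
  unfold ln
  have h1 : HasDerivAt (fun T : ℂ => 1 / 2 + I * (T / 2)) (I * (1 / 2)) (T:ℂ) :=
    (((hasDerivAt_id (T:ℂ)).div_const 2).const_mul I).const_add _
  have h2 := h1.comp_ofReal
  refine h2.congr_deriv ?_
  ring

theorem ln_mul (T : ℝ) : ln T * (ln T - 1) = -(((1 + T ^ 2) / 4 : ℝ) : ℂ) := by
  unfold ln
  push_cast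
  have hI : I ^ 2 = -1 := Complex.I_sq
  linear_combination ((T:ℂ) ^ 2 / 4) * hI

theorem eq_ln_of_re {v : ℂ} (hv : v.re = 1 / 2) : ∃ T : ℝ, v = ln T := by
  refine ⟨2 * v.im, ?_⟩
  apply Complex.ext
  · rw [ln_re, hv]
  · rw [ln_im]; ring

theorem U_line_deriv (hβ : 1 < β) (T : ℝ) :
    HasDerivAt (fun T : ℝ => U β (ln T)) (-(2 * β * (I + T * U β (ln T)) / (1 + (T:ℂ) ^ 2))) T := by
  have h1 := (U_hasDeriv hβ (ln_re_pos T)).comp T (ln_hasDeriv T)
  refine h1.congr_deriv ?_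
  have h2 := U_ode hβ (ln_re_pos T)
  rw [ln_mul] at h2
  have h3 : (1 + (T:ℂ) ^ 2) ≠ 0 := by
    have : (1 + T ^ 2 : ℝ) ≠ 0 := by positivity
    exact_mod_cast this
  generalize (2 * β * (Ep β (ln T) - U β (ln T)) / ln T) = U' at *
  rw [eq_neg_iff_add_eq_zero]
  push_cast at h2
  have e : (2 * ln T - 1) = I * T := by unfold ln; ring
  rw [e] at h2
  have hI : I ^ 2 = -1 := Complex.I_sq
  field_simp
  linear_combination (-4 * I : ℂ) * h2 + (4 * β * T * U β (ln T)) * hI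

theorem U_line_pos (hβ : 1 < β) (T : ℝ) : 0 < (U β (ln T)).re := by
  set F : ℝ → ℝ := fun T => (U β (ln T)).re * (1 + T ^ 2) ^ β with hF
  have hd : ∀ T : ℝ, HasDerivAt F 0 T := by
    intro T
    have h1 : HasDerivAt (fun T : ℝ => (U β (ln T)).re)
        ((-(2 * β * (I + T * U β (ln T)) / (1 + (T:ℂ) ^ 2))).re) T := by
      have := (Complex.reCLM.hasFDerivAt (x := U β (ln T))).comp_hasDerivAt T (U_line_deriv hβ T)
      exact this
    have hpos : (0:ℝ) < 1 + T ^ 2 := by positivity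
    have h2 : HasDerivAt (fun T : ℝ => (1 + T ^ 2) ^ β)
        ((2 * T) * β * (1 + T ^ 2) ^ (β - 1)) T := by
      have h3 : HasDerivAt (fun T : ℝ => 1 + T ^ 2) (2 * T) T := by
        have := (hasDerivAt_pow 2 T).const_add 1
        simpa using this
      exact h3.rpow_const (Or.inl hpos.ne')
    have h4 := h1.mul h2
    refine h4.congr_deriv ?_
    have e1 : (-(2 * β * (I + T * U β (ln T)) / (1 + (T:ℂ) ^ 2))).re =
        -(2 * β * T * (U β (ln T)).re) / (1 + T ^ 2) := by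
      have : -(2 * β * (I + T * U β (ln T)) / (1 + (T:ℂ) ^ 2)) =
          (((-(2 * β) / (1 + T ^ 2) : ℝ)) : ℂ) * (I + T * U β (ln T)) := by
        push_cast; ring
      rw [this, Complex.re_ofReal_mul]
      simp
      ring
    rw [e1]
    have e2 : (1 + T ^ 2) ^ β = (1 + T ^ 2) ^ (β - 1) * (1 + T ^ 2) := by
      rw [← Real.rpow_add_one hpos.ne']; congr 1; ring
    rw [e2]
    field_simp
    ring
  have hconst : F T = F 0 := by
    apply is_const_of_deriv_eq_zero (fun x => (hd x).differentiableAt)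
    intro x; exact (hd x).deriv
  have h0 : 0 < F 0 := by
    simp only [hF]
    have : ln 0 = 1 / 2 := by unfold ln; simp
    rw [this]
    simp
    have := U_half_pos hβ
    simpa using this
  rw [← hconst] at h0
  simp only [hF] at h0
  have hp : 0 < (1 + T ^ 2) ^ β := Real.rpow_pos_of_pos (by positivity) _
  exact (mul_pos_iff_of_pos_right hp).mp h0

theorem U_re_pos' (hβ : 1 < β) {v : ℂ} (hv : 1 / 2 ≤ v.re) : 0 < (U β v).re := by
  rcases eq_or_lt_of_le hv with h | h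
  · obtain ⟨T, rfl⟩ := eq_ln_of_re h.symm
    exact U_line_pos hβ T
  · exact U_re_pos hβ v h

theorem U_ne' (hβ : 1 < β) {v : ℂ} (hv : 1 / 2 ≤ v.re) : U β v ≠ 0 := by
  intro h
  have := U_re_pos' hβ hv
  rw [h] at this; simp at this

/-- moving to the right -/
theorem right_tendsto (v : ℂ) : Tendsto (fun s : ℝ => v + (s:ℂ)) (𝓝[>] 0) (𝓝 v) := by
  have h : Continuous (fun s : ℝ => v + (s:ℂ)) := by fun_prop
  have h2 := (h.tendsto 0).mono_left (nhdsWithin_le_nhds (s := Ioi 0))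
  simpa using h2

theorem right_mem {v : ℂ} (hv : 1 / 2 ≤ v.re) : ∀ᶠ s : ℝ in 𝓝[>] 0, 1 / 2 < (v + (s:ℂ)).re := by
  filter_upwards [self_mem_nhdsWithin] with s hs
  have : (0:ℝ) < s := hs
  simp; linarith

theorem closed_le {F : ℂ → ℝ} {c : ℝ} {v : ℂ} (hv : 1 / 2 ≤ v.re) (hc : ContinuousAt F v)
    (h : ∀ w : ℂ, 1 / 2 < w.re → F w ≤ c) : F v ≤ c := by
  refine le_of_tendsto (hc.tendsto.comp (right_tendsto v)) ?_
  filter_upwards [right_mem hv] with s hs
  exact h _ hs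

theorem gg_near' (hβ : 1 < β) {v : ℂ} (hv : 1 / 2 ≤ v.re) : ‖gg β v - 1‖ ≤ (β - 1) / β := by
  have hv' : 0 < v.re := by linarith
  refine closed_le (F := fun v => ‖gg β v - 1‖) hv ?_ (fun w hw => (gg_near hβ w hw).le)
  exact ((gg_hasDeriv hβ hv' (U_ne' hβ hv)).continuousAt.sub continuousAt_const).norm

theorem gg_re_pos' (hβ : 1 < β) {v : ℂ} (hv : 1 / 2 ≤ v.re) : 0 < (gg β v).re := by
  have h1 := gg_near' hβ hv
  have h2 : (β - 1) / β < 1 := by rw [div_lt_one (by linarith)]; linarith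
  have h3 := Complex.abs_re_le_norm (gg β v - 1)
  have h4 := (abs_le.mp (h3.trans h1)).1
  simp at h4
  linarith

theorem gg_ne' (hβ : 1 < β) {v : ℂ} (hv : 1 / 2 ≤ v.re) : gg β v ≠ 0 := by
  intro h
  have := gg_re_pos' hβ hv
  rw [h] at this; simp at this

theorem Ep_ne' (hβ : 1 < β) {v : ℂ} (hv : 1 / 2 ≤ v.re) : Ep β v ≠ 0 := by
  intro h
  apply gg_ne' hβ hv
  unfold gg
  rw [h]; simp

theorem phiF_re' (hβ : 1 < β) {v : ℂ} (hv : 1 / 2 ≤ v.re) : 0 ≤ (phiF β v).re := by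
  have hv' : 0 < v.re := by linarith
  have := closed_le (F := fun v => -(phiF β v).re) (c := 0) hv ?_
    (fun w hw => by have := phiF_re hβ w hw; show -(phiF β w).re ≤ 0; linarith)
  · have h2 : -(phiF β v).re ≤ 0 := this
    linarith
  · exact (Complex.continuous_re.continuousAt.comp
      (phiF_hasDeriv hβ hv' (U_ne' hβ hv) (Ep_ne' hβ hv)).continuousAt).neg

/-- logarithm of the derivative -/
noncomputable def ell (β : ℝ) (v : ℂ) : ℂ :=
  Complex.log v + Complex.log (gg β v) + (1 / β) * Complex.log (U β v)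

noncomputable def ell' (β : ℝ) (v : ℂ) : ℂ :=
  v⁻¹ + gg' β v / gg β v + (1 / β) * ((2 * β * (Ep β v - U β v) / v) / U β v)

theorem ell_hasDeriv (hβ : 1 < β) {v : ℂ} (hv : 1 / 2 ≤ v.re) :
    HasDerivAt (ell β) (ell' β v) v := by
  have hv' : 0 < v.re := by linarith
  have h1 : HasDerivAt Complex.log v⁻¹ v := Complex.hasDerivAt_log (Or.inl hv')
  have h2 := (gg_hasDeriv hβ hv' (U_ne' hβ hv)).clog (Or.inl (gg_re_pos' hβ hv))
  have h3 := ((U_hasDeriv hβ hv').clog (Or.inl (U_re_pos' hβ hv))).const_mul (1 / (β:ℂ))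
  exact (h1.add h2).add h3

theorem ell_ode (hβ : 1 < β) {v : ℂ} (hv : 1 / 2 ≤ v.re) :
    v * (v - 1) * ell' β v = (β - 1) * (2 * v - 1) - phiF β v := by
  have hv' : 0 < v.re := by linarith
  have hv0 : v ≠ 0 := by rintro rfl; simp at hv'
  have hUne := U_ne' hβ hv
  have hEne := Ep_ne' hβ hv
  have hgne := gg_ne' hβ hv
  have hβc : (β:ℂ) ≠ 0 := by
    have : (β : ℝ) ≠ 0 := by linarith
    exact_mod_cast this
  have h1 := gg_ode' hβ hv' hUne hgne
  have h2 := U_ode hβ hv'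
  have h3 := one_eq hβ hv'
  unfold ell' phiF Bf
  have e1 : v * (v - 1) * (v⁻¹ + gg' β v / gg β v +
      (1 / β) * ((2 * β * (Ep β v - U β v) / v) / U β v)) =
      (v - 1) + (v * (v - 1) * gg' β v) / gg β v +
      (1 / β) * ((v * (v - 1) * (2 * β * (Ep β v - U β v) / v)) / U β v) := by
    field_simp
  rw [e1, h1, h2]
  unfold etaF gg
  generalize U β v = u at *
  generalize Ep β v = e at *
  field_simp
  linear_combination ((β:ℂ) * e) * h3

end Pool.Agent.H21R3
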