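import Mathlib
import Pool.Agent.H21R3.Line

set_option autoImplicit false

/-!
The argument of the derivative is monotone on the boundary line, and bounded.
-/

namespace Pool.Agent.H21R3

open Complex Metric Set Filter Topology

variable {β : ℝ}

theorem ell_im (v : ℂ) : (ell β v).im =
    arg v + arg (gg β v) + (1 / β) * arg (U β v) := by
  unfold ell
  have e : (1 / (β:ℂ)) * Complex.log (U β v) = ((1 / β : ℝ) : ℂ) * Complex.log (U β v) := by
    push_cast; rfl
  rw [e, Complex.add_im, Complex.add_im, Complex.im_ofReal_mul, Complex.log_im, Complex.log_im,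
    Complex.log_im]

theorem ell_im' (hβ : 1 < β) {v : ℂ} (hv : 1 / 2 ≤ v.re) : (ell β v).im =
    (1 - 1 / β) * arg v + (arg (gg β v) + (1 / β) * arg (v * U β v)) := by
  have hv' : 0 < v.re := by linarith
  have hv0 : v ≠ 0 := by rintro rfl; simp at hv'
  have h1 : |arg v| < Real.pi / 2 := abs_arg_lt_pi_div_two_iff.mpr (Or.inl hv')
  have h2 : |arg (U β v)| < Real.pi / 2 := abs_arg_lt_pi_div_two_iff.mpr (Or.inl (U_re_pos' hβ hv))
  rw [abs_lt] at h1 h2
  have h3 : arg (v * U β v) = arg v + arg (U β v) :=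
    (arg_mul_eq_add_arg_iff hv0 (U_ne' hβ hv)).mpr ⟨by linarith [h1.1, h2.1], by linarith [h1.2, h2.2]⟩
  rw [ell_im, h3]
  ring

theorem gg_tendsto (hβ : 1 < β) : Tendsto (gg β) Linf (𝓝 ((2 * (β:ℂ) - 1) / β)) := by
  have h1 := U_tendsto hβ
  have h2 := U_mul_tendsto hβ
  have hβc : (β:ℂ) ≠ 0 := by
    have : (β : ℝ) ≠ 0 := by linarith
    exact_mod_cast this
  have hne : (2 * (β:ℂ) - 1) ≠ 0 := by
    have : (2 * β - 1 : ℝ) ≠ 0 := by linarith
    exact_mod_cast this
  have h3 : Tendsto (fun v => (1 - U β v) / (v * U β v - U β v)) Linf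
      (𝓝 ((1 - 0) / ((β:ℂ) / (2 * β - 1) - 0))) := by
    refine Tendsto.div (h1.const_sub 1) (h2.sub h1) ?_
    rw [sub_zero]
    exact div_ne_zero hβc hne
  have e : ((1 - 0) / ((β:ℂ) / (2 * β - 1) - 0)) = (2 * (β:ℂ) - 1) / β := by
    rw [sub_zero, sub_zero, one_div, inv_div]
  rw [e] at h3
  refine h3.congr' ?_
  have hn : ∀ᶠ v in Linf, (2:ℝ) ≤ ‖v‖ := Linf_norm.eventually_ge_atTop 2
  filter_upwards [Linf_re, hn] with v hv hv2
  have hU := U_ne' hβ hv
  have hv1 : v - 1 ≠ 0 := by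
    intro h
    have : v = 1 := sub_eq_zero.mp h
    rw [this, norm_one] at hv2; linarith
  have h4 := one_eq hβ (by linarith : 0 < v.re)
  unfold gg
  have e2 : v * U β v - U β v = (v - 1) * U β v := by ring
  rw [e2, div_eq_div_iff (mul_ne_zero hv1 hU) hU]
  linear_combination (U β v) * h4

/-- the error term tends to zero -/
theorem err_tendsto (hβ : 1 < β) :
    Tendsto (fun v => arg (gg β v) + (1 / β) * arg (v * U β v)) Linf (𝓝 0) := by
  have hβ0 : 0 < β := by linarith
  have e1 : ((2 * (β:ℂ) - 1) / β) = (((2 * β - 1) / β : ℝ) : ℂ) := by push_cast; rfl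
  have e2 : ((β:ℂ) / (2 * β - 1)) = ((β / (2 * β - 1) : ℝ) : ℂ) := by push_cast; rfl
  have p1 : 0 < (2 * β - 1) / β := div_pos (by linarith) hβ0
  have p2 : 0 < β / (2 * β - 1) := div_pos hβ0 (by linarith)
  have h1 : Tendsto (fun v => arg (gg β v)) Linf (𝓝 0) := by
    have hc : ContinuousAt arg ((2 * (β:ℂ) - 1) / β) := by
      rw [e1]; exact continuousAt_arg (ofReal_mem_slitPlane.mpr p1)
    have := hc.tendsto.comp (gg_tendsto hβ)
    rw [e1, arg_ofReal_of_nonneg p1.le] at this
    exact this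
  have h2 : Tendsto (fun v => arg (v * U β v)) Linf (𝓝 0) := by
    have hc : ContinuousAt arg ((β:ℂ) / (2 * β - 1)) := by
      rw [e2]; exact continuousAt_arg (ofReal_mem_slitPlane.mpr p2)
    have := hc.tendsto.comp (U_mul_tendsto hβ)
    rw [e2, arg_ofReal_of_nonneg p2.le] at this
    exact this
  have := h1.add (h2.const_mul (1 / β))
  simpa using this

theorem ln_tendsto_top : Tendsto ln atTop Linf := by
  unfold Linf
  rw [tendsto_inf, tendsto_principal]
  refine ⟨?_, Eventually.of_forall (fun T => by simp [ln_re])⟩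
  rw [← tendsto_norm_atTop_iff_cobounded]
  apply tendsto_atTop_mono (f := fun T : ℝ => T / 2)
  · intro T
    have := Complex.abs_im_le_norm (ln T)
    rw [ln_im] at this
    exact (le_abs_self _).trans this
  · exact tendsto_id.atTop_div_const (by norm_num)

theorem ln_tendsto_bot : Tendsto ln atBot Linf := by
  unfold Linf
  rw [tendsto_inf, tendsto_principal]
  refine ⟨?_, Eventually.of_forall (fun T => by simp [ln_re])⟩
  rw [← tendsto_norm_atTop_iff_cobounded]
  apply tendsto_atTop_mono (f := fun T : ℝ => -T / 2)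
  · intro T
    have := Complex.abs_im_le_norm (ln T)
    rw [ln_im] at this
    have h2 := neg_abs_le (T / 2)
    linarith
  · exact (tendsto_neg_atBot_atTop).atTop_div_const (by norm_num)

noncomputable def psiT (β : ℝ) (T : ℝ) : ℝ := (ell β (ln T)).im

theorem psiT_mono (hβ : 1 < β) : Monotone (psiT β) := by
  have hd : ∀ T : ℝ, HasDerivAt (psiT β) ((ell' β (ln T)).re / 2) T := by
    intro T
    have h1 : HasDerivAt (fun T : ℝ => ell β (ln T)) (ell' β (ln T) * (I / 2)) T :=
      (ell_hasDeriv hβ (ln_re T).ge).comp T (ln_hasDeriv T)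
    have h2 : HasDerivAt (fun T : ℝ => (ell β (ln T)).im) ((ell' β (ln T) * (I / 2)).im) T := by
      have := (Complex.imCLM.hasFDerivAt (x := ell β (ln T))).comp_hasDerivAt T h1
      exact this
    refine h2.congr_deriv ?_
    have : ell' β (ln T) * (I / 2) = (ell' β (ln T) / 2) * I := by ring
    rw [this, Complex.mul_I_im]
    have e : ell' β (ln T) / 2 = ((1 / 2 : ℝ) : ℂ) * ell' β (ln T) := by push_cast; ring
    rw [e, Complex.re_ofReal_mul]
    ring
  apply monotone_of_deriv_nonneg (fun T => (hd T).differentiableAt)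
  intro T
  rw [(hd T).deriv]
  have h3 := ell_ode hβ (ln_re T).ge
  rw [ln_mul] at h3
  have h4 := congrArg Complex.re h3
  rw [← Complex.ofReal_neg, Complex.re_ofReal_mul] at h4
  have e : ((β:ℂ) - 1) * (2 * ln T - 1) = (((β - 1) * T : ℝ) : ℂ) * I := by
    unfold ln; push_cast; ring
  rw [e, Complex.sub_re, Complex.re_ofReal_mul, Complex.I_re, mul_zero, zero_sub] at h4
  have h5 := phiF_re' hβ (ln_re T).ge
  have h6 : 0 < (1 + T ^ 2) / 4 := by positivity
  have h7 : 0 ≤ (1 + T ^ 2) / 4 * (ell' β (ln T)).re := by linarith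
  have := (mul_nonneg_iff_of_pos_left h6).mp h7
  linarith

theorem psiT_le (hβ : 1 < β) (T : ℝ) : psiT β T ≤ (1 - 1 / β) * (Real.pi / 2) := by
  have hb : 0 < 1 - 1 / β := by
    have : 1 / β < 1 := by rw [div_lt_one (by linarith)]; exact hβ
    linarith
  have h1 := (err_tendsto hβ).comp ln_tendsto_top
  have h2 : Tendsto (fun T => (1 - 1 / β) * (Real.pi / 2) +
      (arg (gg β (ln T)) + (1 / β) * arg (ln T * U β (ln T)))) atTop
      (𝓝 ((1 - 1 / β) * (Real.pi / 2) + 0)) := h1.const_add _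
  rw [add_zero] at h2
  refine ge_of_tendsto h2 ?_
  filter_upwards [eventually_ge_atTop T] with T' hT'
  have h3 := psiT_mono hβ hT'
  have h4 : psiT β T' = _ := ell_im' hβ (ln_re T').ge
  rw [h4] at h3
  have h5 : |arg (ln T')| < Real.pi / 2 := abs_arg_lt_pi_div_two_iff.mpr (Or.inl (ln_re_pos T'))
  have h6 := (abs_lt.mp h5).2
  have := mul_le_mul_of_nonneg_left h6.le hb.le
  linarith

theorem psiT_ge (hβ : 1 < β) (T : ℝ) : -((1 - 1 / β) * (Real.pi / 2)) ≤ psiT β T := by
  have hb : 0 < 1 - 1 / β := by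
    have : 1 / β < 1 := by rw [div_lt_one (by linarith)]; exact hβ
    linarith
  have h1 := (err_tendsto hβ).comp ln_tendsto_bot
  have h2 : Tendsto (fun T => -((1 - 1 / β) * (Real.pi / 2)) +
      (arg (gg β (ln T)) + (1 / β) * arg (ln T * U β (ln T)))) atBot
      (𝓝 (-((1 - 1 / β) * (Real.pi / 2)) + 0)) := h1.const_add _
  rw [add_zero] at h2
  refine le_of_tendsto h2 ?_
  filter_upwards [eventually_le_atBot T] with T' hT'
  have h3 := psiT_mono hβ hT'
  have h4 : psiT β T' = _ := ell_im' hβ (ln_re T').ge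
  rw [h4] at h3
  have h5 : |arg (ln T')| < Real.pi / 2 := abs_arg_lt_pi_div_two_iff.mpr (Or.inl (ln_re_pos T'))
  have h6 := (abs_lt.mp h5).1
  have := mul_le_mul_of_nonneg_left h6.le hb.le
  linarith

/-- Phragmen-Lindelof -/
theorem ell_im_bound_aux (hβ : 1 < β) (s : ℝ) (hs : |s| ≤ 1)
    (hline : ∀ T, s * psiT β T ≤ (1 - 1 / β) * (Real.pi / 2)) {v : ℂ} (hv : 1 / 2 ≤ v.re) :
    s * (ell β v).im ≤ (1 - 1 / β) * (Real.pi / 2) := by
  have hβ0 : 0 < β := by linarith
  set f : ℂ → ℂ := fun w => Complex.exp (-I * s * ell β (w + 1 / 2)) with hf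
  have hre : ∀ w : ℂ, 0 ≤ w.re → 1 / 2 ≤ (w + 1 / 2).re := by
    intro w hw
    simp
    exact hw
  have hfn : ∀ w, ‖f w‖ = Real.exp (s * (ell β (w + 1 / 2)).im) := by
    intro w
    rw [hf]
    simp only
    rw [Complex.norm_exp]
    congr 1
    have : -I * s * ell β (w + 1 / 2) = -(((s:ℝ):ℂ) * ell β (w + 1 / 2)) * I := by ring
    rw [this, Complex.mul_I_re, Complex.neg_im, Complex.im_ofReal_mul]
    ring
  have hbd : ∀ w : ℂ, 0 ≤ w.re → s * (ell β (w + 1 / 2)).im ≤ 3 * Real.pi / 2 := by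
    intro w hw
    have hw' := hre w hw
    have h0 : |(ell β (w + 1 / 2)).im| ≤ 3 * Real.pi / 2 := by
      rw [ell_im]
      have h1 : |arg (w + 1 / 2)| ≤ Real.pi / 2 := abs_arg_le_pi_div_two_iff.mpr (by linarith)
      have h2 : |arg (gg β (w + 1 / 2))| ≤ Real.pi / 2 :=
        abs_arg_le_pi_div_two_iff.mpr (gg_re_pos' hβ hw').le
      have h3 : |arg (U β (w + 1 / 2))| ≤ Real.pi / 2 :=
        abs_arg_le_pi_div_two_iff.mpr (U_re_pos' hβ hw').le
      have h4 : |(1 / β) * arg (U β (w + 1 / 2))| ≤ Real.pi / 2 := by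
        rw [abs_mul, abs_of_pos (by positivity : 0 < 1 / β)]
        have h5 : 1 / β ≤ 1 := by rw [div_le_one hβ0]; exact hβ.le
        calc 1 / β * |arg (U β (w + 1 / 2))| ≤ 1 * |arg (U β (w + 1 / 2))| :=
              mul_le_mul_of_nonneg_right h5 (abs_nonneg _)
          _ ≤ _ := by linarith
      calc _ ≤ |arg (w + 1 / 2)| + |arg (gg β (w + 1 / 2))| + |(1 / β) * arg (U β (w + 1 / 2))| :=
            abs_add_three _ _ _
        _ ≤ _ := by linarith
    have h6 : s * (ell β (w + 1 / 2)).im ≤ |s| * |(ell β (w + 1 / 2)).im| := by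
      rw [← abs_mul]; exact le_abs_self _
    have h7 : |s| * |(ell β (w + 1 / 2)).im| ≤ 1 * (3 * Real.pi / 2) :=
      mul_le_mul hs h0 (abs_nonneg _) (by norm_num)
    linarith
  have hcont : ∀ w : ℂ, 0 ≤ w.re → DifferentiableAt ℂ f w := by
    intro w hw
    have h1 : DifferentiableAt ℂ (fun w => ell β (w + 1 / 2)) w := by
      have h2 : HasDerivAt (fun w : ℂ => w + 1 / 2) 1 w := (hasDerivAt_id w).add_const _
      exact ((ell_hasDeriv hβ (hre w hw)).comp w h2).differentiableAt
    exact (h1.const_mul (-I * s)).cexp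
  have key := PhragmenLindelof.right_half_plane_of_bounded_on_real (f := f)
    (C := Real.exp ((1 - 1 / β) * (Real.pi / 2))) ?_ ?_ ?_ ?_ (z := v - 1 / 2) ?_
  · rw [hfn] at key
    have := Real.exp_le_exp.mp key
    simpa using this
  · refine ⟨fun w hw => (hcont w (le_of_lt hw)).differentiableWithinAt, ?_⟩
    have hcl : closure {z : ℂ | 0 < z.re} = {z : ℂ | 0 ≤ z.re} := Complex.closure_setOfPred_lt_re 0
    rw [hcl]
    exact fun w hw => (hcont w hw).continuousAt.continuousWithinAt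
  · refine ⟨1, by norm_num, 0, ?_⟩
    apply Asymptotics.IsBigO.of_bound (Real.exp (3 * Real.pi / 2))
    refine eventually_inf_principal.mpr (Eventually.of_forall (fun w hw => ?_))
    rw [hfn, zero_mul, Real.exp_zero, norm_one, mul_one]
    exact Real.exp_le_exp.mpr (hbd w (le_of_lt hw))
  · refine ⟨Real.exp (3 * Real.pi / 2), ?_⟩
    rw [eventually_map]
    filter_upwards [eventually_ge_atTop 0] with x hx
    rw [hfn]
    exact Real.exp_le_exp.mpr (hbd _ (by simpa using hx))
  · intro x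
    rw [hfn]
    apply Real.exp_le_exp.mpr
    have h1 := hline (2 * x)
    have h2 : ln (2 * x) = (x:ℂ) * I + 1 / 2 := by unfold ln; push_cast; ring
    unfold psiT at h1
    rw [h2] at h1
    exact h1
  · simp only [Complex.sub_re]
    have : (1 / 2 : ℂ).re = 1 / 2 := by simp
    rw [this]; linarith

theorem ell_im_bound (hβ : 1 < β) {v : ℂ} (hv : 1 / 2 ≤ v.re) :
    |(ell β v).im| ≤ (1 - 1 / β) * (Real.pi / 2) := by
  have h1 := ell_im_bound_aux hβ 1 (by simp) (fun T => by rw [one_mul]; exact psiT_le hβ T) hv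
  have h2 := ell_im_bound_aux hβ (-1) (by simp)
    (fun T => by have := psiT_ge hβ T; linarith) hv
  rw [abs_le]
  constructor <;> linarith

end Pool.Agent.H21R3
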