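import Mathlib
import Pool.Agent.H21R3.Line2
import Pool.Agent.H21R3.Lift
import Pool.Agent.Helper968.Schild.Starlike

set_option autoImplicit false

/-!
The function `Psi`, its injectivity, and the half planes contained in its image.
-/

namespace Pool.Agent.H21R3

open Complex Metric Set Filter Topology

variable {β : ℝ}

/-- the open half plane `Re v > 1/2` -/
def HH : Set ℂ := {v : ℂ | 1 / 2 < v.re}

theorem HH_open : IsOpen HH := isOpen_lt continuous_const Complex.continuous_re

noncomputable def Eu (β : ℝ) (v : ℂ) : ℂ := Complex.exp ((1 / β) * Complex.log (U β v))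

noncomputable def Psi (β : ℝ) (v : ℂ) : ℂ := v ^ 2 * Eu β v

theorem Eu_ne (v : ℂ) : Eu β v ≠ 0 := Complex.exp_ne_zero _

theorem exp_ell (hβ : 1 < β) {v : ℂ} (hv : 1 / 2 ≤ v.re) :
    Complex.exp (ell β v) = v * gg β v * Eu β v := by
  have hv0 : v ≠ 0 := by rintro rfl; simp at hv; linarith
  unfold ell Eu
  rw [Complex.exp_add, Complex.exp_add, Complex.exp_log hv0, Complex.exp_log (gg_ne' hβ hv)]

theorem Psi_hasDeriv (hβ : 1 < β) {v : ℂ} (hv : 1 / 2 ≤ v.re) :
    HasDerivAt (Psi β) (Complex.exp (ell β v)) v := by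
  have hv' : 0 < v.re := by linarith
  have hv0 : v ≠ 0 := by rintro rfl; simp at hv'
  have hU := U_ne' hβ hv
  have hβc : (β:ℂ) ≠ 0 := by
    have : (β : ℝ) ≠ 0 := by linarith
    exact_mod_cast this
  have h1 := ((((U_hasDeriv hβ hv').clog (Or.inl (U_re_pos' hβ hv))).const_mul
    (1 / (β:ℂ))).cexp)
  have h2 : HasDerivAt (fun v : ℂ => v ^ 2) (2 * v) v := by
    simpa using hasDerivAt_pow 2 v
  have h3 := h2.mul h1
  refine h3.congr_deriv ?_
  rw [exp_ell hβ hv]
  unfold Eu gg
  field_simp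
  ring

theorem exp_ell_re (hβ : 1 < β) {v : ℂ} (hv : 1 / 2 ≤ v.re) : 0 < (Complex.exp (ell β v)).re := by
  rw [Complex.exp_re]
  apply mul_pos (Real.exp_pos _)
  have h1 := abs_le.mp (ell_im_bound hβ hv)
  have h2 : 0 < 1 / β := by positivity
  have h3 := Real.pi_pos
  have h4 : 0 < 1 / β * (Real.pi / 2) := by positivity
  apply Real.cos_pos_of_mem_Ioo
  constructor
  · linarith [h1.1]
  · linarith [h1.2]

theorem Psi_inj (hβ : 1 < β) : InjOn (Psi β) HH := by
  intro v1 hv1 v2 hv2 he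
  have hv1' : 1 / 2 < v1.re := hv1
  have hv2' : 1 / 2 < v2.re := hv2
  have hr : ∀ w : ℂ, w.re < 0 → 1 / 2 ≤ (1 / 2 - w).re := by
    intro w hw
    simp
    linarith
  have key := Pool.Agent.Helper968.Schild.starlike_aux_inj
    (fun w => -(Psi β (1 / 2 - w))) (fun w => Complex.exp (ell β (1 / 2 - w))) ?_ ?_
    (1 / 2 - v1) (1 / 2 - v2) ?_ ?_ ?_
  · linear_combination (-1 : ℂ) * key
  · intro w hw
    have h1 : HasDerivAt (fun w : ℂ => 1 / 2 - w) (-1) w := (hasDerivAt_id w).const_sub _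
    have h2 := ((Psi_hasDeriv hβ (hr w hw)).comp w h1).neg
    refine h2.congr_deriv ?_
    ring
  · intro w hw
    exact exp_ell_re hβ (hr w hw)
  · simp; linarith
  · simp; linarith
  · simp only [sub_sub_cancel]
    rw [he]

theorem Psi_deriv_ne (hβ : 1 < β) : ∀ w ∈ HH, deriv (Psi β) w ≠ 0 := by
  intro v hv
  have hv' : 1 / 2 < v.re := hv
  rw [(Psi_hasDeriv hβ hv'.le).deriv]
  exact Complex.exp_ne_zero _

theorem Psi_diffOn (hβ : 1 < β) : DifferentiableOn ℂ (Psi β) HH := fun v hv =>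
  (Psi_hasDeriv hβ (le_of_lt hv)).differentiableAt.differentiableWithinAt

theorem Psi_image_open (hβ : 1 < β) : IsOpen (Psi β '' HH) :=
  image_isOpen HH_open (Psi_diffOn hβ) (Psi_deriv_ne hβ)

/-- the image of the boundary line lies in a half plane -/
theorem line_ineq (hβ : 1 < β) (T T' : ℝ) :
    ((Psi β (ln T') - Psi β (ln T)) * Complex.exp (-(ell β (ln T)))).re ≤ 0 := by
  set F : ℝ → ℝ := fun s =>
    ((Psi β (ln s) - Psi β (ln T)) * Complex.exp (-(ell β (ln T)))).re with hF
  have hd : ∀ s : ℝ, HasDerivAt F (-(1 / 2) * (Real.exp (ell β (ln s) - ell β (ln T)).re *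
      Real.sin (psiT β s - psiT β T))) s := by
    intro s
    have h1 : HasDerivAt (fun s : ℝ => Psi β (ln s)) (Complex.exp (ell β (ln s)) * (I / 2)) s :=
      (Psi_hasDeriv hβ (ln_re s).ge).comp s (ln_hasDeriv s)
    have h2 : HasDerivAt (fun s : ℝ => (Psi β (ln s) - Psi β (ln T)) *
      Complex.exp (-(ell β (ln T)))) (Complex.exp (ell β (ln s)) * (I / 2) *
      Complex.exp (-(ell β (ln T)))) s := (h1.sub_const _).mul_const _
    have h3 := (Complex.reCLM.hasFDerivAt (x := (Psi β (ln s) - Psi β (ln T)) *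
      Complex.exp (-(ell β (ln T))))).comp_hasDerivAt s h2
    have h4 : HasDerivAt F ((Complex.exp (ell β (ln s)) * (I / 2) *
      Complex.exp (-(ell β (ln T)))).re) s := h3
    refine h4.congr_deriv ?_
    have e : Complex.exp (ell β (ln s)) * (I / 2) * Complex.exp (-(ell β (ln T))) =
        ((1 / 2 : ℝ) : ℂ) * (Complex.exp (ell β (ln s) - ell β (ln T)) * I) := by
      rw [sub_eq_add_neg, Complex.exp_add]; push_cast; ring
    rw [e, Complex.re_ofReal_mul, Complex.mul_I_re, Complex.exp_im, Complex.sub_im]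
    unfold psiT
    ring
  have hF0 : F T = 0 := by simp [hF]
  have hb1 := psiT_le hβ
  have hb2 := psiT_ge hβ
  have hpi := Real.pi_pos
  have hβ1 : 0 < 1 / β := by positivity
  have hb3 : 0 < 1 / β * (Real.pi / 2) := by positivity
  show F T' ≤ 0
  rw [← hF0]
  rcases le_total T T' with h | h
  · have hanti : AntitoneOn F (Ici T) := by
      apply antitoneOn_of_deriv_nonpos (convex_Ici T)
      · exact fun s _ => (hd s).continuousAt.continuousWithinAt
      · exact fun s _ => (hd s).differentiableAt.differentiableWithinAt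
      · intro s hs
        rw [interior_Ici] at hs
        rw [(hd s).deriv]
        have h1 : psiT β T ≤ psiT β s := psiT_mono hβ (le_of_lt hs)
        have h2 : 0 ≤ Real.sin (psiT β s - psiT β T) := by
          apply Real.sin_nonneg_of_nonneg_of_le_pi (by linarith)
          linarith [hb1 s, hb2 T]
        have := mul_nonneg (Real.exp_pos (ell β (ln s) - ell β (ln T)).re).le h2
        linarith
    exact hanti (mem_Ici.mpr le_rfl) (mem_Ici.mpr h) h
  · have hmono : MonotoneOn F (Iic T) := by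
      apply monotoneOn_of_deriv_nonneg (convex_Iic T)
      · exact fun s _ => (hd s).continuousAt.continuousWithinAt
      · exact fun s _ => (hd s).differentiableAt.differentiableWithinAt
      · intro s hs
        rw [interior_Iic] at hs
        rw [(hd s).deriv]
        have h1 : psiT β s ≤ psiT β T := psiT_mono hβ (le_of_lt hs)
        have h2 : Real.sin (psiT β s - psiT β T) ≤ 0 := by
          apply Real.sin_nonpos_of_nonpos_of_neg_pi_le (by linarith)
          linarith [hb1 T, hb2 s]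
        have := mul_nonpos_of_nonneg_of_nonpos (Real.exp_pos (ell β (ln s) - ell β (ln T)).re).le h2
        linarith
    exact hmono (mem_Iic.mpr h) (mem_Iic.mpr le_rfl) h

theorem Eu_norm (hβ : 1 < β) {v : ℂ} (hU : U β v ≠ 0) : ‖Eu β v‖ = ‖U β v‖ ^ (1 / β) := by
  unfold Eu
  have e : (1 / (β:ℂ)) * Complex.log (U β v) = ((1 / β : ℝ) : ℂ) * Complex.log (U β v) := by
    push_cast; rfl
  rw [e, Complex.norm_exp, Complex.re_ofReal_mul, Complex.log_re,
    Real.rpow_def_of_pos (norm_pos_iff.mpr hU), mul_comm]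

/-- lower bound of `v * Eu` at infinity -/
theorem vEu_lower (hβ : 1 < β) : ∃ c : ℝ, 0 < c ∧ ∀ᶠ v in Linf, c ≤ ‖v * Eu β v‖ := by
  have h1 : Tendsto (fun v => ‖U β v‖) Linf (𝓝 0) := by simpa using (U_tendsto hβ).norm
  have h2 := (U_mul_tendsto hβ).norm
  have hpos : 0 < ‖(β:ℂ) / (2 * β - 1)‖ := by
    have e2 : ((β:ℂ) / (2 * β - 1)) = ((β / (2 * β - 1) : ℝ) : ℂ) := by push_cast; rfl
    rw [e2, norm_pos_iff]
    have : 0 < β / (2 * β - 1) := div_pos (by linarith) (by linarith)
    exact_mod_cast this.ne'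
  refine ⟨‖(β:ℂ) / (2 * β - 1)‖ / 2, by positivity, ?_⟩
  filter_upwards [h1.eventually_le_const (show (0:ℝ) < 1 by norm_num),
    h2.eventually_const_le (show ‖(β:ℂ) / (2 * β - 1)‖ / 2 < ‖(β:ℂ) / (2 * β - 1)‖ by linarith),
    Linf_re] with v hv1 hv2 hv3
  have hU := U_ne' hβ hv3
  have h3 : ‖U β v‖ ≤ ‖U β v‖ ^ (1 / β) := by
    have h4 : ‖U β v‖ ^ (1:ℝ) ≤ ‖U β v‖ ^ (1 / β) := by
      apply Real.rpow_le_rpow_of_exponent_ge (norm_pos_iff.mpr hU) hv1
      rw [div_le_one (by linarith)]; exact hβ.le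
    rwa [Real.rpow_one] at h4
  rw [norm_mul] at hv2
  rw [norm_mul, Eu_norm hβ hU]
  exact hv2.trans (mul_le_mul_of_nonneg_left h3 (norm_nonneg _))

theorem Psi_tendsto (hβ : 1 < β) : Tendsto (fun v => ‖Psi β v‖) Linf atTop := by
  obtain ⟨c, hc, hev⟩ := vEu_lower hβ
  apply tendsto_atTop_mono' (f₁ := fun v : ℂ => ‖v‖ * c)
  · filter_upwards [hev] with v hv
    have : ‖Psi β v‖ = ‖v‖ * ‖v * Eu β v‖ := by
      unfold Psi; rw [norm_mul, norm_mul, norm_pow]; ring
    rw [this]
    exact mul_le_mul_of_nonneg_left hv (norm_nonneg _)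
  · exact Linf_norm.atTop_mul_const hc

/-- closure of the image -/
theorem closure_image (hβ : 1 < β) {w : ℂ} (hw : w ∈ closure (Psi β '' HH)) :
    ∃ v : ℂ, 1 / 2 ≤ v.re ∧ Psi β v = w := by
  have hev := (Psi_tendsto hβ).eventually_gt_atTop (‖w‖ + 1)
  unfold Linf at hev
  rw [eventually_inf_principal] at hev
  rw [← comap_norm_atTop, eventually_comap, eventually_atTop] at hev
  obtain ⟨R, hR⟩ := hev
  set K : Set ℂ := closedBall 0 R ∩ {v : ℂ | 1 / 2 ≤ v.re} with hK
  have hKc : IsCompact K := (isCompact_closedBall (0:ℂ) R).inter_right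
    (isClosed_le continuous_const Complex.continuous_re)
  have hcl : IsClosed (Psi β '' K) := by
    apply (hKc.image_of_continuousOn ?_).isClosed
    intro v hv
    exact (Psi_hasDeriv hβ hv.2).continuousAt.continuousWithinAt
  have h1 : Psi β '' HH ∩ ball w 1 ⊆ Psi β '' K := by
    rintro _ ⟨⟨v, hv, rfl⟩, hb⟩
    have hv2 : 1 / 2 ≤ v.re := le_of_lt hv
    refine ⟨v, ⟨?_, hv2⟩, rfl⟩
    rw [mem_closedBall_zero_iff]
    by_contra hcon
    push Not at hcon
    have h2 := hR ‖v‖ hcon.le v rfl hv2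
    rw [mem_ball, dist_eq_norm] at hb
    have h3 : ‖Psi β v‖ ≤ ‖Psi β v - w‖ + ‖w‖ := by
      have := norm_add_le (Psi β v - w) w
      simpa using this
    linarith
  have h2 : w ∈ closure (Psi β '' HH ∩ ball w 1) := by
    rw [mem_closure_iff_nhds] at hw ⊢
    intro t ht
    obtain ⟨x, hx1, hx2⟩ := hw (t ∩ ball w 1) (inter_mem ht (ball_mem_nhds w one_pos))
    exact ⟨x, hx1.1, hx2, hx1.2⟩
  have h3 : w ∈ Psi β '' K := hcl.closure_subset_iff.mpr h1 h2
  obtain ⟨v, hv, hvw⟩ := h3
  exact ⟨v, hv.2, hvw⟩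

/-- the tangent half planes lie in the image -/
theorem halfplane_subset (hβ : 1 < β) (T : ℝ) {w : ℂ}
    (hw : 0 < ((w - Psi β (ln T)) * Complex.exp (-(ell β (ln T)))).re) : w ∈ Psi β '' HH := by
  set S : Set ℂ := {w : ℂ | 0 < ((w - Psi β (ln T)) * Complex.exp (-(ell β (ln T)))).re} with hS
  have hconv : Convex ℝ S := by
    have h1 : Convex ℝ {z : ℂ | 0 < z.re} := convex_halfSpace_re_gt 0
    have h2 : S = (fun w : ℂ => (w - Psi β (ln T)) * Complex.exp (-(ell β (ln T)))) ⁻¹'
      {z : ℂ | 0 < z.re} := rfl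
    intro x hx y hy a b ha hb hab
    have hx' : 0 < ((x - Psi β (ln T)) * Complex.exp (-(ell β (ln T)))).re := hx
    have hy' : 0 < ((y - Psi β (ln T)) * Complex.exp (-(ell β (ln T)))).re := hy
    show 0 < ((a • x + b • y - Psi β (ln T)) * Complex.exp (-(ell β (ln T)))).re
    have e : (a • x + b • y - Psi β (ln T)) * Complex.exp (-(ell β (ln T))) =
        (a:ℂ) * ((x - Psi β (ln T)) * Complex.exp (-(ell β (ln T)))) +
        (b:ℂ) * ((y - Psi β (ln T)) * Complex.exp (-(ell β (ln T)))) := by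
      have hab' : (a:ℂ) + (b:ℂ) = 1 := by exact_mod_cast hab
      rw [Complex.real_smul, Complex.real_smul]
      linear_combination (-(Psi β (ln T)) * Complex.exp (-(ell β (ln T)))) * (-1 : ℂ) * hab'
    rw [e, Complex.add_re, Complex.re_ofReal_mul, Complex.re_ofReal_mul]
    rcases eq_or_lt_of_le ha with h | h
    · have : b = 1 := by linarith
      rw [← h, this]; linarith
    · have := mul_pos h hx'
      have := mul_nonneg hb hy'.le
      linarith
  have hsub : S ⊆ Psi β '' HH := by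
    apply hconv.isPreconnected.subset_of_closure_inter_subset (Psi_image_open hβ)
    · -- nonempty
      have h1 : HasDerivAt (fun s : ℝ => Psi β (ln T + (s:ℂ))) (Complex.exp (ell β (ln T))) 0 := by
        have h2 : HasDerivAt (fun s : ℂ => ln T + s) 1 ((0:ℝ):ℂ) := (hasDerivAt_id _).const_add _
        have h3 : HasDerivAt (Psi β) (Complex.exp (ell β (ln T))) (ln T + ((0:ℝ):ℂ)) := by
          rw [Complex.ofReal_zero, add_zero]; exact Psi_hasDeriv hβ (ln_re T).ge
        have h4 := (h3.comp _ h2).comp_ofReal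
        rw [mul_one] at h4
        exact h4
      have h2 : HasDerivAt (fun s : ℝ => ((Psi β (ln T + (s:ℂ)) - Psi β (ln T)) *
        Complex.exp (-(ell β (ln T)))).re) 1 0 := by
        have h3 : HasDerivAt (fun s : ℝ => (Psi β (ln T + (s:ℂ)) - Psi β (ln T)) *
          Complex.exp (-(ell β (ln T)))) (Complex.exp (ell β (ln T)) *
          Complex.exp (-(ell β (ln T)))) 0 := (h1.sub_const _).mul_const _
        have h4 := (Complex.reCLM.hasFDerivAt
          (x := (Psi β (ln T + ((0:ℝ):ℂ)) - Psi β (ln T)) *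
          Complex.exp (-(ell β (ln T))))).comp_hasDerivAt (0:ℝ) h3
        have e : Complex.exp (ell β (ln T)) * Complex.exp (-(ell β (ln T))) = 1 := by
          rw [← Complex.exp_add]; simp
        rw [e] at h4
        have h5 : HasDerivAt (fun s : ℝ => ((Psi β (ln T + (s:ℂ)) - Psi β (ln T)) *
          Complex.exp (-(ell β (ln T)))).re) ((1:ℂ).re) 0 := h4
        simpa using h5
      have h3 := (hasDerivAt_iff_tendsto_slope.mp h2).eventually_const_lt (zero_lt_one)
      have h4 : ∀ᶠ s in 𝓝[>] (0:ℝ), 0 < slope (fun s : ℝ => ((Psi β (ln T + (s:ℂ)) - Psi β (ln T)) *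
        Complex.exp (-(ell β (ln T)))).re) 0 s :=
        h3.filter_mono (nhdsWithin_mono _ (fun s hs => ne_of_gt hs))
      obtain ⟨s, hs1, hs2⟩ := (h4.and self_mem_nhdsWithin).exists
      have hs0 : (0:ℝ) < s := hs2
      rw [slope_def_field] at hs1
      simp only [Complex.ofReal_zero, add_zero, sub_self, zero_mul, Complex.zero_re, sub_zero] at hs1
      refine ⟨Psi β (ln T + s), ?_, ⟨ln T + s, ?_, rfl⟩⟩
      · show 0 < ((Psi β (ln T + s) - Psi β (ln T)) * Complex.exp (-(ell β (ln T)))).re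
        have := mul_pos hs1 hs0
        rwa [div_mul_cancel₀ _ hs0.ne'] at this
      · show 1 / 2 < (ln T + (s:ℂ)).re
        rw [Complex.add_re, ln_re]; simp; exact hs0
    · rintro x ⟨hx1, hx2⟩
      obtain ⟨v, hv, rfl⟩ := closure_image hβ hx1
      rcases eq_or_lt_of_le hv with h | h
      · exfalso
        obtain ⟨T', rfl⟩ := eq_ln_of_re h.symm
        have h1 := line_ineq hβ T T'
        have h2 : 0 < ((Psi β (ln T') - Psi β (ln T)) * Complex.exp (-(ell β (ln T)))).re := hx2
        linarith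
      · exact ⟨v, h, rfl⟩
  exact hsub hw

end Pool.Agent.H21R3
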