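import Mathlib
import Pool.Agent.H21R3.Psi

set_option autoImplicit false

/-!
The key midpoint property of the image of `Psi`.
-/

namespace Pool.Agent.H21R3

open Complex Metric Set Filter Topology

variable {β : ℝ}

theorem omit_line (hβ : 1 < β) {e : ℂ} (he : e ∉ Psi β '' HH) (T : ℝ) :
    0 ≤ ((Psi β (ln T) - e) * Complex.exp (-(ell β (ln T)))).re := by
  by_contra h
  push Not at h
  apply he
  apply halfplane_subset hβ T
  have : (e - Psi β (ln T)) * Complex.exp (-(ell β (ln T))) =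
      -((Psi β (ln T) - e) * Complex.exp (-(ell β (ln T)))) := by ring
  rw [this, Complex.neg_re]
  linarith

noncomputable def NN (β : ℝ) (e v : ℂ) : ℂ := (Psi β v - e) * Complex.exp (-(ell β v))

theorem NN_eq (hβ : 1 < β) (e : ℂ) {v : ℂ} (hv : 1 / 2 ≤ v.re) :
    NN β e v = v / gg β v - e / (gg β v * (v * Eu β v)) := by
  have hv0 : v ≠ 0 := by rintro rfl; simp at hv; linarith
  have hg := gg_ne' hβ hv
  have hE : Eu β v ≠ 0 := Eu_ne v
  unfold NN Psi
  rw [Complex.exp_neg, exp_ell hβ hv]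
  field_simp

theorem gg_norm_ge (hβ : 1 < β) {v : ℂ} (hv : 1 / 2 ≤ v.re) : 1 / β ≤ ‖gg β v‖ := by
  have h1 := gg_near' hβ hv
  have h2 : ‖(1:ℂ)‖ ≤ ‖gg β v‖ + ‖gg β v - 1‖ := by
    have h3 := norm_sub_le (gg β v) (gg β v - 1)
    have : gg β v - (gg β v - 1) = 1 := by ring
    rwa [this] at h3
  rw [norm_one] at h2
  have h3 : (β - 1) / β = 1 - 1 / β := by
    have : β ≠ 0 := by linarith
    field_simp
  linarith

theorem NN_second (hβ : 1 < β) (e : ℂ) : ∃ C : ℝ, 0 ≤ C ∧
    ∀ᶠ v in Linf, ‖e / (gg β v * (v * Eu β v))‖ ≤ C := by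
  obtain ⟨c, hc, hev⟩ := vEu_lower hβ
  have hβ0 : 0 < β := by linarith
  refine ⟨‖e‖ / (1 / β * c), by positivity, ?_⟩
  filter_upwards [hev, Linf_re] with v hv hre
  rw [norm_div, norm_mul (gg β v)]
  apply div_le_div_of_nonneg_left (norm_nonneg _) (by positivity)
  exact mul_le_mul (gg_norm_ge hβ hre) hv hc.le (norm_nonneg _)

/-- the lower bound for `Re N` -/
theorem NN_re (hβ : 1 < β) {e : ℂ} (he : e ∉ Psi β '' HH) {v : ℂ} (hv : 1 / 2 ≤ v.re) :
    (v.re - 1 / 2) / 2 ≤ (NN β e v).re := by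
  have hβ0 : 0 < β := by linarith
  obtain ⟨C, hC0, hC⟩ := NN_second hβ e
  set f : ℂ → ℂ := fun w => Complex.exp (-(NN β e (w + 1 / 2) - w / 2)) with hf
  have hre : ∀ w : ℂ, 0 ≤ w.re → 1 / 2 ≤ (w + 1 / 2).re := by
    intro w hw
    simp
    exact hw
  have hfn : ∀ w, ‖f w‖ = Real.exp (-((NN β e (w + 1 / 2)).re - w.re / 2)) := by
    intro w
    rw [hf]
    simp only
    rw [Complex.norm_exp]
    congr 1
    rw [Complex.neg_re, Complex.sub_re]
    have : w / 2 = ((1 / 2 : ℝ) : ℂ) * w := by push_cast; ring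
    rw [this, Complex.re_ofReal_mul]
    ring
  have hdiff : ∀ w : ℂ, 0 ≤ w.re → DifferentiableAt ℂ f w := by
    intro w hw
    have h2 : HasDerivAt (fun w : ℂ => w + 1 / 2) 1 w := (hasDerivAt_id w).add_const _
    have h1' : HasDerivAt (fun w => ell β (w + 1 / 2)) _ w :=
      HasDerivAt.comp w (ell_hasDeriv hβ (hre w hw)) h2
    have h3' : HasDerivAt (fun w => Psi β (w + 1 / 2)) _ w :=
      HasDerivAt.comp w (Psi_hasDeriv hβ (hre w hw)) h2
    have h1 := h1'.differentiableAt
    have h3 := h3'.differentiableAt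
    have h4 : DifferentiableAt ℂ (fun w => NN β e (w + 1 / 2)) w := by
      unfold NN
      exact (h3.sub_const e).mul (h1.neg.cexp)
    exact (h4.sub (differentiableAt_id.div_const 2)).neg.cexp
  have key := PhragmenLindelof.right_half_plane_of_bounded_on_real (f := f)
    (C := 1) ?_ ?_ ?_ ?_ (z := v - 1 / 2) ?_
  · rw [hfn, ← Real.exp_zero] at key
    have h1 := Real.exp_le_exp.mp key
    have e1 : v - 1 / 2 + 1 / 2 = v := by ring
    rw [e1, Complex.sub_re] at h1
    have : (1 / 2 : ℂ).re = 1 / 2 := by simp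
    rw [this] at h1
    linarith
  · refine ⟨fun w hw => (hdiff w (le_of_lt hw)).differentiableWithinAt, ?_⟩
    rw [Complex.closure_setOfPred_lt_re 0]
    exact fun w hw => (hdiff w hw).continuousAt.continuousWithinAt
  · refine ⟨1, by norm_num, 2 * β + C + 1, ?_⟩
    apply Asymptotics.IsBigO.of_bound 1
    have hlim : Tendsto (fun w : ℂ => w + 1 / 2) (Bornology.cobounded ℂ ⊓ 𝓟 {z | 0 < z.re}) Linf := by
      unfold Linf
      rw [tendsto_inf, tendsto_principal]
      constructor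
      · rw [← tendsto_norm_atTop_iff_cobounded]
        apply tendsto_atTop_mono (f := fun w : ℂ => ‖w‖ + -(1:ℝ))
        · intro w
          have h1 := norm_sub_le (w + 1 / 2) (1 / 2)
          have e1 : w + 1 / 2 - 1 / 2 = w := by ring
          have e2 : ‖(1 / 2 : ℂ)‖ ≤ 1 := by simp; norm_num
          rw [e1] at h1
          linarith
        · exact tendsto_atTop_add_const_right _ _
            (tendsto_norm_cobounded_atTop.mono_left inf_le_left)
      · refine eventually_inf_principal.mpr (Eventually.of_forall (fun w hw => ?_))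
        exact hre w (le_of_lt hw)
    have hn1 : ∀ᶠ w : ℂ in Bornology.cobounded ℂ ⊓ 𝓟 {z | 0 < z.re}, 1 ≤ ‖w‖ :=
      (tendsto_norm_cobounded_atTop.mono_left inf_le_left).eventually_ge_atTop 1
    filter_upwards [hlim.eventually hC, hlim.eventually Linf_re, hn1] with w hw1 hw2 hw3
    rw [hfn, one_mul, Real.norm_of_nonneg (Real.exp_pos _).le, Real.rpow_one]
    apply Real.exp_le_exp.mpr
    have h1 : |(NN β e (w + 1 / 2)).re| ≤ ‖NN β e (w + 1 / 2)‖ := Complex.abs_re_le_norm _
    have h2 : ‖NN β e (w + 1 / 2)‖ ≤ β * (‖w‖ + 1) + C := by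
      rw [NN_eq hβ e hw2]
      refine (norm_sub_le _ _).trans (add_le_add ?_ hw1)
      rw [norm_div]
      have hg := gg_norm_ge hβ hw2
      have hgpos : 0 < ‖gg β (w + 1 / 2)‖ := lt_of_lt_of_le (by positivity) hg
      rw [div_le_iff₀ hgpos]
      have h3 : ‖w + 1 / 2‖ ≤ ‖w‖ + 1 := by
        refine (norm_add_le _ _).trans ?_
        have e2 : ‖(1 / 2 : ℂ)‖ ≤ 1 := by simp; norm_num
        linarith
      have h4 : (‖w‖ + 1) * 1 ≤ β * (‖w‖ + 1) * ‖gg β (w + 1 / 2)‖ := by
        have h5 : 1 ≤ β * ‖gg β (w + 1 / 2)‖ := by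
          rw [div_le_iff₀ hβ0] at hg; linarith
        have h6 := mul_le_mul_of_nonneg_left h5 (by positivity : 0 ≤ ‖w‖ + 1)
        linarith
      linarith
    have h3 : w.re ≤ ‖w‖ := Complex.re_le_norm w
    have h4 := (abs_le.mp h1).1
    have h5 : β * (‖w‖ + 1) + C ≤ (2 * β + C) * ‖w‖ := by nlinarith
    have h6 := norm_nonneg w
    linarith
  · have hlim : Tendsto (fun x : ℝ => (x:ℂ) + 1 / 2) atTop Linf := by
      unfold Linf
      rw [tendsto_inf, tendsto_principal]
      constructor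
      · rw [← tendsto_norm_atTop_iff_cobounded]
        apply tendsto_atTop_mono (f := fun x : ℝ => x)
        · intro x
          have h1 := Complex.re_le_norm ((x:ℂ) + 1 / 2)
          simp at h1
          have e3 : (x:ℂ) + 2⁻¹ = (x:ℂ) + 1 / 2 := by norm_num
          rw [e3] at h1
          linarith
        · exact tendsto_id
      · filter_upwards [eventually_ge_atTop 0] with x hx
        exact hre _ (by simpa using hx)
    have hginv : Tendsto (fun v => ((gg β v)⁻¹).re) Linf (𝓝 (β / (2 * β - 1))) := by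
      have hne : (2 * (β:ℂ) - 1) / β ≠ 0 := by
        have e1 : ((2 * (β:ℂ) - 1) / β) = (((2 * β - 1) / β : ℝ) : ℂ) := by push_cast; rfl
        rw [e1]
        have : 0 < (2 * β - 1) / β := div_pos (by linarith) hβ0
        exact_mod_cast this.ne'
      have h1 := (gg_tendsto hβ).inv₀ hne
      have h2 := (Complex.continuous_re.tendsto _).comp h1
      have e2 : (((2 * (β:ℂ) - 1) / β)⁻¹).re = β / (2 * β - 1) := by
        have : ((2 * (β:ℂ) - 1) / β)⁻¹ = ((β / (2 * β - 1) : ℝ) : ℂ) := by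
          rw [inv_div]; push_cast; rfl
        rw [this, Complex.ofReal_re]
      rw [e2] at h2
      exact h2
    have hhalf : (1:ℝ) / 2 < β / (2 * β - 1) := by
      rw [div_lt_div_iff₀ (by norm_num) (by linarith)]
      linarith
    refine ⟨Real.exp C, ?_⟩
    rw [eventually_map]
    filter_upwards [hlim.eventually hC, hlim.eventually (hginv.eventually_const_le hhalf),
      hlim.eventually Linf_re, eventually_ge_atTop 0] with x hx1 hx2 hx3 hx4
    rw [hfn]
    apply Real.exp_le_exp.mpr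
    rw [NN_eq hβ e hx3, Complex.sub_re]
    have h1 : (((x:ℂ) + 1 / 2) / gg β ((x:ℂ) + 1 / 2)).re =
        (x + 1 / 2) * ((gg β ((x:ℂ) + 1 / 2))⁻¹).re := by
      have : ((x:ℂ) + 1 / 2) / gg β ((x:ℂ) + 1 / 2) =
        ((x + 1 / 2 : ℝ) : ℂ) * (gg β ((x:ℂ) + 1 / 2))⁻¹ := by push_cast; rw [div_eq_mul_inv]
      rw [this, Complex.re_ofReal_mul]
    have h2 : (x + 1 / 2) * (1 / 2) ≤ (x + 1 / 2) * ((gg β ((x:ℂ) + 1 / 2))⁻¹).re :=
      mul_le_mul_of_nonneg_left hx2 (by linarith)
    have h3 := Complex.re_le_norm (e / (gg β ((x:ℂ) + 1 / 2) * (((x:ℂ) + 1 / 2) *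
      Eu β ((x:ℂ) + 1 / 2))))
    rw [h1, Complex.ofReal_re]
    linarith
  · intro x
    rw [hfn, ← Real.exp_zero]
    apply Real.exp_le_exp.mpr
    have h1 := omit_line hβ he (2 * x)
    have h2 : ln (2 * x) = (x:ℂ) * I + 1 / 2 := by unfold ln; push_cast; ring
    rw [h2] at h1
    have h3 : ((x:ℂ) * I).re = 0 := by simp
    rw [h3]
    unfold NN
    linarith
  · simp only [Complex.sub_re]
    have : (1 / 2 : ℂ).re = 1 / 2 := by simp
    rw [this]; linarith

/-- **Key midpoint property (A).** -/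
theorem midpoint_mem (hβ : 1 < β) {v v₁ : ℂ} (hv : v ∈ HH) (hv₁ : v₁ ∈ HH) :
    Psi β v + (1 / 2) * Complex.exp (ell β v) * (v₁ - v) ∈ Psi β '' HH := by
  by_contra h
  have hv' : 1 / 2 < v.re := hv
  have hv₁' : 1 / 2 < v₁.re := hv₁
  have h1 := NN_re hβ h hv'.le
  unfold NN at h1
  have h2 : (Psi β v - (Psi β v + (1 / 2) * Complex.exp (ell β v) * (v₁ - v))) *
      Complex.exp (-(ell β v)) = ((1 / 2 : ℝ) : ℂ) * (v - v₁) := by
    have e : Complex.exp (ell β v) * Complex.exp (-(ell β v)) = 1 := by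
      rw [← Complex.exp_add]; simp
    push_cast
    linear_combination ((1 / 2) * (v - v₁)) * e
  rw [h2, Complex.re_ofReal_mul, Complex.sub_re] at h1
  linarith

end Pool.Agent.H21R3
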