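import Mathlib
import Pool.Agent.H21R3.Concave

set_option autoImplicit false

/-!
The functions `PD = p - 1` and `hD = f_alpha / z` in the disc.
-/

namespace Pool.Agent.H21R3

open Complex Metric Set Filter Topology

variable {β : ℝ}

noncomputable def PD (β : ℝ) (ζ : ℂ) : ℂ := 1 / U β ((1 - ζ)⁻¹) - 1

noncomputable def hD (β : ℝ) (ζ : ℂ) : ℂ := Psi β ((1 - ζ)⁻¹)

noncomputable def LD (β : ℝ) (ζ : ℂ) : ℂ :=
  Complex.log ((1 - ζ)⁻¹) + Complex.log (gg β ((1 - ζ)⁻¹))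

theorem LD_hasDeriv (hβ : 1 < β) {ζ : ℂ} (hζ : ζ ∈ ball (0:ℂ) 1) :
    HasDerivAt (LD β) ((((1 - ζ)⁻¹)⁻¹ + gg' β ((1 - ζ)⁻¹) / gg β ((1 - ζ)⁻¹)) *
      ((1 - ζ)⁻¹) ^ 2) ζ := by
  have h := comp_v_hasDeriv (F := fun v => Complex.log v + Complex.log (gg β v))
    (F' := fun v => v⁻¹ + gg' β v / gg β v) (fun v hv => by
      have hv' : 0 < v.re := by linarith
      have h1 : HasDerivAt Complex.log v⁻¹ v := Complex.hasDerivAt_log (Or.inl hv')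
      have h2 := (gg_hasDeriv hβ hv' (U_ne' hβ hv.le)).clog (Or.inl (gg_re_pos' hβ hv.le))
      exact h1.add h2) hζ
  exact h

theorem LD_eq (hβ : 1 < β) {ζ : ℂ} (hζ : ζ ∈ ball (0:ℂ) 1) :
    1 + ζ * deriv (LD β) ζ = (1 - ζ)⁻¹ + etaF β ((1 - ζ)⁻¹) := by
  rw [(LD_hasDeriv hβ hζ).deriv]
  have hv := disc_to_H hζ
  have hz := zeta_v hζ
  have hode := gg_ode' hβ (half_pos_re hv) (U_ne hβ hv) (gg_ne hβ hv)
  have hg := gg_ne hβ hv
  have hv0 : (1 - ζ)⁻¹ ≠ 0 := inv_ne_zero (one_sub_ne hζ)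
  generalize (1 - ζ)⁻¹ = v at *
  have e : 1 + ζ * ((v⁻¹ + gg' β v / gg β v) * v ^ 2) =
      1 + (ζ * v ^ 2) * v⁻¹ + ((ζ * v ^ 2) * gg' β v) / gg β v := by
    field_simp
    ring
  rw [e, hz, hode]
  field_simp
  ring

theorem LD_pos (hβ : 1 < β) : ∀ ζ ∈ ball (0:ℂ) 1, 0 < (1 + ζ * deriv (LD β) ζ).re := by
  intro ζ hζ
  rw [LD_eq hβ hζ, Complex.add_re]
  have h1 := disc_to_H hζ
  have h2 := etaF_re hβ _ h1
  linarith

theorem LD_diffOn (hβ : 1 < β) : DifferentiableOn ℂ (LD β) (ball 0 1) := fun _ hζ =>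
  (LD_hasDeriv hβ hζ).differentiableAt.differentiableWithinAt

theorem PD_eq (hβ : 1 < β) {ζ : ℂ} (hζ : ζ ∈ ball (0:ℂ) 1) :
    PD β ζ = ζ * Complex.exp (LD β ζ) := by
  have hv := disc_to_H hζ
  have hU := U_ne hβ hv
  have hg := gg_ne hβ hv
  have hv0 : (1 - ζ)⁻¹ ≠ 0 := inv_ne_zero (one_sub_ne hζ)
  have hone := one_eq hβ (half_pos_re hv)
  have hz : ζ * (1 - ζ)⁻¹ = (1 - ζ)⁻¹ - 1 := by
    have := one_sub_ne hζ
    field_simp
    ring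
  unfold PD LD
  rw [Complex.exp_add, Complex.exp_log hv0, Complex.exp_log hg, ← mul_assoc, hz]
  generalize (1 - ζ)⁻¹ = v at *
  unfold gg
  rw [eq_comm, ← sub_eq_zero]
  field_simp
  linear_combination (-1 : ℂ) * hone

theorem PD_congr (hβ : 1 < β) : EqOn (PD β) (fun z => z * Complex.exp (LD β z)) (ball 0 1) :=
  fun _ hζ => PD_eq hβ hζ

theorem PD_hasDeriv (hβ : 1 < β) {ζ : ℂ} (hζ : ζ ∈ ball (0:ℂ) 1) :
    HasDerivAt (PD β) (Complex.exp (LD β ζ) * (1 + ζ * deriv (LD β) ζ)) ζ := by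
  have h1 := Pool.Agent.Helper968.Schild.starlike_aux_hasDeriv (LD_diffOn hβ) ζ hζ
  refine h1.congr_of_eventuallyEq ?_
  filter_upwards [isOpen_ball.mem_nhds hζ] with z hz
  exact PD_eq hβ hz

theorem PD_diffOn (hβ : 1 < β) : DifferentiableOn ℂ (PD β) (ball 0 1) := fun _ hζ =>
  (PD_hasDeriv hβ hζ).differentiableAt.differentiableWithinAt

theorem PD_deriv_ne (hβ : 1 < β) : ∀ ζ ∈ ball (0:ℂ) 1, deriv (PD β) ζ ≠ 0 := by
  intro ζ hζ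
  rw [(PD_hasDeriv hβ hζ).deriv]
  apply mul_ne_zero (Complex.exp_ne_zero _)
  intro h
  have := LD_pos hβ ζ hζ
  rw [h] at this
  simp at this

theorem PD_inj (hβ : 1 < β) : InjOn (PD β) (ball 0 1) := by
  have h := (Pool.Agent.Helper968.Schild.starlike_of_pos (LD_diffOn hβ) (LD_pos hβ)).1
  intro x hx y hy hxy
  apply h hx hy
  simp only
  rw [← PD_eq hβ hx, ← PD_eq hβ hy, hxy]

theorem PD_zero (hβ : 1 < β) : PD β 0 = 0 := by
  unfold PD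
  simp [U_one hβ]

/-- Lemma T: radial points in the image of `PD` have preimages of smaller modulus -/
theorem PD_radial (hβ : 1 < β) {ζ : ℂ} (hζ : ζ ∈ ball (0:ℂ) 1) {a : ℝ} (ha0 : 0 ≤ a) (ha1 : a ≤ 1) :
    ∃ ζ₂ : ℂ, ‖ζ₂‖ ≤ ‖ζ‖ ∧ PD β ζ₂ = a * PD β ζ := by
  have hstar := (Pool.Agent.Helper968.Schild.starlike_of_pos (LD_diffOn hβ) (LD_pos hβ)).2
  rw [starConvex_zero_iff] at hstar
  refine subord_of_range (PD_diffOn hβ) (PD_inj hβ) (PD_deriv_ne hβ) (g := fun z => a * PD β z)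
    ((PD_diffOn hβ).const_mul _) (by simp [PD_zero hβ]) ?_ ζ hζ
  intro z hz
  have h1 := hstar (x := PD β z) ⟨z, hz, (PD_eq hβ hz).symm⟩ ha0 ha1
  obtain ⟨y, hy, hye⟩ := h1
  refine ⟨y, hy, ?_⟩
  have hye' : y * Complex.exp (LD β y) = a • PD β z := hye
  rw [PD_eq hβ hy, hye', Complex.real_smul]

theorem hD_hasDeriv (hβ : 1 < β) {ζ : ℂ} (hζ : ζ ∈ ball (0:ℂ) 1) :
    HasDerivAt (hD β) (Complex.exp (ell β ((1 - ζ)⁻¹)) * ((1 - ζ)⁻¹) ^ 2) ζ :=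
  comp_v_hasDeriv (F := Psi β) (F' := fun v => Complex.exp (ell β v))
    (fun v hv => Psi_hasDeriv hβ hv.le) hζ

theorem hD_diffOn (hβ : 1 < β) : DifferentiableOn ℂ (hD β) (ball 0 1) := fun _ hζ =>
  (hD_hasDeriv hβ hζ).differentiableAt.differentiableWithinAt

theorem hD_deriv_ne (hβ : 1 < β) : ∀ ζ ∈ ball (0:ℂ) 1, deriv (hD β) ζ ≠ 0 := by
  intro ζ hζ
  rw [(hD_hasDeriv hβ hζ).deriv]
  exact mul_ne_zero (Complex.exp_ne_zero _) (pow_ne_zero 2 (inv_ne_zero (one_sub_ne hζ)))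

theorem hD_inj (hβ : 1 < β) : InjOn (hD β) (ball 0 1) := by
  intro x hx y hy hxy
  have h1 := Psi_inj hβ (show (1 - x)⁻¹ ∈ HH from disc_to_H hx)
    (show (1 - y)⁻¹ ∈ HH from disc_to_H hy) hxy
  have h2 := inv_injective h1
  linear_combination (-1 : ℂ) * h2

theorem Psi_one (hβ : 1 < β) : Psi β 1 = 1 := by
  unfold Psi Eu
  rw [U_one hβ]
  simp

theorem hD_zero (hβ : 1 < β) : hD β 0 = 1 := by
  unfold hD
  simp [Psi_one hβ]

theorem hD_ne (hβ : 1 < β) {ζ : ℂ} (hζ : ζ ∈ ball (0:ℂ) 1) : hD β ζ ≠ 0 := by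
  unfold hD Psi
  exact mul_ne_zero (pow_ne_zero 2 (inv_ne_zero (one_sub_ne hζ))) (Eu_ne _)

/-- logarithmic derivative of `hD` -/
theorem hD_log (hβ : 1 < β) {ζ : ℂ} (hζ : ζ ∈ ball (0:ℂ) 1) :
    ζ * deriv (hD β) ζ = PD β ζ * hD β ζ := by
  have hv := disc_to_H hζ
  have hU := U_ne hβ hv
  have hone := one_eq hβ (half_pos_re hv)
  have hz := zeta_v hζ
  rw [(hD_hasDeriv hβ hζ).deriv]
  unfold PD hD Psi
  rw [exp_ell hβ hv.le]
  have e : ∀ A : ℂ, ζ * (A * ((1 - ζ)⁻¹) ^ 2) = (ζ * ((1 - ζ)⁻¹) ^ 2) * A := fun A => by ring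
  rw [e, hz]
  generalize (1 - ζ)⁻¹ = v at *
  unfold gg
  field_simp
  linear_combination (-(Eu β v) * v ^ 2) * hone

/-- `ζ PD' = β p (q - p)` -/
theorem PD_ode (hβ : 1 < β) {ζ : ℂ} (hζ : ζ ∈ ball (0:ℂ) 1) :
    ζ * deriv (PD β) ζ = β * (PD β ζ + 1) * ((2 * (1 - ζ)⁻¹ - 1) - (PD β ζ + 1)) := by
  have hv := disc_to_H hζ
  have hU := U_ne hβ hv
  have hz := zeta_v hζ
  have h1 : HasDerivAt (PD β) ((-(2 * β * (Ep β ((1 - ζ)⁻¹) - U β ((1 - ζ)⁻¹)) / (1 - ζ)⁻¹) /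
      (U β ((1 - ζ)⁻¹)) ^ 2) * ((1 - ζ)⁻¹) ^ 2) ζ := by
    have h2 := comp_v_hasDeriv (F := fun v => 1 / U β v - 1)
      (F' := fun v => -(2 * β * (Ep β v - U β v) / v) / (U β v) ^ 2) (fun v hv => by
        have hv' : 0 < v.re := by linarith
        have h3 := ((U_hasDeriv hβ hv').inv (U_ne' hβ hv.le)).sub_const 1
        have e : (fun v => 1 / U β v - 1) = fun v => (U β v)⁻¹ - 1 := by
          funext v; rw [one_div]
        rw [e]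
        exact h3) hζ
    exact h2
  rw [h1.deriv]
  have hode := U_ode hβ (half_pos_re hv)
  have e : ∀ A : ℂ, ζ * (A * ((1 - ζ)⁻¹) ^ 2) = (ζ * ((1 - ζ)⁻¹) ^ 2) * A := fun A => by ring
  rw [e, hz]
  unfold PD
  generalize (1 - ζ)⁻¹ = v at *
  generalize (2 * β * (Ep β v - U β v) / v) = U' at *
  generalize U β v = u at *
  field_simp
  linear_combination (-1 : ℂ) * hode

end Pool.Agent.H21R3
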