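import Mathlib
import Pool.Agent.H21R3.Hull
import Pool.Agent.H21R3.PDisc

set_option autoImplicit false

/-!
Finite convex combinations of the kernels `1/(1 - x z)`.
-/

namespace Pool.Agent.H21R3

open Complex Metric Set Filter Topology MeasureTheory

theorem cf_congr {F G : ℂ → ℂ} (h : EqOn F G (ball 0 1)) (n : ℕ) : cf n F = cf n G := by
  unfold cf
  have h1 : F =ᶠ[𝓝 0] G := by
    filter_upwards [ball_mem_nhds (0:ℂ) one_pos] with z hz
    exact h hz
  rw [h1.iteratedDeriv_eq n]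

theorem cf_shift {F : ℂ → ℂ} (hF : DifferentiableOn ℂ F (ball 0 1)) (n : ℕ) :
    cf (n + 1) (fun z => z * F z) = cf n F := by
  have hr : (0:ℝ) < 1 / 2 := by norm_num
  have hr1 : (1:ℝ) / 2 < 1 := by norm_num
  have h1 := cf_circle hF n hr hr1
  have h2 := cf_circle (differentiableOn_id.mul hF) (n + 1) hr hr1
  have h5 : (2 * Real.pi : ℂ) ≠ 0 := by
    have : (2 * Real.pi : ℝ) ≠ 0 := by positivity
    exact_mod_cast this
  apply mul_left_cancel₀ h5
  have h6 : (2 * (Real.pi:ℂ)) * cf (n + 1) (fun z => z * F z) =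
    2 * Real.pi * cf (n + 1) (id * F) := rfl
  rw [h6, ← h1, ← h2]
  apply intervalIntegral.integral_congr
  intro θ _
  have := circleMap_ne hr θ
  simp only [Pi.mul_apply, id]
  rw [pow_succ]
  field_simp

theorem iteratedDeriv_rot (F : ℂ → ℂ) (w : ℂ) (n : ℕ) :
    iteratedDeriv n (fun z => F (w * z)) = fun z => w ^ n * iteratedDeriv n F (w * z) := by
  induction n with
  | zero => simp
  | succ n ih =>
    funext z
    rw [iteratedDeriv_succ, ih]
    have h1 : deriv (fun z => w ^ n * iteratedDeriv n F (w * z)) z =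
        w ^ n * deriv (fun z => iteratedDeriv n F (w * z)) z := deriv_const_mul_field _
    have h2 : deriv (fun z => iteratedDeriv n F (w * z)) z =
        w • deriv (iteratedDeriv n F) (w * z) := deriv_comp_mul_left w (iteratedDeriv n F) z
    rw [h1, h2, ← iteratedDeriv_succ, smul_eq_mul]
    ring

theorem cf_rot (F : ℂ → ℂ) (w : ℂ) (n : ℕ) : cf n (fun z => F (w * z)) = w ^ n * cf n F := by
  unfold cf
  rw [iteratedDeriv_rot]
  simp only [mul_zero]
  ring

theorem kern_diff : DifferentiableOn ℂ (fun z : ℂ => (1 - z)⁻¹) (ball 0 1) := fun _ hz =>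
  (hasDeriv_v hz).differentiableAt.differentiableWithinAt

theorem cf_kern (n : ℕ) : cf n (fun z : ℂ => (1 - z)⁻¹) = 1 := by
  induction n with
  | zero => rw [cf_zero_eq]; simp
  | succ n ih =>
    have h1 : EqOn (fun z : ℂ => (1 - z)⁻¹) (fun z => 1 + z * (1 - z)⁻¹) (ball 0 1) := by
      intro z hz
      have := one_sub_ne hz
      simp only
      field_simp
      ring
    have hd1 : DifferentiableOn ℂ (fun _ : ℂ => (1:ℂ)) (ball 0 1) := differentiableOn_const 1
    have hd2 : DifferentiableOn ℂ (fun z : ℂ => z * (1 - z)⁻¹) (ball 0 1) :=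
      differentiableOn_id.mul kern_diff
    rw [cf_congr h1, cf_add hd1 hd2]
    rw [cf_shift kern_diff, ih]
    have h2 : cf (n + 1) (fun _ : ℂ => (1:ℂ)) = 0 := by
      unfold cf
      rw [iteratedDeriv_const]
      simp
    rw [h2, zero_add]

theorem rot_mem {x z : ℂ} (hx : ‖x‖ = 1) (hz : z ∈ ball (0:ℂ) 1) : x * z ∈ ball (0:ℂ) 1 := by
  rw [mem_ball_zero_iff, norm_mul, hx, one_mul]
  exact mem_ball_zero_iff.mp hz

theorem HH_convex : Convex ℝ HH := convex_halfSpace_re_gt (1 / 2)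

/-- convex combination of kernels -/
noncomputable def VV {N : ℕ} (q : (Fin N → ℝ) × (Fin N → ℂ)) (z : ℂ) : ℂ :=
  ∑ j, (q.1 j : ℂ) * (1 - q.2 j * z)⁻¹

variable {N : ℕ} {q : (Fin N → ℝ) × (Fin N → ℂ)}

theorem Par_norm (hq : q ∈ Par N) (j : Fin N) : ‖q.2 j‖ = 1 := by
  have := hq.2 j (mem_univ j)
  simpa using this

theorem VV_mem (hq : q ∈ Par N) {z : ℂ} (hz : z ∈ ball (0:ℂ) 1) : VV q z ∈ HH := by
  have h1 : VV q z = ∑ j, q.1 j • (1 - q.2 j * z)⁻¹ := by
    unfold VV
    apply Finset.sum_congr rfl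
    intro j _
    rw [Complex.real_smul]
  rw [h1]
  apply HH_convex.sum_mem
  · intro j _; exact hq.1.1 j
  · exact hq.1.2
  · intro j _
    exact disc_to_H (rot_mem (Par_norm hq j) hz)

theorem kern_rot_diff {x : ℂ} (hx : ‖x‖ = 1) :
    DifferentiableOn ℂ (fun z : ℂ => (1 - x * z)⁻¹) (ball 0 1) := by
  intro z hz
  have h1 : DifferentiableAt ℂ (fun z : ℂ => 1 - x * z) z := by fun_prop
  exact (h1.inv (one_sub_ne (rot_mem hx hz))).differentiableWithinAt

theorem VV_diff (hq : q ∈ Par N) : DifferentiableOn ℂ (VV q) (ball 0 1) := by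
  unfold VV
  apply DifferentiableOn.fun_sum
  intro j _
  exact (kern_rot_diff (Par_norm hq j)).const_mul _

theorem VV_zero (hq : q ∈ Par N) : VV q 0 = 1 := by
  unfold VV
  simp
  have := hq.1.2
  exact_mod_cast this

theorem cf_sum {ι : Type*} (s : Finset ι) (F : ι → ℂ → ℂ)
    (hF : ∀ i ∈ s, DifferentiableOn ℂ (F i) (ball 0 1)) (n : ℕ) :
    cf n (fun z => ∑ i ∈ s, F i z) = ∑ i ∈ s, cf n (F i) := by
  classical
  induction s using Finset.induction_on with
  | empty =>
    simp only [Finset.sum_empty]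
    unfold cf
    have : iteratedDeriv n (fun _ : ℂ => (0:ℂ)) 0 = 0 := by
      rw [iteratedDeriv_const]; split_ifs <;> rfl
    rw [this, zero_div]
  | insert a s ha ih =>
    have h1 : (fun z => ∑ i ∈ insert a s, F i z) = fun z => F a z + ∑ i ∈ s, F i z := by
      funext z; rw [Finset.sum_insert ha]
    rw [h1, Finset.sum_insert ha]
    have h2 : DifferentiableOn ℂ (fun z => ∑ i ∈ s, F i z) (ball 0 1) :=
      DifferentiableOn.fun_sum (fun i hi => hF i (Finset.mem_insert_of_mem hi))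
    rw [cf_add (hF a (Finset.mem_insert_self a s)) h2,
      ih (fun i hi => hF i (Finset.mem_insert_of_mem hi))]

theorem VV_cf (hq : q ∈ Par N) (n : ℕ) : cf n (VV q) = ∑ j, (q.1 j : ℂ) * (q.2 j) ^ n := by
  unfold VV
  rw [cf_sum _ _ (fun j _ => (kern_rot_diff (Par_norm hq j)).const_mul _)]
  apply Finset.sum_congr rfl
  intro j _
  rw [cf_const_mul]
  have h := cf_rot (fun z : ℂ => (1 - z)⁻¹) (q.2 j) n
  rw [h, cf_kern, mul_one]

variable {β : ℝ}

/-- the functional -/
noncomputable def Lam (β : ℝ) (n : ℕ) (c : ℂ) (V : ℂ → ℂ) : ℝ :=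
  (c * cf n (fun z => Psi β (V z))).re

theorem PsiV_diff (hβ : 1 < β) {V : ℂ → ℂ} (hV : DifferentiableOn ℂ V (ball 0 1))
    (hH : ∀ z ∈ ball (0:ℂ) 1, V z ∈ HH) :
    DifferentiableOn ℂ (fun z => Psi β (V z)) (ball 0 1) :=
  (Psi_diffOn hβ).comp hV hH

theorem Lam_cont (hβ : 1 < β) (n : ℕ) (c : ℂ) (N : ℕ) :
    ContinuousOn (fun q => Lam β n c (VV q)) (Par N) := by
  rw [continuousOn_iff_continuous_domRestrict]
  have hr : (0:ℝ) < 1 / 2 := by norm_num
  have hr1 : (1:ℝ) / 2 < 1 := by norm_num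
  have hpi : (2 * Real.pi : ℂ) ≠ 0 := by
    have : (2 * Real.pi : ℝ) ≠ 0 := by positivity
    exact_mod_cast this
  have hcm : ∀ θ, circleMap 0 (1 / 2) θ ∈ ball (0:ℂ) 1 := by
    intro θ
    rw [mem_ball_zero_iff, norm_circleMap_zero, abs_of_pos hr]
    exact hr1
  set f : Par N → ℝ → ℂ := fun q θ =>
    Psi β (VV q.1 (circleMap 0 (1 / 2) θ)) * ((circleMap 0 (1 / 2) θ) ^ n)⁻¹ with hf
  have hVc : Continuous (fun p : Par N × ℝ => VV p.1.1 (circleMap 0 (1 / 2) p.2)) := by
    unfold VV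
    apply continuous_finsetSum
    intro j _
    apply Continuous.mul
    · fun_prop
    · apply Continuous.inv₀
      · apply continuous_const.sub
        apply Continuous.mul
        · fun_prop
        · exact (continuous_circleMap 0 (1 / 2)).comp continuous_snd
      · intro p
        exact one_sub_ne (rot_mem (Par_norm p.1.2 j) (hcm p.2))
  have hfc : Continuous f.uncurry := by
    have h1 : ContinuousOn (Psi β) HH := (Psi_diffOn hβ).continuousOn
    have h2 : Continuous (fun p : Par N × ℝ => Psi β (VV p.1.1 (circleMap 0 (1 / 2) p.2))) :=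
      h1.comp_continuous hVc (fun p => VV_mem p.1.2 (hcm p.2))
    have h3 : Continuous (fun p : Par N × ℝ => ((circleMap 0 (1 / 2) p.2) ^ n)⁻¹) := by
      apply Continuous.inv₀
      · exact ((continuous_circleMap 0 (1 / 2)).comp continuous_snd).pow n
      · intro p; exact pow_ne_zero n (circleMap_ne hr p.2)
    exact h2.mul h3
  have hint := intervalIntegral.continuous_parametric_intervalIntegral_of_continuous'
    (μ := volume) hfc 0 (2 * Real.pi)
  have heq : (Par N).domRestrict (fun q => Lam β n c (VV q)) =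
      fun q : Par N => (c * ((2 * Real.pi : ℂ)⁻¹ * ∫ θ in (0:ℝ)..(2 * Real.pi), f q θ)).re := by
    funext q
    rw [Set.domRestrict_apply]
    unfold Lam
    have h1 := cf_circle (PsiV_diff hβ (VV_diff q.2) (fun z hz => VV_mem q.2 hz)) n hr hr1
    rw [hf]
    simp only at h1 ⊢
    rw [h1, ← mul_assoc (2 * (Real.pi:ℂ))⁻¹, inv_mul_cancel₀ hpi, one_mul]
  rw [heq]
  exact Complex.continuous_re.comp (continuous_const.mul (continuous_const.mul hint))

/-- jets determine the functional -/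
theorem Lam_jet (hβ : 1 < β) (n : ℕ) (c : ℂ) {V W : ℂ → ℂ} (hV : DifferentiableOn ℂ V (ball 0 1))
    (hVH : ∀ z ∈ ball (0:ℂ) 1, V z ∈ HH) (hW : DifferentiableOn ℂ W (ball 0 1))
    (hWH : ∀ z ∈ ball (0:ℂ) 1, W z ∈ HH) (hjet : ∀ k ≤ n, cf k V = cf k W) :
    Lam β n c V = Lam β n c W := by
  unfold Lam
  congr 2
  apply cf_eq_of_isBigO (PsiV_diff hβ hV hVH) (PsiV_diff hβ hW hWH)
  have h1 := isBigO_of_cf_eq hV hW n hjet
  have h0 : (0:ℂ) ∈ ball (0:ℂ) 1 := by simp
  have h00 : V 0 = W 0 := by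
    have := hjet 0 (Nat.zero_le n)
    rwa [cf_zero_eq, cf_zero_eq] at this
  have hV0 : V 0 ∈ HH := hVH 0 h0
  have hstrict : HasStrictDerivAt (Psi β) (deriv (Psi β) (V 0)) (V 0) :=
    ((Psi_diffOn hβ).analyticAt (HH_open.mem_nhds hV0)).hasStrictDerivAt
  have h2 := hstrict.isBigO_sub
  have h3 : Tendsto (fun z => (V z, W z)) (𝓝 0) (𝓝 (V 0, V 0)) := by
    have hVc : ContinuousAt V 0 := hV.continuousOn.continuousAt (isOpen_ball.mem_nhds h0)
    have hWc : ContinuousAt W 0 := hW.continuousOn.continuousAt (isOpen_ball.mem_nhds h0)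
    have hWt : Tendsto W (𝓝 0) (𝓝 (V 0)) := by rw [h00]; exact hWc
    exact hVc.tendsto.prodMk_nhds hWt
  exact (h2.comp_tendsto h3).trans h1

end Pool.Agent.H21R3
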