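import Mathlib
import Pool.Agent.H21R3.Ext1

set_option autoImplicit false

/-!
The extremal problem for `Psi (V z)`.
-/

namespace Pool.Agent.H21R3

open Complex Metric Set Filter Topology MeasureTheory

variable {β : ℝ}

/-- the class of `V` -/
structure VC (V : ℂ → ℂ) : Prop where
  diff : DifferentiableOn ℂ V (ball 0 1)
  mem : ∀ z ∈ ball (0:ℂ) 1, V z ∈ HH
  zero : V 0 = 1

theorem VC_deriv {V : ℂ → ℂ} (hV : VC V) {z : ℂ} (hz : z ∈ ball (0:ℂ) 1) :
    HasDerivAt V (deriv V z) z :=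
  (hV.diff.differentiableAt (isOpen_ball.mem_nhds hz)).hasDerivAt

/-- the modified function through the midpoint property -/
theorem exists_mod (hβ : 1 < β) {V W : ℂ → ℂ} (hV : VC V) (hW : VC W) :
    ∃ X : ℂ → ℂ, VC X ∧ (∀ z ∈ ball (0:ℂ) 1, Psi β (X z) =
      Psi β (V z) + (1 / 2) * Complex.exp (ell β (V z)) * (W z - V z)) ∧
      deriv X 0 = (1 / 2) * (deriv V 0 + deriv W 0) := by
  have h0 : (0:ℂ) ∈ ball (0:ℂ) 1 := by simp
  have hmem : ∀ z ∈ ball (0:ℂ) 1, 1 / 2 < (V z).re := fun z hz => hV.mem z hz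
  have hell : ∀ z ∈ ball (0:ℂ) 1, HasDerivAt (fun z => ell β (V z))
      (ell' β (V z) * deriv V z) z := fun z hz =>
    (ell_hasDeriv hβ (hmem z hz).le).comp z (VC_deriv hV hz)
  have hPsi : ∀ z ∈ ball (0:ℂ) 1, HasDerivAt (fun z => Psi β (V z))
      (Complex.exp (ell β (V z)) * deriv V z) z := fun z hz =>
    (Psi_hasDeriv hβ (hmem z hz).le).comp z (VC_deriv hV hz)
  set F : ℂ → ℂ := fun z =>
    Psi β (V z) + (1 / 2) * Complex.exp (ell β (V z)) * (W z - V z) with hF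
  have hFd : ∀ z ∈ ball (0:ℂ) 1, HasDerivAt F (Complex.exp (ell β (V z)) * deriv V z +
      ((1 / 2) * (Complex.exp (ell β (V z)) * (ell' β (V z) * deriv V z)) * (W z - V z) +
        (1 / 2) * Complex.exp (ell β (V z)) * (deriv W z - deriv V z))) z := by
    intro z hz
    exact (hPsi z hz).add ((((hell z hz).cexp).const_mul (1 / 2)).mul
      ((VC_deriv hW hz).sub (VC_deriv hV hz)))
  have hFD : DifferentiableOn ℂ F (ball 0 1) := fun z hz =>
    (hFd z hz).differentiableAt.differentiableWithinAt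
  obtain ⟨X, hX1, hX2, hX3⟩ := lift_of_range HH_open (Psi_diffOn hβ) (Psi_inj hβ)
    (Psi_deriv_ne hβ) hFD (fun z hz => midpoint_mem hβ (hV.mem z hz) (hW.mem z hz))
  have h1H : (1:ℂ) ∈ HH := by show (1:ℝ) / 2 < (1:ℂ).re; norm_num
  have hX0 : X 0 = 1 := by
    apply Psi_inj hβ (hX2 0 h0) h1H
    rw [hX3 0 h0]
    simp only [hF]
    rw [hV.zero, hW.zero]
    ring
  refine ⟨X, ⟨hX1, hX2, hX0⟩, hX3, ?_⟩
  have hXd : HasDerivAt X (deriv X 0) 0 :=
    (hX1.differentiableAt (isOpen_ball.mem_nhds h0)).hasDerivAt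
  have h1 : HasDerivAt (fun z => Psi β (X z)) (Complex.exp (ell β (X 0)) * deriv X 0) 0 := by
    have h2 : 1 / 2 < (X 0).re := hX2 0 h0
    exact (Psi_hasDeriv hβ h2.le).comp (0:ℂ) hXd
  have h2 : HasDerivAt F (Complex.exp (ell β (X 0)) * deriv X 0) 0 := by
    refine h1.congr_of_eventuallyEq ?_
    filter_upwards [isOpen_ball.mem_nhds h0] with z hz
    exact (hX3 z hz).symm
  have h3 := h2.unique (hFd 0 h0)
  rw [hX0, hV.zero, hW.zero, sub_self, mul_zero, zero_add] at h3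
  apply mul_left_cancel₀ (Complex.exp_ne_zero (ell β 1))
  rw [h3]
  ring

theorem VC_of_Par {N : ℕ} {q : (Fin N → ℝ) × (Fin N → ℂ)} (hq : q ∈ Par N) : VC (VV q) :=
  ⟨VV_diff hq, fun _ hz => VV_mem hq hz, VV_zero hq⟩

theorem VC_kern {x : ℂ} (hx : ‖x‖ = 1) : VC (fun z => (1 - x * z)⁻¹) :=
  ⟨kern_rot_diff hx, fun _ hz => disc_to_H (rot_mem hx hz), by simp⟩

/-- every `V` has the same jet as a finite combination -/
theorem exists_Par (hβ : 1 < β) {n : ℕ} (hn : 1 ≤ n) (c : ℂ) {V : ℂ → ℂ} (hV : VC V) :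
    ∃ q ∈ Par (2 * n + 1), Lam β n c (VV q) = Lam β n c V ∧ cf 1 (VV q) = deriv V 0 := by
  obtain ⟨q, hq, hqe⟩ := cf_mem n hV.diff (fun z hz => hV.mem z hz) hV.zero
  have hjet : ∀ k ≤ n, cf k (VV q) = cf k V := by
    intro k hk
    rcases Nat.eq_zero_or_pos k with h | h
    · rw [h, cf_zero_eq, cf_zero_eq, VV_zero hq, hV.zero]
    · obtain ⟨j, rfl⟩ : ∃ j, k = j + 1 := ⟨k - 1, by omega⟩
      rw [hqe j (by omega), VV_cf hq]
  refine ⟨q, hq, ?_, ?_⟩
  · exact Lam_jet hβ n c (VV_diff hq) (fun z hz => VV_mem hq hz) hV.diff hV.mem hjet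
  · rw [hjet 1 hn, cf_one_eq]

/-- splitting off one kernel -/
theorem exists_split {N : ℕ} {q : (Fin N → ℝ) × (Fin N → ℂ)} (hq : q ∈ Par N)
    (hlt : ‖cf 1 (VV q)‖ < 1) :
    ∃ (t : ℝ) (x : ℂ) (W : ℂ → ℂ), 0 < t ∧ t < 1 ∧ ‖x‖ = 1 ∧ VC W ∧
      (∀ z, VV q z = t * (1 - x * z)⁻¹ + (1 - t) * W z) := by
  have hsum : ∑ j, q.1 j = 1 := hq.1.2
  have hnn : ∀ j, 0 ≤ q.1 j := hq.1.1
  obtain ⟨j, hj⟩ : ∃ j, 0 < q.1 j := by
    by_contra hcon
    push Not at hcon
    have : ∑ j, q.1 j ≤ 0 := Finset.sum_nonpos (fun j _ => hcon j)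
    linarith
  have hsplit : q.1 j + ∑ i ∈ Finset.univ.erase j, q.1 i = 1 := by
    rw [Finset.add_sum_erase _ _ (Finset.mem_univ j)]; exact hsum
  have hrest : 0 ≤ ∑ i ∈ Finset.univ.erase j, q.1 i := Finset.sum_nonneg (fun i _ => hnn i)
  have hjlt : q.1 j < 1 := by
    by_contra hcon
    push Not at hcon
    have hz : ∑ i ∈ Finset.univ.erase j, q.1 i = 0 := by linarith
    have hz' := (Finset.sum_eq_zero_iff_of_nonneg (fun i _ => hnn i)).mp hz
    have hj1 : q.1 j = 1 := by linarith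
    have h1 : cf 1 (VV q) = q.2 j := by
      rw [VV_cf hq, ← Finset.add_sum_erase _ _ (Finset.mem_univ j)]
      have h2 : ∑ i ∈ Finset.univ.erase j, (q.1 i : ℂ) * (q.2 i) ^ 1 = 0 := by
        apply Finset.sum_eq_zero
        intro i hi
        rw [hz' i hi]; simp
      rw [h2, hj1]; simp
    rw [h1, Par_norm hq j] at hlt
    exact lt_irrefl _ hlt
  have hne : (1 - q.1 j) ≠ 0 := by linarith
  have hnec : (1 - (q.1 j : ℂ)) ≠ 0 := by exact_mod_cast hne
  refine ⟨q.1 j, q.2 j, fun z => ∑ i ∈ Finset.univ.erase j,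
    ((q.1 i / (1 - q.1 j) : ℝ) : ℂ) * (1 - q.2 i * z)⁻¹, hj, hjlt, Par_norm hq j, ⟨?_, ?_, ?_⟩, ?_⟩
  · apply DifferentiableOn.fun_sum
    intro i _
    exact (kern_rot_diff (Par_norm hq i)).const_mul _
  · intro z hz
    have h1 : (∑ i ∈ Finset.univ.erase j, ((q.1 i / (1 - q.1 j) : ℝ) : ℂ) * (1 - q.2 i * z)⁻¹) =
        ∑ i ∈ Finset.univ.erase j, (q.1 i / (1 - q.1 j)) • (1 - q.2 i * z)⁻¹ := by
      apply Finset.sum_congr rfl
      intro i _
      rw [Complex.real_smul]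
    rw [h1]
    apply HH_convex.sum_mem
    · intro i _; exact div_nonneg (hnn i) (by linarith)
    · rw [← Finset.sum_div, div_eq_one_iff_eq hne]; linarith
    · intro i _
      exact disc_to_H (rot_mem (Par_norm hq i) hz)
  · simp only [mul_zero, sub_zero, inv_one, mul_one]
    rw [← Complex.ofReal_sum, ← Finset.sum_div]
    have : (∑ i ∈ Finset.univ.erase j, q.1 i) / (1 - q.1 j) = 1 := by
      rw [div_eq_one_iff_eq hne]; linarith
    rw [this]; simp
  · intro z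
    unfold VV
    rw [← Finset.add_sum_erase _ _ (Finset.mem_univ j), Finset.mul_sum]
    congr 1
    apply Finset.sum_congr rfl
    intro i _
    push_cast
    field_simp

/-- a combination with first coefficient of modulus one is a kernel -/
theorem VV_of_norm_one {N : ℕ} {q : (Fin N → ℝ) × (Fin N → ℂ)} (hq : q ∈ Par N)
    (h1 : 1 ≤ ‖cf 1 (VV q)‖) :
    ∃ w : ℂ, ‖w‖ = 1 ∧ ∀ z, VV q z = (1 - w * z)⁻¹ := by
  have hsum : ∑ j, q.1 j = 1 := hq.1.2
  have hnn : ∀ j, 0 ≤ q.1 j := hq.1.1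
  set m : ℂ := cf 1 (VV q) with hm
  have hmne : m ≠ 0 := by
    intro h; rw [h, norm_zero] at h1; linarith
  have hmpos : 0 < ‖m‖ := norm_pos_iff.mpr hmne
  set w : ℂ := m / (‖m‖ : ℂ) with hw
  have hmc : (‖m‖ : ℂ) ≠ 0 := by exact_mod_cast hmpos.ne'
  have hwn : ‖w‖ = 1 := by
    rw [hw, norm_div, Complex.norm_real, norm_norm, div_self hmpos.ne']
  have hcf : m = ∑ j, (q.1 j : ℂ) * q.2 j := by
    rw [hm, VV_cf hq]; simp
  have hre : ∀ j, (q.2 j * (starRingEnd ℂ) w).re ≤ 1 := by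
    intro j
    have := Complex.re_le_norm (q.2 j * (starRingEnd ℂ) w)
    rw [norm_mul, Complex.norm_conj, hwn, Par_norm hq j, mul_one] at this
    exact this
  have hmw : (m * (starRingEnd ℂ) w).re = ‖m‖ := by
    rw [hw, map_div₀, Complex.conj_ofReal, mul_div_assoc', Complex.mul_conj,
      Complex.normSq_eq_norm_sq]
    have : (((‖m‖ ^ 2 : ℝ) : ℂ) / (‖m‖ : ℂ)) = ((‖m‖ : ℝ) : ℂ) := by
      push_cast
      field_simp
    rw [this, Complex.ofReal_re]
  have hmw2 : (m * (starRingEnd ℂ) w).re = ∑ j, q.1 j * (q.2 j * (starRingEnd ℂ) w).re := by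
    rw [hcf, Finset.sum_mul, Complex.re_sum]
    apply Finset.sum_congr rfl
    intro j _
    rw [mul_assoc, Complex.re_ofReal_mul]
  have hz : ∑ j, q.1 j * (1 - (q.2 j * (starRingEnd ℂ) w).re) ≤ 0 := by
    have : ∑ j, q.1 j * (1 - (q.2 j * (starRingEnd ℂ) w).re) =
        ∑ j, q.1 j - ∑ j, q.1 j * (q.2 j * (starRingEnd ℂ) w).re := by
      rw [← Finset.sum_sub_distrib]
      apply Finset.sum_congr rfl
      intro j _; ring
    rw [this, hsum, ← hmw2, hmw]
    linarith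
  have hterm : ∀ j ∈ (Finset.univ : Finset (Fin N)),
      0 ≤ q.1 j * (1 - (q.2 j * (starRingEnd ℂ) w).re) := fun j _ =>
    mul_nonneg (hnn j) (by linarith [hre j])
  have hz' := (Finset.sum_eq_zero_iff_of_nonneg hterm).mp
    (le_antisymm hz (Finset.sum_nonneg hterm))
  refine ⟨w, hwn, fun z => ?_⟩
  unfold VV
  have hall : ∀ j, (q.1 j : ℂ) * (1 - q.2 j * z)⁻¹ = (q.1 j : ℂ) * (1 - w * z)⁻¹ := by
    intro j
    rcases mul_eq_zero.mp (hz' j (Finset.mem_univ j)) with h | h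
    · rw [h]; simp
    · have h2 : (q.2 j * (starRingEnd ℂ) w).re = 1 := by linarith
      have h3 : q.2 j = w := by
        have h4 : ‖q.2 j * (starRingEnd ℂ) w‖ = 1 := by
          rw [norm_mul, Complex.norm_conj, hwn, Par_norm hq j, mul_one]
        have h5 : q.2 j * (starRingEnd ℂ) w = 1 := by
          have h6 : Complex.normSq (q.2 j * (starRingEnd ℂ) w) = 1 := by
            rw [Complex.normSq_eq_norm_sq, h4]; norm_num
          rw [Complex.normSq_apply, h2] at h6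
          have h7 : (q.2 j * (starRingEnd ℂ) w).im = 0 := by nlinarith
          apply Complex.ext
          · rw [h2]; simp
          · rw [h7]; simp
        have h8 : w * (starRingEnd ℂ) w = 1 := by
          rw [Complex.mul_conj, Complex.normSq_eq_norm_sq, hwn]; simp
        have h9 : (starRingEnd ℂ) w ≠ 0 := by
          intro h; rw [h, mul_zero] at h8; exact zero_ne_one h8
        exact mul_right_cancel₀ h9 (h5.trans h8.symm)
      rw [h3]
  simp_rw [hall]
  rw [← Finset.sum_mul]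
  have : ∑ j, (q.1 j : ℂ) = 1 := by exact_mod_cast hsum
  rw [this, one_mul]

/-- parallelogram-type identity -/
theorem strict_convex_aux {t : ℝ} (ht0 : 0 < t) (ht1 : t < 1) {A B m : ℂ}
    (hm : (t:ℂ) * A + (1 - t) * B = m) (hA : ‖A‖ ≤ ‖m‖) (hB : ‖B‖ ≤ ‖m‖) : A = B := by
  have h1 : Complex.normSq A ≤ Complex.normSq m := by
    rw [Complex.normSq_eq_norm_sq, Complex.normSq_eq_norm_sq]
    exact pow_le_pow_left₀ (norm_nonneg _) hA 2
  have h2 : Complex.normSq B ≤ Complex.normSq m := by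
    rw [Complex.normSq_eq_norm_sq, Complex.normSq_eq_norm_sq]
    exact pow_le_pow_left₀ (norm_nonneg _) hB 2
  have h3 : t * Complex.normSq A + (1 - t) * Complex.normSq B =
      Complex.normSq m + t * (1 - t) * Complex.normSq (A - B) := by
    rw [← hm]
    simp only [Complex.normSq_apply, Complex.add_re, Complex.add_im, Complex.mul_re,
      Complex.mul_im, Complex.sub_re, Complex.sub_im, Complex.ofReal_re, Complex.ofReal_im,
      Complex.one_re, Complex.one_im]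
    ring
  have h4 : t * (1 - t) * Complex.normSq (A - B) ≤ 0 := by nlinarith
  have h5 : 0 < t * (1 - t) := mul_pos ht0 (by linarith)
  have h6 : Complex.normSq (A - B) ≤ 0 := by
    by_contra hcon
    push Not at hcon
    have := mul_pos h5 hcon
    linarith
  have h7 : Complex.normSq (A - B) = 0 := le_antisymm h6 (Complex.normSq_nonneg _)
  exact sub_eq_zero.mp (Complex.normSq_eq_zero.mp h7)

/-- **Extremal theorem**, linear functional version. -/
theorem extremal_re (hβ : 1 < β) {n : ℕ} (hn : 1 ≤ n) (c : ℂ) {V : ℂ → ℂ} (hV : VC V) :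
    Lam β n c V ≤ ‖c‖ * ‖cf n (hD β)‖ := by
  have hcomp := Par_compact (2 * n + 1)
  have hLc := Lam_cont hβ n c (2 * n + 1)
  obtain ⟨qV, hqV, hqV1, -⟩ := exists_Par hβ hn c hV
  obtain ⟨q₀, hq₀, hmax⟩ := hcomp.exists_isMaxOn ⟨qV, hqV⟩ hLc
  set M : ℝ := Lam β n c (VV q₀) with hM
  -- the set of maximisers
  set S : Set ((Fin (2 * n + 1) → ℝ) × (Fin (2 * n + 1) → ℂ)) :=
    Par (2 * n + 1) ∩ {q | M ≤ Lam β n c (VV q)} with hS
  have hScl : IsCompact S := by
    have h1 : IsClosed S := by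
      have := hLc.preimage_isClosed_of_isClosed hcomp.isClosed (isClosed_Ici (a := M))
      exact this
    exact hcomp.of_isClosed_subset h1 inter_subset_left
  have hSne : S.Nonempty := ⟨q₀, hq₀, by show M ≤ Lam β n c (VV q₀); exact le_rfl⟩
  have hcf1 : ContinuousOn (fun q : (Fin (2 * n + 1) → ℝ) × (Fin (2 * n + 1) → ℂ) =>
      ‖∑ j, (q.1 j : ℂ) * (q.2 j) ^ 1‖) S := by
    apply Continuous.continuousOn
    fun_prop
  obtain ⟨q₁, hq₁, hmax1⟩ := hScl.exists_isMaxOn hSne hcf1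
  have hq₁P : q₁ ∈ Par (2 * n + 1) := hq₁.1
  have hq₁M : Lam β n c (VV q₁) = M := le_antisymm (hmax hq₁P) hq₁.2
  have hbest : ∀ X : ℂ → ℂ, VC X → Lam β n c X ≤ M := by
    intro X hX
    obtain ⟨q, hq, hq1, -⟩ := exists_Par hβ hn c hX
    rw [← hq1]
    exact hmax hq
  have hbest1 : ∀ X : ℂ → ℂ, VC X → Lam β n c X = M → ‖deriv X 0‖ ≤ ‖cf 1 (VV q₁)‖ := by
    intro X hX hXM
    obtain ⟨q, hq, hq1, hq2⟩ := exists_Par hβ hn c hX
    have hqS : q ∈ S := ⟨hq, by show M ≤ Lam β n c (VV q); rw [hq1, hXM]⟩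
    have h1 : ‖∑ j, (q.1 j : ℂ) * (q.2 j) ^ 1‖ ≤ ‖∑ j, (q₁.1 j : ℂ) * (q₁.2 j) ^ 1‖ := hmax1 hqS
    rw [← VV_cf hq, ← VV_cf hq₁P, hq2] at h1
    exact h1
  have hone : 1 ≤ ‖cf 1 (VV q₁)‖ := by
    by_contra hcon
    push Not at hcon
    obtain ⟨t, x, W, ht0, ht1, hx, hW, hsplit⟩ := exists_split hq₁P hcon
    have hVq := VC_of_Par hq₁P
    have hK := VC_kern hx
    obtain ⟨X, hX, hXe, hXd⟩ := exists_mod hβ hVq hK
    obtain ⟨Y, hY, hYe, hYd⟩ := exists_mod hβ hVq hW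
    have h0 : (0:ℂ) ∈ ball (0:ℂ) 1 := by simp
    -- linear relation
    have hlin : Lam β n c (VV q₁) = t * Lam β n c X + (1 - t) * Lam β n c Y := by
      have h1 : cf n (fun z => Psi β (VV q₁ z)) =
          (t:ℂ) * cf n (fun z => Psi β (X z)) + (1 - (t:ℂ)) * cf n (fun z => Psi β (Y z)) := by
        rw [← cf_const_mul, ← cf_const_mul, ← cf_add
          ((PsiV_diff hβ hX.diff hX.mem).const_mul _) ((PsiV_diff hβ hY.diff hY.mem).const_mul _)]
        apply cf_congr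
        intro z hz
        simp only
        rw [hXe z hz, hYe z hz]
        have h2 := hsplit z
        linear_combination (1 / 2) * Complex.exp (ell β (VV q₁ z)) * h2
      unfold Lam
      rw [h1]
      have h2 : c * ((t:ℂ) * cf n (fun z => Psi β (X z)) +
          (1 - (t:ℂ)) * cf n (fun z => Psi β (Y z))) =
          (t:ℂ) * (c * cf n (fun z => Psi β (X z))) +
          ((1 - t : ℝ) : ℂ) * (c * cf n (fun z => Psi β (Y z))) := by push_cast; ring
      rw [h2, Complex.add_re, Complex.re_ofReal_mul, Complex.re_ofReal_mul]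
    have hXM := hbest X hX
    have hYM := hbest Y hY
    rw [hq₁M] at hlin
    have hXM' : Lam β n c X = M := by nlinarith
    have hYM' : Lam β n c Y = M := by nlinarith
    have hA := hbest1 X hX hXM'
    have hB := hbest1 Y hY hYM'
    -- derivatives
    have hder : deriv (VV q₁) 0 = t * x + (1 - t) * deriv W 0 := by
      have h1 : HasDerivAt (fun z => (t:ℂ) * (1 - x * z)⁻¹ + (1 - (t:ℂ)) * W z)
          ((t:ℂ) * deriv (fun z => (1 - x * z)⁻¹) 0 + (1 - (t:ℂ)) * deriv W 0) 0 :=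
        ((VC_deriv hK h0).const_mul _).add ((VC_deriv hW h0).const_mul _)
      have h2 : deriv (fun z : ℂ => (1 - x * z)⁻¹) 0 = x := by
        have h3 := cf_rot (fun z : ℂ => (1 - z)⁻¹) x 1
        rw [cf_kern, cf_one_eq] at h3
        rw [h3]; ring
      have h4 : VV q₁ = fun z => (t:ℂ) * (1 - x * z)⁻¹ + (1 - (t:ℂ)) * W z := funext hsplit
      rw [h4, h1.deriv, h2]
    have hkd : deriv (fun z : ℂ => (1 - x * z)⁻¹) 0 = x := by
      have h3 := cf_rot (fun z : ℂ => (1 - z)⁻¹) x 1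
      rw [cf_kern, cf_one_eq] at h3
      rw [h3]; ring
    rw [hkd] at hXd
    have hm : (t:ℂ) * deriv X 0 + (1 - t) * deriv Y 0 = cf 1 (VV q₁) := by
      rw [hXd, hYd, cf_one_eq]
      linear_combination (-(1 / 2) : ℂ) * hder
    have hAB := strict_convex_aux ht0 ht1 hm hA hB
    rw [hXd, hYd] at hAB
    have hxW : x = deriv W 0 := by linear_combination 2 * hAB
    rw [← hxW] at hder
    have : deriv (VV q₁) 0 = x := by rw [hder]; ring
    rw [cf_one_eq, this, hx] at hcon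
    exact lt_irrefl _ hcon
  obtain ⟨w, hw, hwe⟩ := VV_of_norm_one hq₁P hone
  have hval : Lam β n c (VV q₁) = (c * (w ^ n * cf n (hD β))).re := by
    unfold Lam
    rw [← cf_rot]
    congr 2
    apply cf_congr
    intro z _
    simp only
    rw [hwe z]
    rfl
  calc Lam β n c V = Lam β n c (VV qV) := hqV1.symm
    _ ≤ M := hmax hqV
    _ = (c * (w ^ n * cf n (hD β))).re := by rw [← hq₁M, hval]
    _ ≤ ‖c * (w ^ n * cf n (hD β))‖ := Complex.re_le_norm _
    _ = ‖c‖ * ‖cf n (hD β)‖ := by rw [norm_mul, norm_mul, norm_pow, hw]; ring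

/-- **Extremal theorem.** -/
theorem extremal (hβ : 1 < β) {n : ℕ} (hn : 1 ≤ n) {V : ℂ → ℂ} (hV : VC V) :
    ‖cf n (fun z => Psi β (V z))‖ ≤ ‖cf n (hD β)‖ := by
  set a : ℂ := cf n (fun z => Psi β (V z)) with ha
  rcases eq_or_ne a 0 with h | h
  · rw [h, norm_zero]; exact norm_nonneg _
  · have h1 := extremal_re hβ hn ((starRingEnd ℂ) a) hV
    unfold Lam at h1
    rw [← ha, mul_comm ((starRingEnd ℂ) a) a, Complex.mul_conj, Complex.ofReal_re,
      Complex.normSq_eq_norm_sq, Complex.norm_conj] at h1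
    have hpos : 0 < ‖a‖ := norm_pos_iff.mpr h
    nlinarith

end Pool.Agent.H21R3
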