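import Mathlib

set_option autoImplicit false

/-!
The class `M(α)` of alpha-convex (Mocanu) functions, the extremal function, and the numbers which
solve the coefficient problem.
-/

namespace Pool.Agent.H21R3

open Complex Metric Set

/-- The class `M(α)`: `f` is analytic and univalent in the unit disc, `f 0 = 0`, `f' 0 = 1`, and
`Re [α (1 + z f''/f') + (1 - α) z f'/f] > 0` for `0 < |z| < 1` (at `z = 0` the bracket is read as
its limit `1`, so the condition is automatic there). -/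
def IsAlphaConvex (α : ℝ) (f : ℂ → ℂ) : Prop :=
  DifferentiableOn ℂ f (ball 0 1) ∧ InjOn f (ball 0 1) ∧ f 0 = 0 ∧ deriv f 0 = 1 ∧
  ∀ z ∈ ball (0:ℂ) 1, z ≠ 0 →
    0 < ((α:ℂ) * (1 + z * deriv (deriv f) z / deriv f z) +
      (1 - (α:ℂ)) * (z * deriv f z / f z)).re

/-- The extremal function
`f_α(z) = z (1 - z)^(-2) [ (1/α) ∫_0^1 t^(1/α - 1) ((1 - z)/(1 - t z))^(2/α) dt ]^α`
(principal powers); it is the generalised Koebe function
`[ (1/α) ∫_0^z s^(1/α - 1) (1 - s)^(-2/α) ds ]^α`. -/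
noncomputable def extremalFn (α : ℝ) (z : ℂ) : ℂ :=
  z / (1 - z) ^ 2 *
    ((1 / (α:ℂ)) * ∫ t in (0:ℝ)..1, ((t ^ (1 / α - 1) : ℝ) : ℂ) *
      ((1 - z) / (1 - (t:ℂ) * z)) ^ ((2 / α : ℝ) : ℂ)) ^ (α : ℂ)

/-- `b_k = (2/α) (2/α + 1) ... (2/α + k - 1) / (k! (1 + α k))`. -/
noncomputable def bM (α : ℝ) (k : ℕ) : ℝ :=
  (∏ i ∈ Finset.range k, (2 / α + i)) / (k.factorial * (1 + α * k))

end Pool.Agent.H21R3
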