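import Mathlib
import Pool.Agent.H21R3.PDisc
import Pool.Agent.H21R3.Inj
import Pool.Agent.H21R3.Defs

set_option autoImplicit false

/-!
Stage 1: `z f'/f - 1` is subordinate to `PD`.
-/

namespace Pool.Agent.H21R3

open Complex Metric Set Filter Topology

variable {β : ℝ}

/-- `f(z)/z` -/
noncomputable def gq (f : ℂ → ℂ) : ℂ → ℂ := dslope f 0

/-- `z f'/f` -/
noncomputable def pq (f : ℂ → ℂ) (z : ℂ) : ℂ := 1 + z * deriv (gq f) z / gq f z

structure Basic (f : ℂ → ℂ) : Prop where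
  diff : DifferentiableOn ℂ f (ball 0 1)
  inj : InjOn f (ball 0 1)
  zero : f 0 = 0
  one : deriv f 0 = 1

theorem gq_mul {f : ℂ → ℂ} (h0 : f 0 = 0) (z : ℂ) : f z = z * gq f z := by
  unfold gq
  rcases eq_or_ne z 0 with h | h
  · rw [h, h0, zero_mul]
  · rw [dslope_of_ne _ h, slope_def_field, h0, sub_zero, sub_zero]
    field_simp

theorem gq_diff {f : ℂ → ℂ} (hf : Basic f) : DifferentiableOn ℂ (gq f) (ball 0 1) := by
  unfold gq
  exact (Complex.differentiableOn_dslope (ball_mem_nhds 0 one_pos)).mpr hf.diff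

theorem gq_zero {f : ℂ → ℂ} (hf : Basic f) : gq f 0 = 1 := by
  unfold gq
  rw [dslope_same, hf.one]

theorem gq_ne {f : ℂ → ℂ} (hf : Basic f) {z : ℂ} (hz : z ∈ ball (0:ℂ) 1) : gq f z ≠ 0 := by
  rcases eq_or_ne z 0 with h | h
  · rw [h, gq_zero hf]; exact one_ne_zero
  · intro h0
    have h1 := gq_mul hf.zero z
    rw [h0, mul_zero] at h1
    exact h (hf.inj hz (by simp) (h1.trans hf.zero.symm))

theorem gq_hasDeriv {f : ℂ → ℂ} (hf : Basic f) {z : ℂ} (hz : z ∈ ball (0:ℂ) 1) :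
    HasDerivAt (gq f) (deriv (gq f) z) z :=
  ((gq_diff hf).differentiableAt (isOpen_ball.mem_nhds hz)).hasDerivAt

theorem f_deriv {f : ℂ → ℂ} (hf : Basic f) {z : ℂ} (hz : z ∈ ball (0:ℂ) 1) :
    deriv f z = gq f z + z * deriv (gq f) z := by
  have h1 : HasDerivAt (fun z => z * gq f z) (1 * gq f z + z * deriv (gq f) z) z :=
    (hasDerivAt_id z).mul (gq_hasDeriv hf hz)
  have h2 : f = fun z => z * gq f z := funext (gq_mul hf.zero)
  conv_lhs => rw [h2]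
  rw [h1.deriv, one_mul]

theorem f_deriv' {f : ℂ → ℂ} (hf : Basic f) {z : ℂ} (hz : z ∈ ball (0:ℂ) 1) :
    deriv f z = pq f z * gq f z := by
  rw [f_deriv hf hz]
  unfold pq
  have := gq_ne hf hz
  field_simp

theorem gq_deriv_diff {f : ℂ → ℂ} (hf : Basic f) :
    DifferentiableOn ℂ (deriv (gq f)) (ball 0 1) := (gq_diff hf).deriv isOpen_ball

theorem pq_diff {f : ℂ → ℂ} (hf : Basic f) : DifferentiableOn ℂ (pq f) (ball 0 1) := by
  unfold pq
  apply DifferentiableOn.const_add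
  apply DifferentiableOn.div
  · exact differentiableOn_id.mul (gq_deriv_diff hf)
  · exact gq_diff hf
  · exact fun z hz => gq_ne hf hz

theorem pq_zero {f : ℂ → ℂ} : pq f 0 = 1 := by
  unfold pq; simp

theorem pq_ne {f : ℂ → ℂ} (hf : Basic f) {z : ℂ} (hz : z ∈ ball (0:ℂ) 1) : pq f z ≠ 0 := by
  intro h0
  have h1 := f_deriv' hf hz
  rw [h0, zero_mul] at h1
  exact deriv_ne_zero_of_injOn isOpen_ball hf.diff hf.inj hz h1

/-- the Mocanu expression -/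
noncomputable def qq (β : ℝ) (f : ℂ → ℂ) (z : ℂ) : ℂ :=
  pq f z + (1 / β) * (z * deriv (pq f) z / pq f z)

theorem qq_eq {f : ℂ → ℂ} (hf : Basic f) {z : ℂ} (hz : z ∈ ball (0:ℂ) 1) (hz0 : z ≠ 0) :
    ((1 / β : ℝ) : ℂ) * (1 + z * deriv (deriv f) z / deriv f z) +
      (1 - ((1 / β : ℝ) : ℂ)) * (z * deriv f z / f z) = qq β f z := by
  have hp := pq_ne hf hz
  have hg := gq_ne hf hz
  have h1 : deriv (deriv f) z = deriv (pq f) z * gq f z + pq f z * deriv (gq f) z := by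
    have h2 : deriv f =ᶠ[𝓝 z] fun z => pq f z * gq f z := by
      filter_upwards [isOpen_ball.mem_nhds hz] with w hw
      exact f_deriv' hf hw
    rw [h2.deriv_eq]
    have h3 := ((pq_diff hf).differentiableAt (isOpen_ball.mem_nhds hz)).hasDerivAt
    exact (h3.mul (gq_hasDeriv hf hz)).deriv
  rw [h1, f_deriv' hf hz]
  have h4 : z * (pq f z * gq f z) / f z = pq f z := by
    rw [gq_mul hf.zero z]
    field_simp
  rw [h4]
  have h5 : z * deriv (gq f) z = (pq f z - 1) * gq f z := by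
    unfold pq
    field_simp
    ring
  unfold qq
  have h6 : z * (deriv (pq f) z * gq f z + pq f z * deriv (gq f) z) / (pq f z * gq f z) =
      z * deriv (pq f) z / pq f z + (pq f z - 1) := by
    rw [mul_add]
    have : z * (pq f z * deriv (gq f) z) = pq f z * (z * deriv (gq f) z) := by ring
    rw [this, h5]
    field_simp
  rw [h6]
  push_cast
  ring

theorem qq_re {f : ℂ → ℂ} (hf : IsAlphaConvex (1 / β) f) {z : ℂ} (hz : z ∈ ball (0:ℂ) 1) :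
    0 < (qq β f z).re := by
  obtain ⟨h1, h2, h3, h4, h5⟩ := hf
  have hb : Basic f := ⟨h1, h2, h3, h4⟩
  rcases eq_or_ne z 0 with h | h
  · rw [h]
    unfold qq
    rw [pq_zero]
    simp
  · rw [← qq_eq hb hz h]
    exact h5 z hz h

theorem qq_cont {f : ℂ → ℂ} (hf : Basic f) : ContinuousOn (qq β f) (ball 0 1) := by
  unfold qq
  apply ContinuousOn.add (pq_diff hf).continuousOn
  apply ContinuousOn.mul continuousOn_const
  apply ContinuousOn.div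
  · exact continuousOn_id.mul ((pq_diff hf).deriv isOpen_ball).continuousOn
  · exact (pq_diff hf).continuousOn
  · exact fun z hz => pq_ne hf hz

/-- Real part of `q` -/
theorem q_re_eq {ζ : ℂ} (hζ : ζ ∈ ball (0:ℂ) 1) :
    (2 * (1 - ζ)⁻¹ - 1).re = (1 - ‖ζ‖ ^ 2) * ‖(1 - ζ)⁻¹‖ ^ 2 := by
  have h1 := one_sub_ne hζ
  have h2 : Complex.normSq (1 - ζ) ≠ 0 := (Complex.normSq_pos.mpr h1).ne'
  rw [← Complex.normSq_eq_norm_sq, ← Complex.normSq_eq_norm_sq, Complex.normSq_inv]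
  have e : (2 * (1 - ζ)⁻¹ - 1).re = 2 * ((1 - ζ)⁻¹).re - 1 := by simp
  rw [e, Complex.inv_re]
  field_simp
  rw [Complex.normSq_apply, Complex.normSq_apply]
  simp
  ring

/-- **Stage 1.** -/
theorem stage1 (hβ : 1 < β) {f : ℂ → ℂ} (hf : IsAlphaConvex (1 / β) f) :
    ∀ z ∈ ball (0:ℂ) 1, pq f z - 1 ∈ PD β '' ball 0 1 := by
  have hb : Basic f := ⟨hf.1, hf.2.1, hf.2.2.1, hf.2.2.2.1⟩
  have hβ0 : 0 < β := by linarith
  intro z₁ hz₁
  by_contra hnot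
  have hz1 : ‖z₁‖ < 1 := mem_ball_zero_iff.mp hz₁
  have hsub : closedBall (0:ℂ) ‖z₁‖ ⊆ ball 0 1 := closedBall_subset_ball hz1
  have hne : (closedBall (0:ℂ) ‖z₁‖).Nonempty := ⟨0, by simp⟩
  -- lower bound of Re q
  have hq1 : ContinuousOn (fun z => (qq β f z).re) (closedBall (0:ℂ) ‖z₁‖) :=
    Complex.continuous_re.comp_continuousOn ((qq_cont hb).mono hsub)
  obtain ⟨a, ha, hamin⟩ := (isCompact_closedBall (0:ℂ) ‖z₁‖).exists_isMinOn hne hq1
  have hc0 : 0 < (qq β f a).re := qq_re hf (hsub ha)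
  -- bound of p
  obtain ⟨M, hM⟩ := (isCompact_closedBall (0:ℂ) ‖z₁‖).exists_bound_of_continuousOn
    ((pq_diff hb).continuousOn.mono hsub)
  have hM0 : 0 ≤ M := le_trans (norm_nonneg _) (hM 0 (by simp))
  -- large v
  have hev : ∀ᶠ v in Linf, ‖U β v‖ < 1 / (M + 1) := by
    have h1 : Tendsto (fun v => ‖U β v‖) Linf (𝓝 0) := by simpa using (U_tendsto hβ).norm
    exact h1.eventually_lt_const (by positivity)
  unfold Linf at hev
  rw [eventually_inf_principal, ← comap_norm_atTop, eventually_comap, eventually_atTop] at hev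
  obtain ⟨R, hR⟩ := hev
  set R1 : ℝ := max R 1 with hR1
  set K : Set ℂ := closedBall 0 R1 ∩ {v : ℂ | 1 / 2 ≤ v.re} with hK
  have hKc : IsCompact K := (isCompact_closedBall (0:ℂ) R1).inter_right
    (isClosed_le continuous_const Complex.continuous_re)
  have hKne : K.Nonempty := ⟨1, by
    refine ⟨?_, ?_⟩
    · rw [mem_closedBall_zero_iff, norm_one]; exact le_max_right _ _
    · show (1:ℝ) / 2 ≤ (1:ℂ).re
      norm_num⟩
  have hpc : ContinuousOn (fun v => (1 / U β v).re) K := by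
    intro v hv
    have hv' : 1 / 2 ≤ v.re := hv.2
    have h1 := (U_hasDeriv hβ (by linarith : 0 < v.re)).continuousAt
    exact (Complex.continuous_re.continuousAt.comp
      (continuousAt_const.div h1 (U_ne' hβ hv'))).continuousWithinAt
  obtain ⟨b, hbK, hbmin⟩ := hKc.exists_isMinOn hKne hpc
  have hc1 : 0 < (1 / U β b).re := by
    rw [one_div, Complex.inv_re]
    exact div_pos (U_re_pos' hβ hbK.2) (Complex.normSq_pos.mpr (U_ne' hβ hbK.2))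
  -- choice of s
  obtain ⟨s, hs0, hs1, hs2⟩ : ∃ s : ℝ, 0 < s ∧ s < 1 ∧
      (1 - s ^ 2) * R1 ^ 2 < min (qq β f a).re (1 / U β b).re := by
    have h1 : Tendsto (fun s : ℝ => (1 - s ^ 2) * R1 ^ 2) (𝓝[<] 1) (𝓝 ((1 - 1 ^ 2) * R1 ^ 2)) := by
      have : Continuous (fun s : ℝ => (1 - s ^ 2) * R1 ^ 2) := by fun_prop
      exact (this.tendsto 1).mono_left nhdsWithin_le_nhds
    have h2 : (1 - 1 ^ 2) * R1 ^ 2 < min (qq β f a).re (1 / U β b).re := by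
      rw [one_pow, sub_self, zero_mul]; exact lt_min hc0 hc1
    have h3 := h1.eventually_lt_const h2
    have h4 : ∀ᶠ s in 𝓝[<] (1:ℝ), s ∈ Ioo (0:ℝ) 1 := Ioo_mem_nhdsLT zero_lt_one
    obtain ⟨s, hsa, hsb⟩ := (h3.and h4).exists
    exact ⟨s, hsb.1, hsb.2, hsa⟩
  obtain ⟨z₀, ζ₀, k, hk, hz₀, hz₀1, hζ₀, hval, hder⟩ := contact_subord (PD_diffOn hβ) (PD_inj hβ)
    (PD_deriv_ne hβ) (g := fun z => pq f z - 1) ((pq_diff hb).sub_const 1)
    (by rw [PD_zero hβ, pq_zero]; ring) hz₁ hnot hs0 hs1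
  have hζD : ζ₀ ∈ ball (0:ℂ) 1 := by rw [mem_ball_zero_iff, hζ₀]; exact hs1
  have hz₀K : z₀ ∈ closedBall (0:ℂ) ‖z₁‖ := by rwa [mem_closedBall_zero_iff]
  have hz₀D := hsub hz₀K
  have hpval : pq f z₀ = PD β ζ₀ + 1 := by linear_combination hval
  rw [deriv_sub_const, PD_ode hβ hζD, ← hpval] at hder
  have hp0 := pq_ne hb hz₀D
  have hqv : qq β f z₀ = (2 * (1 - ζ₀)⁻¹ - 1) + ((k - 1 : ℝ) : ℂ) *
      ((2 * (1 - ζ₀)⁻¹ - 1) - pq f z₀) := by
    unfold qq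
    rw [hder]
    have hβc : (β:ℂ) ≠ 0 := by exact_mod_cast hβ0.ne'
    push_cast
    field_simp
    ring
  have hre := congrArg Complex.re hqv
  rw [Complex.add_re, Complex.re_ofReal_mul, Complex.sub_re (2 * (1 - ζ₀)⁻¹ - 1)] at hre
  have hv := disc_to_H hζD
  have hp1 : pq f z₀ = 1 / U β ((1 - ζ₀)⁻¹) := by rw [hpval]; unfold PD; ring
  have hvR : ‖(1 - ζ₀)⁻¹‖ ≤ R1 := by
    by_contra hcon
    push Not at hcon
    have h1 := hR ‖(1 - ζ₀)⁻¹‖ ((le_max_left R 1).trans hcon.le) _ rfl (le_of_lt hv)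
    have h2 := hM z₀ hz₀K
    rw [hp1, norm_div, norm_one] at h2
    have hUpos : 0 < ‖U β ((1 - ζ₀)⁻¹)‖ := norm_pos_iff.mpr (U_ne hβ hv)
    rw [div_le_iff₀ hUpos] at h2
    rw [lt_div_iff₀ (by linarith)] at h1
    nlinarith
  have hvK : (1 - ζ₀)⁻¹ ∈ K := ⟨by rwa [mem_closedBall_zero_iff], le_of_lt hv⟩
  have h1 : (1 / U β b).re ≤ (pq f z₀).re := by
    rw [hp1]; exact hbmin hvK
  have h2 : (qq β f a).re ≤ (qq β f z₀).re := hamin hz₀K
  have h3 : (2 * (1 - ζ₀)⁻¹ - 1).re ≤ (1 - s ^ 2) * R1 ^ 2 := by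
    rw [q_re_eq hζD, hζ₀]
    apply mul_le_mul_of_nonneg_left
    · exact pow_le_pow_left₀ (norm_nonneg _) hvR 2
    · nlinarith
  have h4 := hs2.trans_le (min_le_left _ _)
  have h5 := hs2.trans_le (min_le_right _ _)
  have h6 : (k - 1) * ((2 * (1 - ζ₀)⁻¹ - 1).re - (pq f z₀).re) ≤ 0 := by
    apply mul_nonpos_of_nonneg_of_nonpos (by linarith)
    linarith
  linarith

/-- **Stage 2.** -/
theorem stage2 (hβ : 1 < β) {f : ℂ → ℂ} (hf : IsAlphaConvex (1 / β) f) :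
    ∀ z ∈ ball (0:ℂ) 1, gq f z ∈ hD β '' ball 0 1 := by
  have hb : Basic f := ⟨hf.1, hf.2.1, hf.2.2.1, hf.2.2.2.1⟩
  intro z₁ hz₁
  by_contra hnot
  have hz1 : ‖z₁‖ < 1 := mem_ball_zero_iff.mp hz₁
  obtain ⟨s, hs0, hs1⟩ := exists_between hz1
  have hspos : 0 < s := lt_of_le_of_lt (norm_nonneg _) hs0
  obtain ⟨z₀, ζ₀, k, hk, hz₀, hz₀1, hζ₀, hval, hder⟩ := contact_subord (hD_diffOn hβ) (hD_inj hβ)
    (hD_deriv_ne hβ) (gq_diff hb) (by rw [hD_zero hβ, gq_zero hb]) hz₁ hnot hspos hs1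
  have hζD : ζ₀ ∈ ball (0:ℂ) 1 := by rw [mem_ball_zero_iff, hζ₀]; exact hs1
  have hz₀D : z₀ ∈ ball (0:ℂ) 1 := by rw [mem_ball_zero_iff]; linarith
  rw [hD_log hβ hζD, ← hval] at hder
  have hg := gq_ne hb hz₀D
  have hp : pq f z₀ - 1 = k * PD β ζ₀ := by
    unfold pq
    rw [hder]
    field_simp
    ring
  obtain ⟨ζ₁, hζ₁, hζ₁e⟩ := subord_of_range (PD_diffOn hβ) (PD_inj hβ) (PD_deriv_ne hβ)
    (g := fun z => pq f z - 1) ((pq_diff hb).sub_const 1)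
    (by rw [PD_zero hβ, pq_zero]; ring) (stage1 hβ hf) z₀ hz₀D
  have hζ₁D : ζ₁ ∈ ball (0:ℂ) 1 := by rw [mem_ball_zero_iff]; linarith
  have hkpos : 0 < k := by linarith
  obtain ⟨ζ₂, hζ₂, hζ₂e⟩ := PD_radial hβ hζ₁D (a := 1 / k) (by positivity)
    (by rw [div_le_one hkpos]; exact hk)
  have hζ₂D : ζ₂ ∈ ball (0:ℂ) 1 := by rw [mem_ball_zero_iff]; linarith
  have h1 : PD β ζ₂ = PD β ζ₀ := by
    rw [hζ₂e, hζ₁e, hp]
    have : (k:ℂ) ≠ 0 := by exact_mod_cast hkpos.ne'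
    push_cast
    field_simp
  have h2 := PD_inj hβ hζ₂D hζD h1
  rw [h2, hζ₀] at hζ₂
  linarith

/-- `f(z)/z = Psi (V z)` with `V` analytic into the half plane. -/
theorem exists_V (hβ : 1 < β) {f : ℂ → ℂ} (hf : IsAlphaConvex (1 / β) f) :
    ∃ V : ℂ → ℂ, DifferentiableOn ℂ V (ball 0 1) ∧ (∀ z ∈ ball (0:ℂ) 1, V z ∈ HH) ∧ V 0 = 1 ∧
      ∀ z ∈ ball (0:ℂ) 1, Psi β (V z) = gq f z := by
  have hb : Basic f := ⟨hf.1, hf.2.1, hf.2.2.1, hf.2.2.2.1⟩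
  obtain ⟨V, hV1, hV2, hV3⟩ := lift_of_range HH_open (Psi_diffOn hβ) (Psi_inj hβ)
    (Psi_deriv_ne hβ) (gq_diff hb) (by
      intro z hz
      obtain ⟨ζ, hζ, hζe⟩ := stage2 hβ hf z hz
      exact ⟨(1 - ζ)⁻¹, disc_to_H hζ, hζe⟩)
  refine ⟨V, hV1, hV2, ?_, hV3⟩
  have h0 : (0:ℂ) ∈ ball (0:ℂ) 1 := by simp
  apply Psi_inj hβ (hV2 0 h0) (show (1:ℂ) ∈ HH by show (1:ℝ) / 2 < (1:ℂ).re; norm_num)
  rw [hV3 0 h0, gq_zero hb, Psi_one hβ]

end Pool.Agent.H21R3
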