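import Mathlib
import Pool.Agent.H21R3.Ext2
import Pool.Agent.H21R3.Sub

set_option autoImplicit false

/-!
Coefficient recursions for the extremal function, and membership in the class.
-/

namespace Pool.Agent.H21R3

open Complex Metric Set Filter Topology MeasureTheory

theorem cf_mul {F G : ℂ → ℂ} (hF : DifferentiableOn ℂ F (ball 0 1))
    (hG : DifferentiableOn ℂ G (ball 0 1)) (n : ℕ) :
    cf n (fun z => F z * G z) = ∑ i ∈ Finset.range (n + 1), cf i F * cf (n - i) G := by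
  unfold cf
  have h1 : ContDiffAt ℂ n F 0 := (diffOn_analyticAt hF).contDiffAt
  have h2 : ContDiffAt ℂ n G 0 := (diffOn_analyticAt hG).contDiffAt
  rw [iteratedDeriv_fun_mul h1 h2, Finset.sum_div]
  apply Finset.sum_congr rfl
  intro i hi
  have hi' : i ≤ n := by
    have := Finset.mem_range.mp hi
    omega
  have h3 := Nat.choose_mul_factorial_mul_factorial hi'
  have h4 : (n.choose i : ℂ) * (i.factorial : ℂ) * ((n - i).factorial : ℂ) = (n.factorial : ℂ) := by
    exact_mod_cast h3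
  have h5 : (i.factorial : ℂ) ≠ 0 := by exact_mod_cast Nat.factorial_ne_zero i
  have h6 : ((n - i).factorial : ℂ) ≠ 0 := by exact_mod_cast Nat.factorial_ne_zero (n - i)
  have h7 : (n.factorial : ℂ) ≠ 0 := by exact_mod_cast Nat.factorial_ne_zero n
  rw [div_mul_div_comm, div_eq_div_iff h7 (mul_ne_zero h5 h6), ← h4]
  ring

theorem cf_deriv (F : ℂ → ℂ) (n : ℕ) : cf n (deriv F) = (n + 1) * cf (n + 1) F := by
  unfold cf
  rw [← iteratedDeriv_succ', Nat.factorial_succ]
  have h5 : (n.factorial : ℂ) ≠ 0 := by exact_mod_cast Nat.factorial_ne_zero n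
  have h6 : ((n : ℂ) + 1) ≠ 0 := by exact_mod_cast Nat.succ_ne_zero n
  push_cast
  field_simp

theorem cf_zderiv {F : ℂ → ℂ} (hF : DifferentiableOn ℂ F (ball 0 1)) (n : ℕ) :
    cf (n + 1) (fun z => z * deriv F z) = (n + 1) * cf (n + 1) F := by
  rw [cf_shift (hF.deriv isOpen_ball), cf_deriv]

variable {β : ℝ}

/-- `p = z f'/f` for the extremal function -/
noncomputable def pD (β : ℝ) (z : ℂ) : ℂ := PD β z + 1

theorem pD_diff (hβ : 1 < β) : DifferentiableOn ℂ (pD β) (ball 0 1) :=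
  (PD_diffOn hβ).add_const 1

theorem cf_const_succ (a : ℂ) (n : ℕ) : cf (n + 1) (fun _ : ℂ => a) = 0 := by
  unfold cf
  rw [iteratedDeriv_const]
  simp

theorem cf_pD_succ (hβ : 1 < β) (n : ℕ) : cf (n + 1) (pD β) = cf (n + 1) (PD β) := by
  have h := cf_add (PD_diffOn hβ) (differentiableOn_const (1:ℂ)) (n + 1)
  rw [cf_const_succ, add_zero] at h
  exact h

theorem cf_pD_zero (hβ : 1 < β) : cf 0 (pD β) = 1 := by
  rw [cf_zero_eq]
  unfold pD
  rw [PD_zero hβ, zero_add]

theorem cf_q (n : ℕ) : cf (n + 1) (fun z : ℂ => 2 * (1 - z)⁻¹ + (-1)) = 2 := by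
  have hd : DifferentiableOn ℂ (fun z : ℂ => 2 * (1 - z)⁻¹) (ball 0 1) := kern_diff.const_mul 2
  rw [cf_add hd (differentiableOn_const (-1:ℂ)), cf_const_succ, cf_const_mul, cf_kern]
  ring

/-- recursion for the coefficients of `p` -/
theorem cf_pD_rec (hβ : 1 < β) (n : ℕ) :
    (1 + (1 / (β:ℂ)) * (n + 1)) * cf (n + 1) (pD β) =
      2 + ∑ k ∈ Finset.range n, cf (k + 1) (pD β) * (2 - cf (n - k) (pD β)) := by
  have hβc : (β:ℂ) ≠ 0 := by
    have : (β : ℝ) ≠ 0 := by linarith
    exact_mod_cast this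
  have hqd : DifferentiableOn ℂ (fun z : ℂ => 2 * (1 - z)⁻¹ + (-1)) (ball 0 1) :=
    (kern_diff.const_mul 2).add_const _
  have hdd : DifferentiableOn ℂ (fun z : ℂ => (2 * (1 - z)⁻¹ + (-1)) + (-1) * pD β z) (ball 0 1) :=
    hqd.add ((pD_diff hβ).const_mul (-1))
  have h1 : cf (n + 1) (fun z => z * deriv (pD β) z) =
      cf (n + 1) (fun z => β * (pD β z * ((2 * (1 - z)⁻¹ + (-1)) + (-1) * pD β z))) := by
    apply cf_congr
    intro z hz
    simp only
    have h2 : deriv (pD β) z = deriv (PD β) z := by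
      unfold pD
      exact deriv_add_const _
    rw [h2, PD_ode hβ hz]
    unfold pD
    ring
  rw [cf_zderiv (pD_diff hβ), cf_const_mul, cf_mul (pD_diff hβ) hdd] at h1
  have hG : ∀ k, cf (k + 1) (fun z : ℂ => (2 * (1 - z)⁻¹ + (-1)) + (-1) * pD β z) =
      2 - cf (k + 1) (pD β) := by
    intro k
    rw [cf_add hqd ((pD_diff hβ).const_mul (-1)), cf_q, cf_const_mul]
    ring
  have hG0 : cf 0 (fun z : ℂ => (2 * (1 - z)⁻¹ + (-1)) + (-1) * pD β z) = 0 := by
    rw [cf_zero_eq]
    have := cf_pD_zero hβ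
    rw [cf_zero_eq] at this
    rw [this]
    norm_num
  rw [Finset.sum_range_succ, Nat.sub_self, hG0, mul_zero, add_zero, Finset.sum_range_succ',
    Nat.sub_zero, cf_pD_zero hβ, one_mul, hG] at h1
  have h3 : ∑ k ∈ Finset.range n, cf (k + 1) (pD β) *
      cf (n + 1 - (k + 1)) (fun z : ℂ => (2 * (1 - z)⁻¹ + (-1)) + (-1) * pD β z) =
      ∑ k ∈ Finset.range n, cf (k + 1) (pD β) * (2 - cf (n - k) (pD β)) := by
    apply Finset.sum_congr rfl
    intro k hk
    have hk' := Finset.mem_range.mp hk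
    have e : n + 1 - (k + 1) = (n - k - 1) + 1 := by omega
    have e2 : n - k = (n - k - 1) + 1 := by omega
    rw [e, hG, ← e2]
  rw [h3] at h1
  field_simp
  linear_combination h1

/-- recursion for the coefficients of `hD` -/
theorem cf_hD_rec (hβ : 1 < β) (n : ℕ) :
    ((n:ℂ) + 1) * cf (n + 1) (hD β) =
      ∑ k ∈ Finset.range (n + 1), cf (k + 1) (pD β) * cf (n - k) (hD β) := by
  have h1 : cf (n + 1) (fun z => z * deriv (hD β) z) = cf (n + 1) (fun z => PD β z * hD β z) := by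
    apply cf_congr
    intro z hz
    exact hD_log hβ hz
  rw [cf_zderiv (hD_diffOn hβ), cf_mul (PD_diffOn hβ) (hD_diffOn hβ)] at h1
  rw [h1, Finset.sum_range_succ']
  have h2 : cf 0 (PD β) = 0 := by rw [cf_zero_eq, PD_zero hβ]
  rw [h2, zero_mul, add_zero]
  apply Finset.sum_congr rfl
  intro k hk
  rw [cf_pD_succ hβ]
  congr 2
  omega

theorem cf_pD_real (hβ : 1 < β) (n : ℕ) : cf n (pD β) = ((cf n (pD β)).re : ℂ) := by
  have hβ0 : 0 < β := by linarith
  induction n using Nat.strong_induction_on with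
  | _ n ih =>
    rcases n with _ | n
    · rw [cf_pD_zero hβ]; simp
    · have h1 := cf_pD_rec hβ n
      have h2 : ∑ k ∈ Finset.range n, cf (k + 1) (pD β) * (2 - cf (n - k) (pD β)) =
          ((∑ k ∈ Finset.range n, (cf (k + 1) (pD β)).re * (2 - (cf (n - k) (pD β)).re) : ℝ) : ℂ) := by
        push_cast
        apply Finset.sum_congr rfl
        intro k hk
        have hk' := Finset.mem_range.mp hk
        rw [← ih (k + 1) (by omega), ← ih (n - k) (by omega)]
      rw [h2] at h1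
      have h3 : (1 + (1 / (β:ℂ)) * (n + 1)) = ((1 + (1 / β) * (n + 1) : ℝ) : ℂ) := by
        push_cast; rfl
      rw [h3] at h1
      have h4 : (1 + (1 / β) * ((n:ℝ) + 1)) ≠ 0 := by positivity
      have h5 := congrArg Complex.im h1
      rw [Complex.im_ofReal_mul, Complex.add_im, Complex.ofReal_im] at h5
      have h6 : (cf (n + 1) (pD β)).im = 0 := by
        have : (2:ℂ).im = 0 := by simp
        rw [this, add_zero] at h5
        rcases mul_eq_zero.mp h5 with h | h
        · exact absurd h h4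
        · exact h
      apply Complex.ext
      · simp
      · rw [h6]; simp

theorem cf_hD_real (hβ : 1 < β) (n : ℕ) : cf n (hD β) = ((cf n (hD β)).re : ℂ) := by
  induction n using Nat.strong_induction_on with
  | _ n ih =>
    rcases n with _ | n
    · rw [cf_zero_eq, hD_zero hβ]; simp
    · have h1 := cf_hD_rec hβ n
      have h2 : ∑ k ∈ Finset.range (n + 1), cf (k + 1) (pD β) * cf (n - k) (hD β) =
          ((∑ k ∈ Finset.range (n + 1), (cf (k + 1) (pD β)).re * (cf (n - k) (hD β)).re : ℝ) : ℂ) := by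
        push_cast
        apply Finset.sum_congr rfl
        intro k hk
        have hk' := Finset.mem_range.mp hk
        rw [← ih (n - k) (by omega), ← cf_pD_real hβ (k + 1)]
      rw [h2] at h1
      have h3 : ((n:ℂ) + 1) = (((n:ℝ) + 1 : ℝ) : ℂ) := by push_cast; rfl
      rw [h3] at h1
      have h4 : ((n:ℝ) + 1) ≠ 0 := by positivity
      have h5 := congrArg Complex.im h1
      rw [Complex.im_ofReal_mul, Complex.ofReal_im] at h5
      have h6 : (cf (n + 1) (hD β)).im = 0 := by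
        rcases mul_eq_zero.mp h5 with h | h
        · exact absurd h h4
        · exact h
      apply Complex.ext
      · simp
      · rw [h6]; simp

/-- real recursion -/
theorem P_rec (hβ : 1 < β) (n : ℕ) :
    (1 + (1 / β) * (n + 1)) * (cf (n + 1) (pD β)).re =
      2 + ∑ k ∈ Finset.range n, (cf (k + 1) (pD β)).re * (2 - (cf (n - k) (pD β)).re) := by
  have h1 := cf_pD_rec hβ n
  have h2 : ∑ k ∈ Finset.range n, cf (k + 1) (pD β) * (2 - cf (n - k) (pD β)) =
      ((∑ k ∈ Finset.range n, (cf (k + 1) (pD β)).re * (2 - (cf (n - k) (pD β)).re) : ℝ) : ℂ) := by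
    push_cast
    apply Finset.sum_congr rfl
    intro k _
    rw [← cf_pD_real hβ (k + 1), ← cf_pD_real hβ (n - k)]
  rw [h2] at h1
  have h3 : (1 + (1 / (β:ℂ)) * (n + 1)) = ((1 + (1 / β) * (n + 1) : ℝ) : ℂ) := by
    push_cast; rfl
  rw [h3] at h1
  have h5 := congrArg Complex.re h1
  rw [Complex.re_ofReal_mul, Complex.add_re, Complex.ofReal_re] at h5
  simpa using h5

theorem c_rec (hβ : 1 < β) (n : ℕ) :
    ((n:ℝ) + 1) * (cf (n + 1) (hD β)).re =
      ∑ k ∈ Finset.range (n + 1), (cf (k + 1) (pD β)).re * (cf (n - k) (hD β)).re := by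
  have h1 := cf_hD_rec hβ n
  have h2 : ∑ k ∈ Finset.range (n + 1), cf (k + 1) (pD β) * cf (n - k) (hD β) =
      ((∑ k ∈ Finset.range (n + 1), (cf (k + 1) (pD β)).re * (cf (n - k) (hD β)).re : ℝ) : ℂ) := by
    push_cast
    apply Finset.sum_congr rfl
    intro k _
    rw [← cf_hD_real hβ (n - k), ← cf_pD_real hβ (k + 1)]
  rw [h2] at h1
  have h3 : ((n:ℂ) + 1) = (((n:ℝ) + 1 : ℝ) : ℂ) := by push_cast; rfl
  rw [h3] at h1
  have h5 := congrArg Complex.re h1
  rw [Complex.re_ofReal_mul, Complex.ofReal_re] at h5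
  exact h5

theorem pD_re_pos (hβ : 1 < β) {z : ℂ} (hz : z ∈ ball (0:ℂ) 1) : 0 < (pD β z).re := by
  have h : pD β z = 1 / U β ((1 - z)⁻¹) := by unfold pD PD; ring
  rw [h, one_div, Complex.inv_re]
  exact div_pos (U_re_pos hβ _ (disc_to_H hz)) (Complex.normSq_pos.mpr (U_ne hβ (disc_to_H hz)))

theorem P_le_two (hβ : 1 < β) (n : ℕ) : (cf (n + 1) (pD β)).re ≤ 2 := by
  have hd : DifferentiableOn ℂ (fun z => (1 / 2) * pD β z + 1 / 2) (ball 0 1) :=
    ((pD_diff hβ).const_mul _).add_const _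
  obtain ⟨q, hq, hqe⟩ := cf_mem (n + 1) hd (fun z hz => by
    have h1 := pD_re_pos hβ hz
    have h2 : ((1 / 2 : ℂ) * pD β z + 1 / 2) = ((1 / 2 : ℝ) : ℂ) * pD β z + ((1 / 2 : ℝ) : ℂ) := by
      push_cast; rfl
    rw [h2, Complex.add_re, Complex.re_ofReal_mul, Complex.ofReal_re]
    linarith) (by
    have := cf_pD_zero hβ
    rw [cf_zero_eq] at this
    rw [this]; norm_num)
  have h1 := hqe n (by omega)
  have h2 : cf (n + 1) (fun z => (1 / 2) * pD β z + 1 / 2) = (1 / 2) * cf (n + 1) (pD β) := by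
    rw [cf_add ((pD_diff hβ).const_mul _) (differentiableOn_const _), cf_const_succ, cf_const_mul,
      add_zero]
  rw [h2] at h1
  have h3 : ‖(1 / 2) * cf (n + 1) (pD β)‖ ≤ 1 := by
    rw [h1]
    calc ‖∑ j, (q.1 j : ℂ) * (q.2 j) ^ (n + 1)‖ ≤ ∑ j, ‖(q.1 j : ℂ) * (q.2 j) ^ (n + 1)‖ :=
          norm_sum_le _ _
      _ = ∑ j, q.1 j := by
          apply Finset.sum_congr rfl
          intro j _
          rw [norm_mul, norm_pow, Par_norm hq j, one_pow, mul_one, Complex.norm_real,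
            Real.norm_of_nonneg (hq.1.1 j)]
      _ = 1 := hq.1.2
      _ ≤ 1 := le_rfl
  have h4 := Complex.re_le_norm ((1 / 2) * cf (n + 1) (pD β))
  have h5 : ((1 / 2 : ℂ) * cf (n + 1) (pD β)).re = (1 / 2) * (cf (n + 1) (pD β)).re := by
    have : (1 / 2 : ℂ) = ((1 / 2 : ℝ) : ℂ) := by push_cast; rfl
    rw [this, Complex.re_ofReal_mul]
  rw [h5] at h4
  linarith

theorem P_pos (hβ : 1 < β) (n : ℕ) : 0 < (cf (n + 1) (pD β)).re := by
  have hβ0 : 0 < β := by linarith
  induction n using Nat.strong_induction_on with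
  | _ n ih =>
    have h1 := P_rec hβ n
    have h2 : 0 ≤ ∑ k ∈ Finset.range n, (cf (k + 1) (pD β)).re * (2 - (cf (n - k) (pD β)).re) := by
      apply Finset.sum_nonneg
      intro k hk
      have hk' := Finset.mem_range.mp hk
      apply mul_nonneg (ih k hk').le
      have e2 : n - k = (n - k - 1) + 1 := by omega
      rw [e2]
      have := P_le_two hβ (n - k - 1)
      linarith
    have h3 : 0 < (1 + (1 / β) * ((n:ℝ) + 1)) := by positivity
    have h4 : 0 < (1 + (1 / β) * ((n:ℝ) + 1)) * (cf (n + 1) (pD β)).re := by rw [h1]; linarith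
    exact (mul_pos_iff_of_pos_left h3).mp h4

theorem c_pos (hβ : 1 < β) (n : ℕ) : 0 < (cf n (hD β)).re := by
  induction n using Nat.strong_induction_on with
  | _ n ih =>
    rcases n with _ | n
    · rw [cf_zero_eq, hD_zero hβ]; simp
    · have h1 := c_rec hβ n
      have h2 : 0 < ∑ k ∈ Finset.range (n + 1), (cf (k + 1) (pD β)).re * (cf (n - k) (hD β)).re := by
        apply Finset.sum_pos
        · intro k hk
          exact mul_pos (P_pos hβ k) (ih (n - k) (by omega))
        · exact ⟨0, by simp⟩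
      have h3 : 0 < (n:ℝ) + 1 := by positivity
      rw [← h1] at h2
      exact (mul_pos_iff_of_pos_left h3).mp h2

/-- the extremal function -/
noncomputable def fal (β : ℝ) (z : ℂ) : ℂ := z * hD β z

noncomputable def HL (β : ℝ) (z : ℂ) : ℂ :=
  2 * Complex.log ((1 - z)⁻¹) + (1 / β) * Complex.log (U β ((1 - z)⁻¹))

theorem HL_exp {z : ℂ} (hz : z ∈ ball (0:ℂ) 1) : Complex.exp (HL β z) = hD β z := by
  have hv0 : (1 - z)⁻¹ ≠ 0 := inv_ne_zero (one_sub_ne hz)
  unfold HL hD Psi Eu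
  rw [Complex.exp_add, two_mul, Complex.exp_add, Complex.exp_log hv0, pow_two]

theorem HL_diff (hβ : 1 < β) : DifferentiableOn ℂ (HL β) (ball 0 1) := by
  intro z hz
  have h := comp_v_hasDeriv (F := fun v => 2 * Complex.log v + (1 / β) * Complex.log (U β v))
    (F' := fun v => 2 * v⁻¹ + (1 / β) * ((2 * β * (Ep β v - U β v) / v) / U β v)) (fun v hv => by
      have hv' : 0 < v.re := by linarith
      have h1 : HasDerivAt Complex.log v⁻¹ v := Complex.hasDerivAt_log (Or.inl hv')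
      have h2 := (U_hasDeriv hβ hv').clog (Or.inl (U_re_pos hβ v hv))
      exact (h1.const_mul 2).add (h2.const_mul _)) hz
  exact h.differentiableAt.differentiableWithinAt

theorem HL_eq (hβ : 1 < β) {z : ℂ} (hz : z ∈ ball (0:ℂ) 1) :
    1 + z * deriv (HL β) z = pD β z := by
  have h1 := ((HL_diff hβ).differentiableAt (isOpen_ball.mem_nhds hz)).hasDerivAt
  have h2 := h1.cexp
  have h3 : HasDerivAt (hD β) (Complex.exp (HL β z) * deriv (HL β) z) z := by
    refine h2.congr_of_eventuallyEq ?_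
    filter_upwards [isOpen_ball.mem_nhds hz] with w hw
    exact (HL_exp hw).symm
  have h4 := hD_log hβ hz
  rw [h3.deriv, HL_exp hz] at h4
  have h5 := hD_ne hβ hz
  unfold pD
  have h6 : z * deriv (HL β) z = PD β z := by
    apply mul_right_cancel₀ h5
    linear_combination h4
  rw [h6]; ring

theorem fal_basic (hβ : 1 < β) : Basic (fal β) := by
  have h0 : (0:ℂ) ∈ ball (0:ℂ) 1 := by simp
  refine ⟨differentiableOn_id.mul (hD_diffOn hβ), ?_, by simp [fal], ?_⟩
  · have h := (Pool.Agent.Helper968.Schild.starlike_of_pos (HL_diff hβ) (fun z hz => by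
      rw [HL_eq hβ hz]; exact pD_re_pos hβ hz)).1
    intro x hx y hy hxy
    apply h hx hy
    simp only
    rw [HL_exp hx, HL_exp hy]
    exact hxy
  · have h1 : HasDerivAt (fal β) (1 * hD β 0 + 0 * deriv (hD β) 0) 0 :=
      (hasDerivAt_id (0:ℂ)).mul
        ((hD_diffOn hβ).differentiableAt (isOpen_ball.mem_nhds h0)).hasDerivAt
    rw [h1.deriv, hD_zero hβ]; ring

theorem gq_fal (hβ : 1 < β) (z : ℂ) : gq (fal β) z = hD β z := by
  have hb := fal_basic hβ
  rcases eq_or_ne z 0 with h | h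
  · rw [h, gq_zero hb, hD_zero hβ]
  · have h1 := gq_mul hb.zero z
    have h2 : z * gq (fal β) z = z * hD β z := h1.symm
    exact mul_left_cancel₀ h h2

theorem pq_fal (hβ : 1 < β) {z : ℂ} (hz : z ∈ ball (0:ℂ) 1) : pq (fal β) z = pD β z := by
  unfold pq
  have h1 : gq (fal β) = hD β := funext (gq_fal hβ)
  rw [h1, hD_log hβ hz]
  have := hD_ne hβ hz
  unfold pD
  field_simp
  ring

/-- the extremal function belongs to the class -/
theorem fal_mem (hβ : 1 < β) : IsAlphaConvex (1 / β) (fal β) := by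
  have hb := fal_basic hβ
  refine ⟨hb.diff, hb.inj, hb.zero, hb.one, ?_⟩
  intro z hz hz0
  have hβc : (β:ℂ) ≠ 0 := by
    have : (β : ℝ) ≠ 0 := by linarith
    exact_mod_cast this
  rw [qq_eq hb hz hz0]
  have h1 : deriv (pq (fal β)) z = deriv (PD β) z := by
    have h2 : pq (fal β) =ᶠ[𝓝 z] pD β := by
      filter_upwards [isOpen_ball.mem_nhds hz] with w hw
      exact pq_fal hβ hw
    rw [h2.deriv_eq]
    unfold pD
    exact deriv_add_const _
  have hp := pq_ne hb hz
  unfold qq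
  rw [h1, pq_fal hβ hz, PD_ode hβ hz]
  rw [pq_fal hβ hz] at hp
  have h3 : PD β z + 1 = pD β z := rfl
  rw [h3]
  have h4 : pD β z + (1 / β) * (β * pD β z * (2 * (1 - z)⁻¹ - 1 - pD β z) / pD β z) =
      2 * (1 - z)⁻¹ - 1 := by
    field_simp
    ring
  rw [h4]
  have h5 := disc_to_H hz
  simp
  simp at h5
  linarith

/-- **Sharp bound.** -/
theorem sharp_bound (hβ : 1 < β) {f : ℂ → ℂ} (hf : IsAlphaConvex (1 / β) f) {n : ℕ} (hn : 1 ≤ n) :
    ‖cf (n + 1) f‖ ≤ ‖cf n (hD β)‖ := by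
  have hb : Basic f := ⟨hf.1, hf.2.1, hf.2.2.1, hf.2.2.2.1⟩
  obtain ⟨V, hV1, hV2, hV3, hV4⟩ := exists_V hβ hf
  have h1 : cf (n + 1) f = cf n (gq f) := by
    rw [← cf_shift (gq_diff hb)]
    apply cf_congr
    intro z _
    exact gq_mul hb.zero z
  have h2 : cf n (gq f) = cf n (fun z => Psi β (V z)) := by
    apply cf_congr
    intro z hz
    exact (hV4 z hz).symm
  rw [h1, h2]
  exact extremal hβ hn ⟨hV1, hV2, hV3⟩

theorem cf_fal (hβ : 1 < β) (n : ℕ) : cf (n + 1) (fal β) = cf n (hD β) :=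
  cf_shift (hD_diffOn hβ) n

end Pool.Agent.H21R3
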