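import Mathlib
import Pool.Agent.H21R3.Coef

set_option autoImplicit false

/-!
The linear recursion for the coefficients of the extremal function.
-/

namespace Pool.Agent.H21R3

open Complex Metric Set Filter Topology MeasureTheory

variable {β : ℝ}

/-- `(1 - z)^(-2β)` -/
noncomputable def Gb (β : ℝ) (z : ℂ) : ℂ := Complex.exp (2 * β * Complex.log ((1 - z)⁻¹))

/-- `Σ b_k z^k` -/
noncomputable def Fb (β : ℝ) (z : ℂ) : ℂ := U β ((1 - z)⁻¹) * Gb β z

theorem Gb_hasDeriv {z : ℂ} (hz : z ∈ ball (0:ℂ) 1) :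
    HasDerivAt (Gb β) (Gb β z * (2 * β * (1 - z)⁻¹)) z := by
  have h1 := comp_v_hasDeriv (F := fun v => Complex.log v) (F' := fun v => v⁻¹) (fun v hv =>
    Complex.hasDerivAt_log (Or.inl (by linarith))) hz
  have h2 := (h1.const_mul (2 * (β:ℂ))).cexp
  refine h2.congr_deriv ?_
  have := inv_ne_zero (one_sub_ne hz)
  unfold Gb
  field_simp

theorem Gb_diff : DifferentiableOn ℂ (Gb β) (ball 0 1) := fun _ hz =>
  (Gb_hasDeriv hz).differentiableAt.differentiableWithinAt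

theorem Fb_hasDeriv (hβ : 1 < β) {z : ℂ} (hz : z ∈ ball (0:ℂ) 1) :
    HasDerivAt (Fb β) ((2 * β * (Ep β ((1 - z)⁻¹) - U β ((1 - z)⁻¹)) / (1 - z)⁻¹) *
      ((1 - z)⁻¹) ^ 2 * Gb β z + U β ((1 - z)⁻¹) * (Gb β z * (2 * β * (1 - z)⁻¹))) z := by
  have h1 := comp_v_hasDeriv (F := U β) (F' := fun v => 2 * β * (Ep β v - U β v) / v) (fun v hv =>
    U_hasDeriv hβ (by linarith)) hz
  exact h1.mul (Gb_hasDeriv hz)

theorem Fb_diff (hβ : 1 < β) : DifferentiableOn ℂ (Fb β) (ball 0 1) := fun _ hz =>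
  (Fb_hasDeriv hβ hz).differentiableAt.differentiableWithinAt

theorem z_inv {z : ℂ} (hz : z ∈ ball (0:ℂ) 1) : z * (1 - z)⁻¹ = (1 - z)⁻¹ - 1 := by
  have := one_sub_ne hz
  field_simp
  ring

theorem Fb_ode (hβ : 1 < β) {z : ℂ} (hz : z ∈ ball (0:ℂ) 1) :
    z * deriv (Fb β) z = β * Gb β z + (-(β:ℂ)) * Fb β z := by
  rw [(Fb_hasDeriv hβ hz).deriv]
  have hv := disc_to_H hz
  have hzv := zeta_v hz
  have hzi := z_inv hz
  have hode := U_ode hβ (half_pos_re hv)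
  unfold Fb
  generalize (1 - z)⁻¹ = v at *
  generalize (2 * β * (Ep β v - U β v) / v) = U' at *
  generalize U β v = u at *
  generalize Gb β z = G at *
  linear_combination (U' * G) * hzv + (2 * β * u * G) * hzi + G * hode

theorem Gb_zero : Gb β 0 = 1 := by unfold Gb; simp

theorem Fb_zero (hβ : 1 < β) : Fb β 0 = 1 := by unfold Fb; simp [Gb_zero, U_one hβ]

theorem cf_Gb_rec (n : ℕ) :
    ((n:ℂ) + 1) * cf (n + 1) (Gb β) = (2 * β + n) * cf n (Gb β) := by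
  have hzd : DifferentiableOn ℂ (fun z => z * deriv (Gb β) z) (ball 0 1) :=
    differentiableOn_id.mul (Gb_diff.deriv isOpen_ball)
  have hE : EqOn (fun z => z * deriv (Gb β) z) (fun z => z * (z * deriv (Gb β) z) +
      2 * β * (z * Gb β z)) (ball 0 1) := by
    intro z hz
    simp only
    rw [(Gb_hasDeriv hz).deriv]
    have hzi : (1 - z) * (1 - z)⁻¹ = 1 := mul_inv_cancel₀ (one_sub_ne hz)
    linear_combination (2 * β * Gb β z * z) * hzi
  have h1 := cf_congr hE (n + 1)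
  have hd1 : DifferentiableOn ℂ (fun z : ℂ => z * (z * deriv (Gb β) z)) (ball 0 1) :=
    differentiableOn_id.mul hzd
  have hd2 : DifferentiableOn ℂ (fun z : ℂ => 2 * (β:ℂ) * (z * Gb β z)) (ball 0 1) :=
    (differentiableOn_id.mul Gb_diff).const_mul _
  rw [cf_zderiv Gb_diff, cf_add hd1 hd2, cf_shift hzd, cf_const_mul, cf_shift Gb_diff] at h1
  have h2 : cf n (fun z => z * deriv (Gb β) z) = n * cf n (Gb β) := by
    rcases n with _ | n
    · rw [cf_zero_eq]; simp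
    · rw [cf_zderiv Gb_diff]; push_cast; ring
  rw [h2] at h1
  rw [h1]; ring

theorem cf_zderiv' {F : ℂ → ℂ} (hF : DifferentiableOn ℂ F (ball 0 1)) (n : ℕ) :
    cf n (fun z => z * deriv F z) = n * cf n F := by
  rcases n with _ | n
  · rw [cf_zero_eq]; simp
  · rw [cf_zderiv hF]; push_cast; ring

theorem cf_Fb_rel (hβ : 1 < β) (n : ℕ) :
    ((n:ℂ) + β) * cf n (Fb β) = β * cf n (Gb β) := by
  have hE : EqOn (fun z => z * deriv (Fb β) z) (fun z => β * Gb β z + (-(β:ℂ)) * Fb β z)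
      (ball 0 1) := fun z hz => Fb_ode hβ hz
  have h1 := cf_congr hE n
  rw [cf_zderiv' (Fb_diff hβ), cf_add (Gb_diff.const_mul _) ((Fb_diff hβ).const_mul _),
    cf_const_mul, cf_const_mul] at h1
  linear_combination h1

theorem cf_Gb (n : ℕ) : cf n (Gb β) =
    (((∏ i ∈ Finset.range n, (2 * β + i)) / n.factorial : ℝ) : ℂ) := by
  induction n with
  | zero => rw [cf_zero_eq, Gb_zero]; simp
  | succ n ih =>
    have h1 := cf_Gb_rec (β := β) n
    have h6 : ((n : ℂ) + 1) ≠ 0 := by exact_mod_cast Nat.succ_ne_zero n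
    have h5 : (n.factorial : ℂ) ≠ 0 := by exact_mod_cast Nat.factorial_ne_zero n
    apply mul_left_cancel₀ h6
    rw [h1, ih, Finset.prod_range_succ, Nat.factorial_succ]
    push_cast
    field_simp

theorem cf_Fb (hβ : 1 < β) (n : ℕ) : cf n (Fb β) = ((bM (1 / β) n : ℝ) : ℂ) := by
  have hβ0 : 0 < β := by linarith
  have h1 := cf_Fb_rel hβ n
  rw [cf_Gb] at h1
  have h2 : ((n:ℂ) + β) ≠ 0 := by
    have : ((n:ℝ) + β) ≠ 0 := by positivity
    exact_mod_cast this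
  apply mul_left_cancel₀ h2
  rw [h1]
  unfold bM
  have h3 : (2 / (1 / β)) = 2 * β := by field_simp
  rw [h3]
  have h4 : β * ((∏ i ∈ Finset.range n, (2 * β + i)) / n.factorial) = (n + β) *
      ((∏ i ∈ Finset.range n, (2 * β + i)) / (n.factorial * (1 + 1 / β * n))) := by
    have h5 : (n.factorial : ℝ) ≠ 0 := by exact_mod_cast Nat.factorial_ne_zero n
    have h6 : (1 + 1 / β * (n:ℝ)) ≠ 0 := by positivity
    field_simp
    ring
  have h5 : ((β * ((∏ i ∈ Finset.range n, (2 * β + i)) / n.factorial) : ℝ) : ℂ) =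
    (((n + β) * ((∏ i ∈ Finset.range n, (2 * β + i)) / (n.factorial * (1 + 1 / β * n))) : ℝ) : ℂ) := by
    rw [h4]
  push_cast at h5 ⊢
  exact h5

theorem hF_rel (hβ : 1 < β) {z : ℂ} (hz : z ∈ ball (0:ℂ) 1) :
    Fb β z * (z * deriv (hD β) z) = (1 / (β:ℂ)) * ((z * deriv (Fb β) z) * hD β z) := by
  rw [Fb_ode hβ hz, hD_log hβ hz]
  have hU := U_ne hβ (disc_to_H hz)
  have hβc : (β:ℂ) ≠ 0 := by
    have : (β : ℝ) ≠ 0 := by linarith
    exact_mod_cast this
  unfold Fb PD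
  generalize U β ((1 - z)⁻¹) = u at *
  field_simp
  ring

/-- **Linear recursion.** -/
theorem c_lin (hβ : 1 < β) (n : ℕ) :
    ((n:ℝ) + 1) * (cf (n + 1) (hD β)).re =
      ∑ k ∈ Finset.range (n + 1), ((1 / β) * (k + 1) - (n - k)) * bM (1 / β) (k + 1) *
        (cf (n - k) (hD β)).re := by
  have hzh : DifferentiableOn ℂ (fun z => z * deriv (hD β) z) (ball 0 1) :=
    differentiableOn_id.mul ((hD_diffOn hβ).deriv isOpen_ball)
  have hzF : DifferentiableOn ℂ (fun z => z * deriv (Fb β) z) (ball 0 1) :=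
    differentiableOn_id.mul ((Fb_diff hβ).deriv isOpen_ball)
  have hE : EqOn (fun z => Fb β z * (z * deriv (hD β) z))
      (fun z => (1 / (β:ℂ)) * ((z * deriv (Fb β) z) * hD β z)) (ball 0 1) :=
    fun z hz => hF_rel hβ hz
  have h1 := cf_congr hE (n + 1)
  rw [cf_const_mul, cf_mul (Fb_diff hβ) hzh, cf_mul hzF (hD_diffOn hβ)] at h1
  simp_rw [cf_zderiv' (hD_diffOn hβ), cf_zderiv' (Fb_diff hβ), cf_Fb hβ] at h1
  obtain ⟨c, hc⟩ : ∃ c : ℕ → ℝ, ∀ i, cf i (hD β) = (c i : ℂ) :=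
    ⟨fun i => (cf i (hD β)).re, cf_hD_real hβ⟩
  simp_rw [hc] at h1
  simp only [hc, Complex.ofReal_re]
  have h1r : ∑ i ∈ Finset.range (n + 1 + 1), bM (1 / β) i * (((n + 1 - i : ℕ) : ℝ) *
      c (n + 1 - i)) = (1 / β) * ∑ i ∈ Finset.range (n + 1 + 1), (i : ℝ) * bM (1 / β) i *
      c (n + 1 - i) := by
    exact_mod_cast h1
  rw [Finset.sum_range_succ' (fun i => bM (1 / β) i * (((n + 1 - i : ℕ) : ℝ) *
      c (n + 1 - i))) (n + 1), Finset.sum_range_succ' (fun i => (i : ℝ) * bM (1 / β) i *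
      c (n + 1 - i)) (n + 1)] at h1r
  have hb0 : bM (1 / β) 0 = 1 := by unfold bM; simp
  have h3 : (∑ k ∈ Finset.range (n + 1), bM (1 / β) (k + 1) *
      (((n + 1 - (k + 1) : ℕ) : ℝ) * c (n + 1 - (k + 1))) +
      bM (1 / β) 0 * (((n + 1 - 0 : ℕ) : ℝ) * c (n + 1 - 0))) =
      (1 / β) * (∑ k ∈ Finset.range (n + 1), ((k + 1 : ℕ) : ℝ) * bM (1 / β) (k + 1) *
      c (n + 1 - (k + 1)) +
      ((0 : ℕ) : ℝ) * bM (1 / β) 0 * c (n + 1 - 0)) := h1r
  rw [hb0] at h3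
  simp only [Nat.sub_zero, Nat.cast_zero, zero_mul, add_zero, one_mul] at h3
  have h5 : ∀ k ∈ Finset.range (n + 1), bM (1 / β) (k + 1) *
      (((n + 1 - (k + 1) : ℕ) : ℝ) * c (n + 1 - (k + 1))) =
      ((n:ℝ) - k) * bM (1 / β) (k + 1) * c (n - k) := by
    intro k hk
    have hk' : k ≤ n := by have := Finset.mem_range.mp hk; omega
    have e : n + 1 - (k + 1) = n - k := by omega
    rw [e, Nat.cast_sub hk']
    ring
  rw [Finset.sum_congr rfl h5] at h3
  have h6 : ∀ k ∈ Finset.range (n + 1), ((k + 1 : ℕ) : ℝ) * bM (1 / β) (k + 1) *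
      c (n + 1 - (k + 1)) =
      ((k:ℝ) + 1) * bM (1 / β) (k + 1) * c (n - k) := by
    intro k _
    have e : n + 1 - (k + 1) = n - k := by omega
    rw [e]
    push_cast
    ring
  rw [Finset.sum_congr rfl h6, Finset.mul_sum] at h3
  have h7 : ∑ k ∈ Finset.range (n + 1), ((1 / β) * (k + 1) - (n - k)) * bM (1 / β) (k + 1) *
        c (n - k) =
      ∑ k ∈ Finset.range (n + 1), (1 / β) * (((k:ℝ) + 1) * bM (1 / β) (k + 1) * c (n - k)) -
      ∑ k ∈ Finset.range (n + 1), ((n:ℝ) - k) * bM (1 / β) (k + 1) * c (n - k) := by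
    rw [← Finset.sum_sub_distrib]
    apply Finset.sum_congr rfl
    intro k _
    ring
  rw [h7, ← h3]
  push_cast
  ring

end Pool.Agent.H21R3
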