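import Mathlib
import Pool.Agent.H21R3.Coef2

set_option autoImplicit false

/-!
Explicit form of the extremal function and of its coefficients.
-/

namespace Pool.Agent.H21R3

open Complex Metric Set Filter Topology MeasureTheory

variable {β : ℝ}

/-- the recursion in the form used in the final statement -/
theorem c_lin' (hβ : 1 < β) {m : ℕ} (hm : 1 ≤ m) :
    (m:ℝ) * (cf m (hD β)).re =
      ∑ k ∈ Finset.Icc 1 m, ((1 / β) * (k:ℝ) - ((m:ℝ) - (k:ℝ))) * bM (1 / β) k *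
        (cf (m - k) (hD β)).re := by
  obtain ⟨n, rfl⟩ : ∃ n, m = n + 1 := ⟨m - 1, by omega⟩
  have h := c_lin hβ n
  have e : Finset.Icc 1 (n + 1) = Finset.Ico 1 (n + 1 + 1) := by
    ext x; simp
  rw [e, Finset.sum_Ico_eq_sum_range]
  have e2 : n + 1 + 1 - 1 = n + 1 := by omega
  rw [e2]
  push_cast
  rw [h]
  apply Finset.sum_congr rfl
  intro k _
  have e3 : n + 1 - (1 + k) = n - k := by omega
  have e4 : 1 + k = k + 1 := by omega
  rw [e3, e4]
  ring

theorem U_explicit {z : ℂ} (hz : z ∈ ball (0:ℂ) 1) :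
    (β:ℂ) * (∫ t in (0:ℝ)..1, ((t ^ (β - 1) : ℝ) : ℂ) *
      ((1 - z) / (1 - (t:ℂ) * z)) ^ ((2 * β : ℝ) : ℂ)) = U β ((1 - z)⁻¹) := by
  unfold U J
  congr 1
  apply intervalIntegral.integral_congr
  intro t ht
  rw [uIcc_of_le zero_le_one] at ht
  simp only
  congr 1
  have hv : 0 < ((1 - z)⁻¹).re := by have := disc_to_H hz; linarith
  have hs := Wl_slit hv ht
  have h1 : (Wl ((1 - z)⁻¹) t)⁻¹ = (1 - z) / (1 - (t:ℂ) * z) := by
    have h2 := one_sub_ne hz
    have h3 : Wl ((1 - z)⁻¹) t = (1 - (t:ℂ) * z) / (1 - z) := by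
      unfold Wl
      field_simp
      ring
    rw [h3, inv_div]
  rw [← h1, Complex.inv_cpow _ _ (slitPlane_arg_ne_pi hs), ← Complex.cpow_neg]
  congr 1
  push_cast
  ring

theorem extremalFn_eq (hβ : 1 < β) {z : ℂ} (hz : z ∈ ball (0:ℂ) 1) :
    extremalFn (1 / β) z = fal β z := by
  have hU := U_ne hβ (disc_to_H hz)
  have hβ0 : β ≠ 0 := by linarith
  unfold extremalFn fal hD Psi Eu
  have e1 : (1 / (((1 / β : ℝ)) : ℂ)) = (β:ℂ) := by push_cast; rw [one_div_one_div]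
  have e2 : 1 / (1 / β) - 1 = β - 1 := by rw [one_div_one_div]
  have e3 : 2 / (1 / β) = 2 * β := by field_simp
  rw [e1, e2, e3, U_explicit hz, Complex.cpow_def_of_ne_zero hU]
  have h2 := one_sub_ne hz
  have e4 : Complex.log (U β ((1 - z)⁻¹)) * (((1 / β : ℝ)) : ℂ) =
      (1 / (β:ℂ)) * Complex.log (U β ((1 - z)⁻¹)) := by push_cast; ring
  rw [e4]
  field_simp

theorem IsAlphaConvex.congr {α : ℝ} {f g : ℂ → ℂ} (hf : IsAlphaConvex α f)
    (h : EqOn g f (ball 0 1)) : IsAlphaConvex α g := by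
  obtain ⟨h1, h2, h3, h4, h5⟩ := hf
  have h0 : (0:ℂ) ∈ ball (0:ℂ) 1 := by simp
  have hev : ∀ z ∈ ball (0:ℂ) 1, g =ᶠ[𝓝 z] f := fun z hz => by
    filter_upwards [isOpen_ball.mem_nhds hz] with w hw
    exact h hw
  have hder : EqOn (deriv g) (deriv f) (ball 0 1) := fun z hz => (hev z hz).deriv_eq
  have hev2 : ∀ z ∈ ball (0:ℂ) 1, deriv g =ᶠ[𝓝 z] deriv f := fun z hz => by
    filter_upwards [isOpen_ball.mem_nhds hz] with w hw
    exact hder hw
  refine ⟨h1.congr h, ?_, by rw [h h0, h3], by rw [hder h0, h4], ?_⟩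
  · intro x hx y hy hxy
    rw [h hx, h hy] at hxy
    exact h2 hx hy hxy
  · intro z hz hz0
    rw [(hev2 z hz).deriv_eq, hder hz, h hz]
    exact h5 z hz hz0

end Pool.Agent.H21R3
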